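import Pool.Agent.Work.MP_8ec85b_lc_or.Hyp

/-!
The concept class of a family of rows.
-/

namespace Pool.Agent.Work.MP_8ec85b_lc_or

open Pool.Agent.Work.MP_8ec85b_lc

/-- `z` represents `c`: `c` is a row with variables or constants in its places. -/
def Rep (G : Rows) (n : ℕ) (c : (Fin n → Bool) → Bool) (z : List (Fin n ⊕ Bool)) : Prop :=
  ∃ g, G z.length = some g ∧ ∀ x, c x = g (z.map (Sum.elim x id))

/-- The concept class of a family of rows. -/
noncomputable def cls (G : Rows) : ConceptClass where
  mem n c := ∃ z, Rep G n c z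
  size n c := sInf {m | ∃ z, Rep G n c z ∧ z.length = m}

theorem cls_size_le {G : Rows} {n : ℕ} {c : (Fin n → Bool) → Bool} {z : List (Fin n ⊕ Bool)}
    (h : Rep G n c z) : (cls G).size n c ≤ z.length :=
  Nat.sInf_le ⟨z, h, rfl⟩

theorem cls_exists {G : Rows} {n : ℕ} {c : (Fin n → Bool) → Bool} (h : (cls G).mem n c) :
    ∃ z, Rep G n c z ∧ z.length = (cls G).size n c := by
  obtain ⟨z, hz⟩ := h
  exact Nat.sInf_mem (s := {m | ∃ z, Rep G n c z ∧ z.length = m}) ⟨_, z, hz, rfl⟩

theorem cls_embedding (G : Rows) : (cls G).EmbeddingClosed := by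
  intro n₁ n₂ e c hc
  obtain ⟨z, ⟨g, hg, hz⟩, hs⟩ := cls_exists hc
  have : Rep G n₂ (fun x => c (fun i => x (e i))) (z.map (Sum.map e id)) := by
    refine ⟨g, by simpa using hg, fun x => ?_⟩
    beta_reduce
    rw [hz, List.map_map]
    congr 1
    apply List.map_congr_left
    rintro (i | b) _ <;> rfl
  refine ⟨⟨_, this⟩, ?_⟩
  rw [← hs]
  simpa using cls_size_le this

open Classical in
theorem cls_projection (G : Rows) : (cls G).ProjectionClosed := by
  intro n₁ n₂ e a c hc
  obtain ⟨z, ⟨g, hg, hz⟩, hs⟩ := cls_exists hc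
  let f : Fin n₂ ⊕ Bool → Fin n₁ ⊕ Bool := Sum.elim
    (fun i => if h : ∃ j, e j = i then Sum.inl h.choose else Sum.inr (a i)) Sum.inr
  have : Rep G n₁ (fun y => c (Function.extend e y a)) (z.map f) := by
    refine ⟨g, by simpa using hg, fun y => ?_⟩
    beta_reduce
    rw [hz, List.map_map]
    congr 1
    apply List.map_congr_left
    rintro (i | b) _
    · by_cases h : ∃ j, e j = i
      · obtain ⟨j, rfl⟩ := h
        have h' : ∃ j', e j' = e j := ⟨j, rfl⟩
        have h'' : h'.choose = j := e.injective h'.choose_spec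
        simp only [Sum.elim_inl, Function.comp, f, h', dif_pos, h'']
        exact e.injective.extend_apply y a j
      · simp only [Sum.elim_inl, Function.comp, f, h, dif_neg, not_false_eq_true, Sum.elim_inr,
          id]
        exact Function.extend_apply' _ _ _ h
    · rfl
  refine ⟨⟨_, this⟩, ?_⟩
  rw [← hs]
  simpa using cls_size_le this

open Classical in
theorem cls_fewRelevant (G : Rows) : (cls G).FewRelevant := by
  refine ⟨1, fun n c hc => ?_⟩
  obtain ⟨z, ⟨g, hg, hz⟩, hs⟩ := cls_exists hc
  have h1 : {i : Fin n | Relevant c i} ⊆ ((z.filterMap Sum.getLeft?).toFinset : Set (Fin n)) := by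
    rintro i ⟨x, hx⟩
    by_contra hi
    apply hx
    rw [hz, hz]
    congr 1
    apply List.map_congr_left
    rintro (j | b) hj
    · have : j ≠ i := by
        rintro rfl
        apply hi
        simp only [Finset.mem_coe, List.mem_toFinset, List.mem_filterMap]
        exact ⟨_, hj, rfl⟩
      simp [this]
    · rfl
  calc {i : Fin n | Relevant c i}.ncard ≤
        ((z.filterMap Sum.getLeft?).toFinset : Set (Fin n)).ncard :=
        Set.ncard_le_ncard h1 (Finset.finite_toSet _)
    _ = (z.filterMap Sum.getLeft?).toFinset.card := Set.ncard_coe_finset _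
    _ ≤ (z.filterMap Sum.getLeft?).length := List.toFinset_card_le _
    _ ≤ z.length := List.length_filterMap_le _ _
    _ ≤ ((cls G).size n c + 2) ^ 1 := by rw [hs]; simp

end Pool.Agent.Work.MP_8ec85b_lc_or
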