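import Pool.Agent.Work.MP_8ec85b_lc_or.Sim

/-!
With the oracle `orc`, every class with few relevant variables which is learnable in the
infinite-attribute model is attribute-efficiently learnable.
-/

namespace Pool.Agent.Work.MP_8ec85b_lc_or

open Pool.Agent.Work.MP_8ec85b_lc
open scoped ENNReal

section master

variable (code a B : ℕ)

/-- The prediction: the vote of the experts. -/
noncomputable def mpred (s : ℕ × CL) (w : List Bool) : Bool :=
  orc (enc ((true, (code, ((s.1 + w.length + 2) ^ B, (s.2, w)))) : Qn))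

/-- The update: a mistake is recorded, or the next period begins. -/
noncomputable def mupd (s : ℕ × CL) (w : List Bool) (b : Bool) : ℕ × CL :=
  if (mpred code B s w == b) = true then s
  else if orc (enc ((false, (a, (s.1, (s.2, w)))) : Qn)) = true then (s.1, (w, b) :: s.2)
  else (s.1 + 1, [])

end master

end Pool.Agent.Work.MP_8ec85b_lc_or

namespace Pool.Agent.Work.MP_8ec85b_lc

open Pool.Agent.Work.MP_8ec85b_lc_or

section master

variable (code a B : ℕ)

theorem poly_mpred :
    PolyO orc (fun q : (ℕ × CL) × List Bool => mpred code B q.1 q.2) := by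
  unfold mpred
  apply PolyO.ask
  apply PolyO.ofPoly
  exact Poly.pair (Poly.const true) (Poly.pair (Poly.const code) (Poly.pair
    (Poly.pow (Poly.add (Poly.add (Poly.fst (Poly.fst Poly.id')) (Poly.length (Poly.snd Poly.id')))
      (Poly.const (2 : ℕ))) B) (Poly.pair (Poly.snd (Poly.fst Poly.id')) (Poly.snd Poly.id'))))

theorem poly_mask :
    PolyO orc (fun q : (ℕ × CL) × (List Bool × Bool) =>
      orc (enc ((false, (a, (q.1.1, (q.1.2, q.2.1)))) : Qn))) := by
  apply PolyO.ask
  apply PolyO.ofPoly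
  exact Poly.pair (Poly.const false) (Poly.pair (Poly.const a) (Poly.pair
    (Poly.fst (Poly.fst Poly.id')) (Poly.pair (Poly.snd (Poly.fst Poly.id'))
    (Poly.fst (Poly.snd Poly.id')))))

theorem poly_mtest :
    PolyO orc (fun q : (ℕ × CL) × (List Bool × Bool) => (mpred code B q.1 q.2.1 == q.2.2)) := by
  have h1 : PolyO orc (fun q : (ℕ × CL) × (List Bool × Bool) => mpred code B q.1 q.2.1) :=
    PolyO.comp (f := fun q : (ℕ × CL) × List Bool => mpred code B q.1 q.2)
      (g := fun q : (ℕ × CL) × (List Bool × Bool) => (q.1, q.2.1))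
      (poly_mpred code B) (PolyO.ofPoly (Poly.pair (Poly.fst Poly.id')
        (Poly.fst (Poly.snd Poly.id'))))
  have h2 : PolyO orc (fun q : (ℕ × CL) × (List Bool × Bool) => q.2.2) :=
    PolyO.ofPoly (Poly.snd (Poly.snd Poly.id'))
  exact PolyO.beqBool h1 h2

theorem poly_mupd :
    PolyO orc (fun q : (ℕ × CL) × (List Bool × Bool) => mupd code a B q.1 q.2.1 q.2.2) := by
  have h1 : PolyO orc (fun q : (ℕ × CL) × (List Bool × Bool) => q.1) :=
    PolyO.ofPoly (Poly.fst Poly.id')
  have h2 : PolyO orc (fun q : (ℕ × CL) × (List Bool × Bool) =>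
      ((q.1.1, (q.2.1, q.2.2) :: q.1.2) : ℕ × CL)) :=
    PolyO.ofPoly (Poly.pair (Poly.fst (Poly.fst Poly.id')) (Poly.lcons
      (Poly.pair (Poly.fst (Poly.snd Poly.id')) (Poly.snd (Poly.snd Poly.id')))
      (Poly.snd (Poly.fst Poly.id'))))
  have h3 : PolyO orc (fun q : (ℕ × CL) × (List Bool × Bool) =>
      ((q.1.1 + 1, []) : ℕ × CL)) :=
    PolyO.ofPoly (Poly.pair (Poly.succ (Poly.fst (Poly.fst Poly.id'))) (Poly.const ([] : CL)))
  exact PolyO.ite (poly_mtest code B) h1 (PolyO.ite (poly_mask a) h2 h3)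

end master

end Pool.Agent.Work.MP_8ec85b_lc

namespace Pool.Agent.Work.MP_8ec85b_lc_or

open Pool.Agent.Work.MP_8ec85b_lc
open scoped ENNReal


/-- The budget of a period. -/
def bgt (a n u : ℕ) : ℕ := (u + 2) ^ a * (Nat.log 2 n + 2) ^ a

theorem bgt_mono {a n u u' : ℕ} (h : u ≤ u') : bgt a n u ≤ bgt a n u' :=
  Nat.mul_le_mul_right _ (Nat.pow_le_pow_left (by omega) a)

/-- The invariant of the master learner. -/
def Inv {n : ℕ} (c : (Fin n → Bool) → Bool) (θ : Tm × Tm × D) (a B S : ℕ) (s : ℕ × CL) : Prop :=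
  s.1 ≤ S ∧ s.2.length ≤ bgt a n s.1 ∧ Lab c s.2 ∧
    W (trunc ((s.1 + n + 2) ^ B) orc) θ s.2 * 4 ^ s.2.length ≤ 2 * 3 ^ s.2.length

theorem master_run {n : ℕ} {c : (Fin n → Bool) → Bool} {θ : Tm × Tm × D} {a B S : ℕ}
    (hlast : ∀ L : CL, Inv c θ a B S (S, L) → L.length < bgt a n S) (xs : List (Fin n → Bool)) :
    ∀ s : ℕ × CL, Inv c θ a B S s →
      Inv c θ a B S (tfinal (mupd (Encodable.encode θ) a B) s (cubeRun c xs)) ∧
      tmistakes (mpred (Encodable.encode θ) B) (mupd (Encodable.encode θ) a B) s (cubeRun c xs) +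
        (s.1 * (bgt a n S + 1) + s.2.length) ≤
        (tfinal (mupd (Encodable.encode θ) a B) s (cubeRun c xs)).1 * (bgt a n S + 1) +
        (tfinal (mupd (Encodable.encode θ) a B) s (cubeRun c xs)).2.length := by
  induction xs with
  | nil =>
    intro s hs
    exact ⟨hs, by simp [cubeRun, tmistakes, tfinal]⟩
  | cons x xs ih =>
    intro s hs
    have hrun : cubeRun c (x :: xs) = (List.ofFn x, c x) :: cubeRun c xs := rfl
    rw [hrun]
    simp only [tfinal, tmistakes]
    by_cases hp : mpred (Encodable.encode θ) B s (List.ofFn x) = c x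
    · have h1 : mupd (Encodable.encode θ) a B s (List.ofFn x) (c x) = s := by
        simp [mupd, hp]
      rw [h1]
      simp only [hp, if_true, zero_add]
      exact ih s hs
    · have hne : ¬ (mpred (Encodable.encode θ) B s (List.ofFn x) == c x) = true := by
        simpa using hp
      simp only [hp, if_false]
      obtain ⟨u, L⟩ := s
      obtain ⟨hs1, hs2, hs3, hs4⟩ := hs
      simp only at hs1 hs2 hs3 hs4
      by_cases hb : L.length < bgt a n u
      · have hbo : orc (enc ((false, (a, (u, (L, List.ofFn x)))) : Qn)) = true := by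
          rw [orc_budget]
          simpa [bgt] using hb
        have h1 : mupd (Encodable.encode θ) a B (u, L) (List.ofFn x) (c x) =
            (u, (List.ofFn x, c x) :: L) := by
          simp only [mupd, hne, if_false, hbo, if_true]
          simp
        rw [h1]
        have hinv : Inv c θ a B S (u, (List.ofFn x, c x) :: L) := by
          refine ⟨hs1, by simp only [List.length_cons]; omega, ?_, ?_⟩
          · intro e he
            rcases List.mem_cons.1 he with rfl | he
            · exact ⟨x, rfl⟩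
            · exact hs3 e he
          · have hv := orc_vote θ ((u + (List.ofFn x).length + 2) ^ B) L (List.ofFn x)
            have hlen : (List.ofFn x).length = n := List.length_ofFn
            rw [hlen] at hv
            have hmis := W_mistake (trunc ((u + n + 2) ^ B) orc) θ L (List.ofFn x) _ (c x) hv (by
              intro h
              apply hp
              simp only [mpred, hlen]
              exact h)
            simp only [List.length_cons, pow_succ]
            calc W (trunc ((u + n + 2) ^ B) orc) θ ((List.ofFn x, c x) :: L) *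
                  (4 ^ L.length * 4) =
                  (W (trunc ((u + n + 2) ^ B) orc) θ ((List.ofFn x, c x) :: L) * 4) *
                  4 ^ L.length := by ring
              _ ≤ (W (trunc ((u + n + 2) ^ B) orc) θ L * 3) * 4 ^ L.length := by gcongr
              _ = (W (trunc ((u + n + 2) ^ B) orc) θ L * 4 ^ L.length) * 3 := by ring
              _ ≤ (2 * 3 ^ L.length) * 3 := by gcongr
              _ = _ := by ring
        obtain ⟨i1, i2⟩ := ih _ hinv
        refine ⟨i1, ?_⟩
        simp only [List.length_cons] at i2 ⊢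
        omega
      · have hbo : orc (enc ((false, (a, (u, (L, List.ofFn x)))) : Qn)) ≠ true := by
          rw [Ne, orc_budget]
          simpa [bgt] using hb
        have hbo' : orc (enc ((false, (a, (u, (L, List.ofFn x)))) : Qn)) = false := by
          simpa using hbo
        have h1 : mupd (Encodable.encode θ) a B (u, L) (List.ofFn x) (c x) = (u + 1, []) := by
          simp only [mupd, hne, if_false, hbo']
          simp
        have hlt : u ≠ S := by
          rintro rfl
          exact hb (hlast L ⟨hs1, hs2, hs3, hs4⟩)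
        rw [h1]
        have hinv : Inv c θ a B S (u + 1, []) := by
          refine ⟨by simp only; omega, by simp, by intro e he; simp at he, ?_⟩
          simp only [List.length_nil, pow_zero, mul_one]
          exact W_nil _ _
        obtain ⟨i1, i2⟩ := ih _ hinv
        refine ⟨i1, ?_⟩
        have h2 : bgt a n u ≤ bgt a n S := bgt_mono hs1
        simp only [List.length_nil, add_zero] at i2
        have h3 : (u + 1) * (bgt a n S + 1) = u * (bgt a n S + 1) + (bgt a n S + 1) := by ring
        dsimp only at i2 ⊢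
        omega

theorem budget_numeric {kr k s n v M : ℕ} (hv : v ≤ (s + 2) ^ kr)
    (hM : M ≤ 3 * ((3 + 2 * (Nat.log 2 n + 1)) * v + (v + s + 2) ^ k + 1)) :
    M < bgt (kr + (kr + 2) * k + 8) n s := by
  set ℓ := Nat.log 2 n with hℓ
  have h1 : (v + s + 2) ^ k ≤ (s + 2) ^ ((kr + 2) * k) := by
    rw [pow_mul]
    apply Nat.pow_le_pow_left
    have := pow_add_pow_le (s := s) (a := kr) (b := 1)
    have h2 : (s + 2) ^ (kr + 1 + 1) = (s + 2) ^ (kr + 2) := rfl
    simp only [pow_one] at this
    omega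
  have h3 : 1 ≤ (s + 2) ^ kr := Nat.one_le_pow _ _ (by omega)
  have h4 : 1 ≤ (s + 2) ^ ((kr + 2) * k) := Nat.one_le_pow _ _ (by omega)
  set p := (s + 2) ^ kr with hp
  set q := (s + 2) ^ ((kr + 2) * k) with hq
  have h5 : M ≤ 24 * ((ℓ + 2) * (p * q)) := by
    have e1 : (3 + 2 * (ℓ + 1)) * v ≤ (3 * (ℓ + 2)) * p := Nat.mul_le_mul (by omega) hv
    have e2 : p ≤ p * q := Nat.le_mul_of_pos_right _ h4
    have e3 : q ≤ p * q := Nat.le_mul_of_pos_left _ h3
    have e4 : (ℓ + 2) * p ≤ (ℓ + 2) * (p * q) := Nat.mul_le_mul_left _ e2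
    have e5 : p * q ≤ (ℓ + 2) * (p * q) := Nat.le_mul_of_pos_left _ (by omega)
    have e6 : 3 * (ℓ + 2) * p = 3 * ((ℓ + 2) * p) := by ring
    omega
  have h6 : 24 * ((ℓ + 2) * (p * q)) < bgt (kr + (kr + 2) * k + 8) n s := by
    have e1 : (s + 2) ^ (kr + (kr + 2) * k + 8) = p * q * (s + 2) ^ 8 := by
      rw [pow_add, pow_add]
    have e2 : (ℓ + 2) ^ (kr + (kr + 2) * k + 8) ≥ (ℓ + 2) ^ 1 :=
      Nat.pow_le_pow_right (by omega) (by omega)
    have e3 : 2 ^ 8 ≤ (s + 2) ^ 8 := Nat.pow_le_pow_left (by omega) 8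
    have e4 : 0 < p * q := by positivity
    calc 24 * ((ℓ + 2) * (p * q)) < 2 ^ 8 * ((ℓ + 2) * (p * q)) := by
          apply Nat.mul_lt_mul_of_pos_right (by norm_num)
          positivity
      _ = p * q * 2 ^ 8 * (ℓ + 2) ^ 1 := by ring
      _ ≤ p * q * (s + 2) ^ 8 * (ℓ + 2) ^ (kr + (kr + 2) * k + 8) :=
          Nat.mul_le_mul (Nat.mul_le_mul_left _ e3) e2
      _ = bgt (kr + (kr + 2) * k + 8) n s := by rw [bgt, e1]
  omega

theorem size_enc_var (l : List Bool) : (enc l).size ≤ 4 * l.length + 1 := by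
  have := size_enc_list_le (l := l) (M := 3) (fun b _ => enc_bool_size_le b)
  omega

/-- With the oracle `orc` the converse holds. -/
theorem ae_of_ia (C : ConceptClass) (hR : C.FewRelevant) (hI : IALearnableO orc C) :
    AELearnableO orc C := by
  classical
  obtain ⟨A, ⟨⟨Fp, hFp, hp⟩, ⟨Fu, hFu, hu⟩⟩, k, hk⟩ := hI
  obtain ⟨kr, hkr⟩ := hR
  obtain ⟨tp, rfl⟩ := hFp.exists_term
  obtain ⟨tu, rfl⟩ := hFu.exists_term
  obtain ⟨b₁, hb₁⟩ := use tp
  obtain ⟨b₂, hb₂⟩ := use tu
  set b := b₁ + b₂ with hb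
  have hbp : ∀ d : D, Uses tp orc d ((d.size + 2) ^ b) := fun d =>
    (hb₁ orc d).1.mono (pow_le_of_le (by omega))
  have hbu : ∀ d : D, Uses tu orc d ((d.size + 2) ^ b) := fun d =>
    (hb₂ orc d).1.mono (pow_le_of_le (by omega))
  set θ : Tm × Tm × D := (tp, tu, A.init) with hθ
  set a := kr + (kr + 2) * k + 8 with ha
  set B := (7 * k + 10) * b + 1 with hB
  obtain ⟨A', hA'1, hA'2⟩ := exists_learnerO (O := orc) ((0, []) : ℕ × CL)
    (mpred (Encodable.encode θ) B) (mupd (Encodable.encode θ) a B)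
    (poly_mpred _ _) (poly_mupd _ _ _)
  refine ⟨A', hA'1, 2 * a + 8, ?_⟩
  intro n c hc xs
  set S := C.size n c with hS
  obtain ⟨hfin, hmis⟩ := hA'2 (cubeRun c xs)
  rw [hfin, hmis]
  -- the relevant variables
  let R : Finset (Fin n) := Finset.univ.filter (fun i => Relevant c i)
  have hRcard : R.card ≤ (S + 2) ^ kr := by
    have h1 := hkr n c hc
    have h2 : {i : Fin n | Relevant c i} = (R : Set (Fin n)) := by ext i; simp [R]
    rw [h2, Set.ncard_coe_finset] at h1
    exact h1
  let V : List ℕ := R.toList.map (fun i : Fin n => (i : ℕ))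
  have hVlen : V.length = R.card := by simp [V]
  have hVn : V.length ≤ n := by
    rw [hVlen]
    refine (Finset.card_le_univ R).trans ?_
    simp
  have hVmem : ∀ i : Fin n, Relevant c i → (i : ℕ) ∈ V := by
    intro i hi
    exact List.mem_map.2 ⟨i, by simp [R, hi], rfl⟩
  have hVlt : ∀ j ∈ V, j < n := by
    intro j hj
    obtain ⟨i, _, rfl⟩ := List.mem_map.1 hj
    exact i.2
  have hVnodup : V.Nodup := R.nodup_toList.map Fin.val_injective
  -- the examples
  have hexl : ∀ w, (ex V w).length ≤ V.length := by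
    intro w
    simp only [ex, List.length_map]
    exact List.length_filter_le _ _
  have hexs : ∀ w, (enc (ex V w)).size ≤ (n + 2) ^ 5 := by
    intro w
    have h1 : ∀ l ∈ ex V w, (enc l).size ≤ 8 * n + 1 := by
      intro l hl
      obtain ⟨j, hj, rfl⟩ := List.mem_map.1 hl
      have h2 := hVlt j (List.mem_filter.1 hj).1
      have h3 := bn_length_le j
      have h4 := size_enc_var (bn j)
      omega
    have h2 := size_enc_list_le h1
    have h3 := (hexl w).trans hVn
    have h4 : (ex V w).length * (8 * n + 1 + 1) ≤ n * (8 * n + 1 + 1) := Nat.mul_le_mul_right _ h3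
    have h5 : n * (8 * n + 1 + 1) + 1 ≤ (n + 2) ^ 5 := by
      have : (n + 2) ^ 5 = n ^ 5 + 10 * n ^ 4 + 40 * n ^ 3 + 80 * n ^ 2 + 80 * n + 32 := by ring
      nlinarith [Nat.zero_le (n ^ 5), Nat.zero_le (n ^ 4), Nat.zero_le (n ^ 3)]
    omega
  have hexnodup : ∀ w, (ex V w).Nodup := fun w => (hVnodup.filter _).map bn_inj
  -- the learner on the relevant variables
  have hIA : ∀ L : CL, Lab c L →
      A.mistakes A.init (infRun c (fun i => bn i) (exs V L)) ≤ (V.length + S + 2) ^ k ∧
      (A.final A.init (infRun c (fun i => bn i) (exs V L))).size ≤ ((n + 2) ^ 5 + S + 2) ^ k := by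
    intro L _
    apply hk n c hc (fun i => bn i) (fun i j hij => Fin.val_injective (bn_inj hij)) (exs V L)
    intro x hx
    simp only [exs, List.mem_reverse, List.mem_map] at hx
    obtain ⟨e, _, rfl⟩ := hx
    exact ⟨hexnodup _, hexl _, hexs _⟩
  -- sizes of the questions
  have hpad : (((n + 2) ^ 5 + S + 2) ^ k + (n + 2) ^ 5 + 7) ^ b < (S + n + 2) ^ B := by
    have e0 : (n + 2) ^ 5 ≤ (S + n + 2) ^ 5 := Nat.pow_le_pow_left (by omega) 5
    have e1 : ((n + 2) ^ 5 + S + 2) ^ k ≤ (S + n + 2) ^ (7 * k) := by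
      rw [pow_mul]
      apply Nat.pow_le_pow_left
      have := pow_add_pow_le (s := S + n) (a := 5) (b := 1)
      simp only [pow_one] at this
      have h7 : (S + n + 2) ^ (5 + 1 + 1) = (S + n + 2) ^ 7 := rfl
      omega
    have e2 := pow_add_pow_le (s := S + n) (a := 7 * k) (b := 5)
    have e3 := pow_add_pow_le (s := S + n) (a := 7 * k + 5 + 1) (b := 3)
    have e4 : 7 ≤ (S + n + 2) ^ 3 := by
      calc 7 ≤ 2 ^ 3 := by norm_num
        _ ≤ (S + n + 2) ^ 3 := Nat.pow_le_pow_left (by omega) 3
    have e5 : ((n + 2) ^ 5 + S + 2) ^ k + (n + 2) ^ 5 + 7 ≤ (S + n + 2) ^ (7 * k + 10) := by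
      have : 7 * k + 5 + 1 + 3 + 1 = 7 * k + 10 := by ring
      rw [this] at e3
      omega
    calc _ ≤ ((S + n + 2) ^ (7 * k + 10)) ^ b := Nat.pow_le_pow_left e5 b
      _ = (S + n + 2) ^ ((7 * k + 10) * b) := by rw [← pow_mul]
      _ < (S + n + 2) ^ B := Nat.pow_lt_pow_right (by omega) (by omega)
  -- the last period
  have hlast : ∀ L : CL, Inv c θ a B S (S, L) → L.length < bgt a n S := by
    rintro L ⟨_, _, h3, h4⟩
    simp only at h3 h4
    obtain ⟨_, hms⟩ := sim (A := A) (tp := tp) (tu := tu) (O := orc)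
      (fun d y => hp (d, y)) (fun d y b => hu (d, (y, b))) hbp hbu hVmem
      (m := (S + n + 2) ^ B) (fun L hL => (hIA L hL).2) (fun x => hexs _) hpad L h3
    have hy : vars (V.map (fun i => Sum.inl (bn i))) = V := by
      simp only [vars, List.map_map]
      conv_rhs => rw [← List.map_id V]
      apply List.map_congr_left
      intro i _
      simp [dec_bn]
    have hml := mistakes_of_expert (T := trunc ((S + n + 2) ^ B) orc) (θ := θ) (L := L) h4
      (y := V.map (fun i => Sum.inl (bn i))) (m := Nat.log 2 n + 1)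
      (r := (V.length + S + 2) ^ k) (by
        intro l hl
        obtain ⟨i, hi, hil⟩ := List.mem_map.1 hl
        rw [← Sum.inl.inj hil]
        exact bn_length_log (hVlt i hi)) (by
        rw [hy, hms]
        exact (hIA L h3).1)
    rw [List.length_map] at hml
    exact budget_numeric (by rw [hVlen]; exact hRcard) hml
  have h0 : Inv c θ a B S ((0, []) : ℕ × CL) := by
    refine ⟨Nat.zero_le _, by simp, by intro e he; simp at he, ?_⟩
    simp only [List.length_nil, pow_zero, mul_one]
    exact W_nil _ _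
  obtain ⟨hinv, hcost⟩ := master_run hlast xs (0, []) h0
  set s' := tfinal (mupd (Encodable.encode θ) a B) ((0, []) : ℕ × CL) (cubeRun c xs) with hs'
  obtain ⟨i1, i2, i3, _⟩ := hinv
  have hbpos : 1 ≤ bgt a n S := by
    have h1 : 1 ≤ (S + 2) ^ a := Nat.one_le_pow _ _ (by omega)
    have h2 : 1 ≤ (Nat.log 2 n + 2) ^ a := Nat.one_le_pow _ _ (by omega)
    exact Nat.mul_le_mul h1 h2
  have hL : s'.2.length ≤ bgt a n S := i2.trans (bgt_mono i1)
  constructor
  · -- mistakes
    have h1 : tmistakes (mpred (Encodable.encode θ) B) (mupd (Encodable.encode θ) a B) (0, [])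
        (cubeRun c xs) ≤ S * (bgt a n S + 1) + bgt a n S := by
      have : s'.1 * (bgt a n S + 1) ≤ S * (bgt a n S + 1) := Nat.mul_le_mul_right _ i1
      simp only [zero_mul, List.length_nil, add_zero] at hcost
      omega
    refine h1.trans ?_
    calc S * (bgt a n S + 1) + bgt a n S ≤ (S + 2) ^ 2 * bgt a n S := by nlinarith
      _ = (S + 2) ^ (a + 2) * (Nat.log 2 n + 2) ^ a := by rw [bgt, pow_add]; ring
      _ ≤ _ := Nat.mul_le_mul (Nat.pow_le_pow_right (by omega) (by omega))
        (Nat.pow_le_pow_right (by omega) (by omega))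
  · -- the size of the state
    have h1 : (enc s'.2).size ≤ bgt a n S * (4 * n + 6) + 1 := by
      have h2 : ∀ e ∈ s'.2, (enc e).size ≤ 4 * n + 5 := by
        intro e he
        obtain ⟨x, rfl⟩ := i3 e he
        have h3 := size_enc_var (List.ofFn x)
        have h4 := enc_bool_size_le (c x)
        rw [List.length_ofFn] at h3
        simp only [enc_pair, D.size]
        omega
      refine (size_enc_list_le h2).trans ?_
      exact Nat.add_le_add_right (Nat.mul_le_mul_right _ hL) 1
    have h2 : (enc s').size ≤ bgt a n S * (4 * n + 6) + 2 * S + 3 := by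
      have h3 : (enc s').size = (enc s'.1).size + (enc s'.2).size + 1 := rfl
      rw [h3, size_enc_nat]
      omega
    refine h2.trans ?_
    have hlog : Nat.log 2 n ≤ n := Nat.log_le_self 2 n
    have h3 : bgt a n S ≤ (n + S + 2) ^ (2 * a) := by
      calc bgt a n S ≤ (n + S + 2) ^ a * (n + S + 2) ^ a :=
            Nat.mul_le_mul (Nat.pow_le_pow_left (by omega) a) (Nat.pow_le_pow_left (by omega) a)
        _ = _ := by rw [← pow_add]; congr 1; ring
    have h4 : 4 * n + 6 ≤ (n + S + 2) ^ 3 := by
      have : (n + 2) ^ 3 ≤ (n + S + 2) ^ 3 := Nat.pow_le_pow_left (by omega) 3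
      nlinarith [Nat.zero_le (n * n), Nat.zero_le (n * n * n)]
    have h5 : 2 * S + 3 ≤ (n + S + 2) ^ 2 := by nlinarith [Nat.zero_le (n * S)]
    have h6 := pow_add_pow_le (s := n + S) (a := 2 * a + 3) (b := 2)
    have h7 : bgt a n S * (4 * n + 6) ≤ (n + S + 2) ^ (2 * a + 3) := by
      rw [pow_add]; exact Nat.mul_le_mul h3 h4
    have h8 : (n + S + 2) ^ (2 * a + 3 + 2 + 1) ≤ (n + S + 2) ^ (2 * a + 8) :=
      Nat.pow_le_pow_right (by omega) (by omega)
    omega

end Pool.Agent.Work.MP_8ec85b_lc_or
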