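import Pool.Agent.Work.MP_8ec85b_lc_or.Terms

/-!
Trees and terms are countable.
-/

namespace Pool.Agent.Work.MP_8ec85b_lc_or

open Pool.Agent.Work.MP_8ec85b_lc

deriving instance Encodable for D
deriving instance Encodable for Tm

instance : Inhabited Tm := ⟨Tm.id⟩
instance : Inhabited D := ⟨D.nil⟩

end Pool.Agent.Work.MP_8ec85b_lc_or
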