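import Pool.Agent.Work.MP_8ec85b_lc.Lib

/-!
Relativized notions for MP_8ec85b_lc: polynomial time with an oracle, and the learning models with
an oracle.
-/

namespace Pool.Agent.Work.MP_8ec85b_lc_or

open Pool.Agent.Work.MP_8ec85b_lc

open Classical in
/-- The functions on binary trees computable in polynomial time with the oracle `O`: the function
algebra `PT` with the additional basic function `ask`, which returns the answer of the oracle to
the question `x`. -/
inductive PTO (O : D → Bool) : (D → D) → Prop
  | id : PTO O (fun x => x)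
  | nil : PTO O (fun _ => D.nil)
  | head : PTO O D.head
  | tail : PTO O D.tail
  | cons {f g : D → D} : PTO O f → PTO O g → PTO O (fun x => D.cons (f x) (g x))
  | comp {f g : D → D} : PTO O f → PTO O g → PTO O (fun x => f (g x))
  | eq : PTO O (fun x => if x.head = x.tail then D.cons D.nil D.nil else D.nil)
  | ite {c f g : D → D} : PTO O c → PTO O f → PTO O g →
      PTO O (fun x => if c x = D.nil then g x else f x)
  | brec {f g l : D → D} (k : ℕ) : PTO O f → PTO O g → PTO O l →
      PTO O (fun x => D.brec ((x.size + 2) ^ k) f (g x) x (l x))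
  | ask : PTO O (fun x => enc (O x))

/-- `f` is computable in polynomial time with the oracle `O`. -/
def PolyO (O : D → Bool) {α β : Type} [Enc α] [Enc β] (f : α → β) : Prop :=
  ∃ F : D → D, PTO O F ∧ ∀ a, F (enc a) = enc (f a)

/-- Predictions and updates take polynomial time with the oracle `O`. -/
def FeasibleO (O : D → Bool) {X : Type} [Enc X] (A : Learner X) : Prop :=
  PolyO O (fun q : D × X => A.pred q.1 q.2) ∧
  PolyO O (fun q : D × (X × Bool) => A.upd q.1 q.2.1 q.2.2)

/-- Attribute-efficiently learnable with the oracle `O`. -/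
def AELearnableO (O : D → Bool) (C : ConceptClass) : Prop :=
  ∃ A : Learner (List Bool), FeasibleO O A ∧ ∃ k : ℕ,
    ∀ (n : ℕ) (c : (Fin n → Bool) → Bool), C.mem n c → ∀ xs : List (Fin n → Bool),
      A.mistakes A.init (cubeRun c xs) ≤ (C.size n c + 2) ^ k * (Nat.log 2 n + 2) ^ k ∧
      (A.final A.init (cubeRun c xs)).size ≤ (n + C.size n c + 2) ^ k

/-- Learnable in the infinite-attribute model with the oracle `O`. -/
def IALearnableO (O : D → Bool) (C : ConceptClass) : Prop :=
  ∃ A : Learner (List Var), FeasibleO O A ∧ ∃ k : ℕ,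
    ∀ (n : ℕ) (c : (Fin n → Bool) → Bool), C.mem n c →
    ∀ v : Fin n → Var, Function.Injective v →
    ∀ (xs : List (List Var)) (N L : ℕ),
      (∀ x ∈ xs, x.Nodup ∧ x.length ≤ N ∧ (enc x).size ≤ L) →
      A.mistakes A.init (infRun c v xs) ≤ (N + C.size n c + 2) ^ k ∧
      (A.final A.init (infRun c v xs)).size ≤ (L + C.size n c + 2) ^ k

end Pool.Agent.Work.MP_8ec85b_lc_or
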