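import Mathlib

/-!
A design: few columns show a prescribed pattern in given rows. Two avoidance lemmas.
-/

namespace Pool.Agent.Work.MP_8ec85b_lc_or

/-- The leading bit of a residue. -/
def bit {p : ℕ} (v : ZMod p) : Bool := decide (v.val < (p + 1) / 2)

/-- The value at `j` of the polynomial with coefficients `c`. -/
def ev {p t : ℕ} (c : Fin t → ZMod p) (j : ZMod p) : ZMod p := ∑ i : Fin t, j ^ (i : ℕ) * c i

theorem card_bit {p : ℕ} [NeZero p] (b : Bool) :
    (Finset.univ.filter (fun v : ZMod p => bit v = b)).card ≤ (p + 1) / 2 := by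
  classical
  have hinj : Function.Injective (fun v : ZMod p => v.val) := ZMod.val_injective p
  cases b with
  | true =>
    calc (Finset.univ.filter (fun v : ZMod p => bit v = true)).card =
          ((Finset.univ.filter (fun v : ZMod p => bit v = true)).image (fun v => v.val)).card :=
          (Finset.card_image_of_injective _ hinj).symm
      _ ≤ (Finset.range ((p + 1) / 2)).card := by
          apply Finset.card_le_card
          intro m hm
          obtain ⟨v, hv, rfl⟩ := Finset.mem_image.1 hm
          simpa [bit] using hv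
      _ = _ := by simp
  | false =>
    calc (Finset.univ.filter (fun v : ZMod p => bit v = false)).card =
          ((Finset.univ.filter (fun v : ZMod p => bit v = false)).image (fun v => v.val)).card :=
          (Finset.card_image_of_injective _ hinj).symm
      _ ≤ (Finset.Ico ((p + 1) / 2) p).card := by
          apply Finset.card_le_card
          intro m hm
          obtain ⟨v, hv, rfl⟩ := Finset.mem_image.1 hm
          have h1 : (p + 1) / 2 ≤ v.val := by simpa [bit] using hv
          exact Finset.mem_Ico.2 ⟨h1, ZMod.val_lt v⟩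
      _ = p - (p + 1) / 2 := by simp
      _ ≤ _ := by omega

theorem ev_injective {p t : ℕ} [Fact p.Prime] {v : Fin t → ZMod p} (hv : Function.Injective v) :
    Function.Injective (fun (c : Fin t → ZMod p) (l : Fin t) => ev c (v l)) := by
  intro c c' h
  have hdet : (Matrix.vandermonde v).det ≠ 0 := Matrix.det_vandermonde_ne_zero_iff.2 hv
  have h0 : (Matrix.vandermonde v).mulVec (c - c') = 0 := by
    rw [Matrix.mulVec_sub]
    funext l
    have := congrFun h l
    simp only [ev] at this
    simp only [Matrix.mulVec, dotProduct, Matrix.vandermonde_apply, Pi.sub_apply, Pi.zero_apply]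
    rw [this, sub_self]
  have := Matrix.eq_zero_of_mulVec_eq_zero hdet h0
  exact sub_eq_zero.1 this

theorem card_col {p t : ℕ} [Fact p.Prime] {v : Fin t → ZMod p} (hv : Function.Injective v)
    (B : Fin t → Bool) :
    (Finset.univ.filter (fun c : Fin t → ZMod p => ∀ l, bit (ev c (v l)) = B l)).card ≤
      ((p + 1) / 2) ^ t := by
  classical
  have : NeZero p := ⟨(Fact.out : p.Prime).ne_zero⟩
  calc (Finset.univ.filter (fun c : Fin t → ZMod p => ∀ l, bit (ev c (v l)) = B l)).card ≤
        (Fintype.piFinset (fun l : Fin t =>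
          Finset.univ.filter (fun u : ZMod p => bit u = B l))).card := by
        apply Finset.card_le_card_of_injOn (fun c l => ev c (v l))
        · intro c hc
          have hc' : ∀ l, bit (ev c (v l)) = B l := by simpa using hc
          simp only [Finset.mem_coe, Fintype.mem_piFinset, Finset.mem_filter, Finset.mem_univ,
            true_and]
          exact hc'
        · exact (ev_injective hv).injOn
    _ = ∏ l : Fin t, (Finset.univ.filter (fun u : ZMod p => bit u = B l)).card :=
        Fintype.card_piFinset _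
    _ ≤ ∏ _l : Fin t, ((p + 1) / 2) := Finset.prod_le_prod' fun l _ => card_bit _
    _ = _ := by simp

theorem ev_add {p t : ℕ} (c d : Fin t → ZMod p) (j : ZMod p) : ev (c + d) j = ev c j + ev d j := by
  simp only [ev, Pi.add_apply, mul_add, Finset.sum_add_distrib]

/-- The polynomial `a (X - j)`. -/
def lin {p t : ℕ} (ht : 2 ≤ t) (j a : ZMod p) : Fin t → ZMod p :=
  Pi.single ⟨0, by omega⟩ (- j * a) + Pi.single ⟨1, by omega⟩ a

theorem ev_single {p t : ℕ} (i : Fin t) (a x : ZMod p) :
    ev (Pi.single i a) x = x ^ (i : ℕ) * a := by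
  simp only [ev]
  rw [Finset.sum_eq_single i]
  · simp
  · intro b _ hb
    simp [hb]
  · simp

theorem ev_lin {p t : ℕ} (ht : 2 ≤ t) (j a x : ZMod p) : ev (lin ht j a) x = (x - j) * a := by
  simp only [lin, ev_add, ev_single]
  simp
  ring

theorem card_agree {p t : ℕ} [Fact p.Prime] (ht : 2 ≤ t) {j j' : ZMod p} (h : j ≠ j') :
    p * (Finset.univ.filter (fun c : Fin t → ZMod p => bit (ev c j) = bit (ev c j'))).card ≤
      (p + 1) / 2 * p ^ t := by
  classical
  have : NeZero p := ⟨(Fact.out : p.Prime).ne_zero⟩
  let ind : (Fin t → ZMod p) → ℕ := fun c => if bit (ev c j) = bit (ev c j') then 1 else 0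
  have h1 : (Finset.univ.filter (fun c : Fin t → ZMod p => bit (ev c j) = bit (ev c j'))).card =
      ∑ c, ind c := by
    rw [Finset.card_filter]
  have h2 : ∀ a : ZMod p, ∑ c, ind (c + lin ht j a) = ∑ c, ind c := fun a =>
    Equiv.sum_comp (Equiv.addRight (lin ht j a)) ind
  have h3 : p * ∑ c, ind c = ∑ a : ZMod p, ∑ c, ind (c + lin ht j a) := by
    simp only [h2, Finset.sum_const, Finset.card_univ, ZMod.card, smul_eq_mul]
  have h4 : ∀ c : Fin t → ZMod p, ∑ a : ZMod p, ind (c + lin ht j a) ≤ (p + 1) / 2 := by
    intro c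
    have e1 : ∀ a, ind (c + lin ht j a) =
        if bit (ev c j' + (j' - j) * a) = bit (ev c j) then 1 else 0 := by
      intro a
      simp only [ind, ev_add, ev_lin, sub_self, zero_mul, add_zero]
      by_cases hh : bit (ev c j) = bit (ev c j' + (j' - j) * a)
      · simp [hh]
      · simp [hh, Ne.symm hh]
    have hne : j' - j ≠ 0 := sub_ne_zero.2 (Ne.symm h)
    let E : ZMod p ≃ ZMod p := (Equiv.mulLeft₀ (j' - j) hne).trans (Equiv.addLeft (ev c j'))
    have e2 : ∀ a, ind (c + lin ht j a) =
        (fun u : ZMod p => if bit u = bit (ev c j) then 1 else 0) (E a) := by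
      intro a
      rw [e1]
      rfl
    simp only [e2]
    rw [Equiv.sum_comp E (fun u : ZMod p => if bit u = bit (ev c j) then 1 else 0)]
    rw [← Finset.card_filter]
    exact card_bit _
  rw [h1, h3, Finset.sum_comm]
  calc ∑ c, ∑ a : ZMod p, ind (c + lin ht j a) ≤ ∑ _c : Fin t → ZMod p, (p + 1) / 2 :=
        Finset.sum_le_sum fun c _ => h4 c
    _ = (p + 1) / 2 * p ^ t := by simp [mul_comm]

/-- A function which violates every one of not too many lists of many prescribed values. -/
theorem avoid_functions {α ι : Type} [DecidableEq α] (V : Finset α) :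
    ∀ (I : Finset ι) (A : ι → Finset α) (f : ι → α → Bool), (∀ i ∈ I, A i ⊆ V) →
      ∑ i ∈ I, (1 / 2 : ℚ) ^ (A i).card < 1 → ∃ g : α → Bool, ∀ i ∈ I, ∃ a ∈ A i, g a ≠ f i a := by
  classical
  induction V using Finset.induction_on with
  | empty =>
    intro I A f hA hs
    have : I = ∅ := by
      by_contra hne
      obtain ⟨i, hi⟩ := Finset.nonempty_iff_ne_empty.2 hne
      have h1 : (1 / 2 : ℚ) ^ (A i).card ≤ ∑ i ∈ I, (1 / 2 : ℚ) ^ (A i).card :=
        Finset.single_le_sum (f := fun i => (1 / 2 : ℚ) ^ (A i).card)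
          (fun _ _ => by positivity) hi
      have h2 : A i = ∅ := Finset.subset_empty.1 (hA i hi)
      rw [h2] at h1
      simp only [Finset.card_empty, pow_zero] at h1
      linarith
    exact ⟨fun _ => false, by simp [this]⟩
  | insert a V ha ih =>
    intro I A f hA hs
    -- the constraints which survive the choice of the value `v` at `a`
    let J : Bool → Finset ι := fun v => I.filter (fun i => ¬ (a ∈ A i ∧ f i a ≠ v))
    have hsum : ∑ i ∈ J true, (1 / 2 : ℚ) ^ ((A i).erase a).card +
        ∑ i ∈ J false, (1 / 2 : ℚ) ^ ((A i).erase a).card =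
        2 * ∑ i ∈ I, (1 / 2 : ℚ) ^ (A i).card := by
      simp only [J, Finset.sum_filter]
      rw [← Finset.sum_add_distrib, Finset.mul_sum]
      apply Finset.sum_congr rfl
      intro i _
      by_cases hi : a ∈ A i
      · have hc : (A i).card = ((A i).erase a).card + 1 := by
          rw [Finset.card_erase_of_mem hi]
          have := Finset.card_pos.2 ⟨a, hi⟩
          omega
        rw [hc, pow_succ]
        cases hf : f i a <;> simp [hi, hf] <;> ring
      · have : (A i).erase a = A i := Finset.erase_eq_of_notMem hi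
        rw [this]
        simp [hi]
        ring
    have hch : ∃ v, ∑ i ∈ J v, (1 / 2 : ℚ) ^ ((A i).erase a).card < 1 := by
      by_contra hcon
      push Not at hcon
      have h1 := hcon true
      have h2 := hcon false
      linarith
    obtain ⟨v, hv⟩ := hch
    obtain ⟨g, hg⟩ := ih (J v) (fun i => (A i).erase a) f (by
      intro i hi
      have hi' := hA i (Finset.mem_filter.1 hi).1
      intro b hb
      have hb' := Finset.mem_erase.1 hb
      rcases Finset.mem_insert.1 (hi' hb'.2) with h | h
      · exact absurd h hb'.1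
      · exact h) hv
    refine ⟨Function.update g a v, fun i hi => ?_⟩
    by_cases hi' : a ∈ A i ∧ f i a ≠ v
    · exact ⟨a, hi'.1, by simp; exact fun h => hi'.2 h.symm⟩
    · obtain ⟨b, hb, hb'⟩ := hg i (Finset.mem_filter.2 ⟨hi, hi'⟩)
      have hb'' := Finset.mem_erase.1 hb
      exact ⟨b, hb''.2, by simpa [Function.update_of_ne hb''.1] using hb'⟩

theorem avoid_functions' {α ι : Type} [DecidableEq α] {I : Finset ι} {A : ι → Finset α}
    {f : ι → α → Bool} {T : ℕ} (hA : ∀ i ∈ I, T ≤ (A i).card) (hI : I.card < 2 ^ T) :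
    ∃ g : α → Bool, ∀ i ∈ I, ∃ a ∈ A i, g a ≠ f i a := by
  apply avoid_functions (I.biUnion A) I A f (fun i hi => Finset.subset_biUnion_of_mem A hi)
  calc ∑ i ∈ I, (1 / 2 : ℚ) ^ (A i).card ≤ ∑ _i ∈ I, (1 / 2 : ℚ) ^ T :=
        Finset.sum_le_sum fun i hi => pow_le_pow_of_le_one (by norm_num) (by norm_num) (hA i hi)
    _ = I.card * (1 / 2 : ℚ) ^ T := by simp
    _ < 2 ^ T * (1 / 2 : ℚ) ^ T := by
        apply mul_lt_mul_of_pos_right _ (by positivity)
        exact_mod_cast hI
    _ = 1 := by rw [← mul_pow]; norm_num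

/-- A tuple outside of not too large boxes. -/
theorem avoid_boxes {κ ι : Type} [Fintype κ] [DecidableEq κ] {s : ℕ} (I : Finset ι)
    (C : ι → Fin s → Finset κ)
    (h : ∑ i ∈ I, ∏ l, (C i l).card < Fintype.card κ ^ s) :
    ∃ S : Fin s → κ, ∀ i ∈ I, ∃ l, S l ∉ C i l := by
  classical
  by_contra hcon
  push Not at hcon
  have h1 : (Finset.univ : Finset (Fin s → κ)) ⊆ I.biUnion (fun i => Fintype.piFinset (C i)) := by
    intro S _
    obtain ⟨i, hi, hS⟩ := hcon S
    exact Finset.mem_biUnion.2 ⟨i, hi, Fintype.mem_piFinset.2 hS⟩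
  have h2 := Finset.card_le_card h1
  have h3 : (Finset.univ : Finset (Fin s → κ)).card = Fintype.card κ ^ s := by
    rw [Finset.card_univ, Fintype.card_pi]
    simp
  have h4 : (I.biUnion (fun i => Fintype.piFinset (C i))).card ≤
      ∑ i ∈ I, ∏ l, (C i l).card := by
    refine Finset.card_biUnion_le.trans ?_
    apply Finset.sum_le_sum
    intro i _
    rw [Fintype.card_piFinset]
  omega

end Pool.Agent.Work.MP_8ec85b_lc_or
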