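import Pool.Agent.Work.MP_8ec85b_lc_or.Cls

/-!
The class of a family of rows is learnable in the infinite-attribute model with the oracle of the
family.
-/

namespace Pool.Agent.Work.MP_8ec85b_lc_or

open Pool.Agent.Work.MP_8ec85b_lc
open scoped ENNReal

/-- The learner: its state is the list of all mistakes, the prediction is the vote of the
oracle. -/
noncomputable def learner (G : Rows) : Learner (List Var) where
  init := D.nil
  pred d w := oracle G (D.cons d (enc w))
  upd d w b := if oracle G (D.cons d (enc w)) = b then d else D.cons (enc (w, b)) d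

open Classical in
theorem learner_feasible (G : Rows) : FeasibleO (oracle G) (learner G) := by
  constructor
  · exact ⟨_, PTO.ask, fun a => rfl⟩
  · refine ⟨_, PTO.ite (O := oracle G) (PTO.comp PTO.eq (PTO.cons
      (PTO.comp PTO.ask (PTO.cons PTO.head (PTO.comp PTO.head PTO.tail)))
      (PTO.comp PTO.tail PTO.tail))) PTO.head (PTO.cons PTO.tail PTO.head), ?_⟩
    rintro ⟨d, w, b⟩
    show (if (if enc (oracle G (D.cons d (enc w))) = enc b then D.cons D.nil D.nil else D.nil) =
      D.nil then D.cons (D.cons (enc w) (enc b)) d else d) =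
      (if oracle G (D.cons d (enc w)) = b then d else D.cons (D.cons (enc w) (enc b)) d)
    by_cases h : oracle G (D.cons d (enc w)) = b
    · simp [h]
    · have : enc (oracle G (D.cons d (enc w))) ≠ enc b := fun h' => h (enc_bool_inj h')
      simp [h, this]

theorem learner_run (G : Rows) (f : List Var → Bool) (xs : List (List Var)) :
    ∀ L : List Ex, ∃ L' : List Ex,
      (learner G).final (enc L) (xs.map (fun x => (x, f x))) = enc L' ∧
      L'.length = L.length + (learner G).mistakes (enc L) (xs.map (fun x => (x, f x))) ∧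
      (∀ e ∈ L', e ∈ L ∨ ∃ x ∈ xs, e = (x, f x)) ∧
      F G L' * 2 ^ L'.length ≤ F G L * 2 ^ L.length := by
  induction xs with
  | nil => intro L; exact ⟨L, rfl, rfl, fun e he => Or.inl he, le_rfl⟩
  | cons x xs ih =>
    intro L
    by_cases h : oracle G (D.cons (enc L) (enc x)) = f x
    · obtain ⟨L', h1, h2, h3, h4⟩ := ih L
      refine ⟨L', ?_, ?_, ?_, h4⟩
      · simpa [Learner.final, learner, h] using h1
      · simpa [Learner.mistakes, learner, h] using h2
      · intro e he
        rcases h3 e he with h | ⟨y, hy, rfl⟩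
        · exact Or.inl h
        · exact Or.inr ⟨y, List.mem_cons_of_mem _ hy, rfl⟩
    · obtain ⟨L', h1, h2, h3, h4⟩ := ih ((x, f x) :: L)
      have e1 : D.cons (enc (x, f x)) (enc L) = enc ((x, f x) :: L) := rfl
      refine ⟨L', ?_, ?_, ?_, ?_⟩
      · simpa [Learner.final, learner, h, e1] using h1
      · rw [h2]
        simp only [List.map_cons, Learner.mistakes, List.length_cons]
        simp [learner, h, e1]
        omega
      · intro e he
        rcases h3 e he with h | ⟨y, hy, rfl⟩
        · rcases List.mem_cons.1 h with rfl | h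
          · exact Or.inr ⟨x, by simp, rfl⟩
          · exact Or.inl h
        · exact Or.inr ⟨y, List.mem_cons_of_mem _ hy, rfl⟩
      · refine h4.trans ?_
        rw [List.length_cons, pow_succ, mul_comm (2 ^ L.length) 2, ← mul_assoc]
        gcongr
        exact F_mistake G L x (f x) h

theorem names_prefix {Λ L : List Ex} (h : Λ <:+ L) : names Λ <+: names L := by
  induction L with
  | nil => rw [List.suffix_nil.1 h]
  | cons e L ih =>
    rcases List.suffix_cons_iff.1 h with rfl | h
    · exact List.prefix_rfl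
    · exact (ih h).trans (List.prefix_append _ _)

theorem mem_pats {z : List Crd} {L : List Ex} {q : List Bool × Bool} :
    q ∈ pats z L ↔ ∃ e Λ, (e :: Λ) <:+ L ∧ q = (z.map (val Λ e.1), e.2) := by
  induction L with
  | nil => simp [pats]
  | cons e L ih =>
    simp only [pats, List.mem_cons, ih]
    constructor
    · rintro (h | ⟨e', Λ, h, h'⟩)
      · exact ⟨e, L, List.suffix_rfl, h⟩
      · exact ⟨e', Λ, h.trans (List.suffix_cons _ _), h'⟩
    · rintro ⟨e', Λ, h, h'⟩
      rcases List.suffix_cons_iff.1 h with h | h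
      · left
        simp only [List.cons.injEq] at h
        obtain ⟨rfl, rfl⟩ := h
        exact h'
      · exact Or.inr ⟨e', Λ, h, h'⟩

theorem names_length_le {L : List Ex} {N : ℕ} (h : ∀ e ∈ L, e.1.length ≤ N) :
    (names L).length ≤ L.length * N := by
  induction L with
  | nil => simp [names]
  | cons e L ih =>
    simp only [names, List.length_append, List.length_cons]
    have h1 := h e (by simp)
    have h2 := ih (fun e he => h e (by simp [he]))
    rw [Nat.succ_mul]; omega

/-- The hypothesis of the target. -/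
theorem target_hyp {n : ℕ} (v : Fin n → Var) (L : List Ex) (z : List (Fin n ⊕ Bool)) :
    ∃ y : List (List Bool ⊕ Bool), y.length = z.length ∧
      (∀ l, Sum.inl l ∈ y → l.length ≤ Nat.sqrt (4 * (names L).length)) ∧
      ∀ e Λ, (e :: Λ) <:+ L → (y.map conv).map (val Λ e.1) =
        z.map (Sum.elim (fun i => decide (v i ∈ e.1)) id) := by
  classical
  have key : ∀ a : Fin n ⊕ Bool, ∃ b : List Bool ⊕ Bool,
      (∀ l, b = Sum.inl l → l.length ≤ Nat.sqrt (4 * (names L).length)) ∧
      ∀ e Λ, (e :: Λ) <:+ L → val Λ e.1 (conv b) =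
        Sum.elim (fun i => decide (v i ∈ e.1)) id a := by
    rintro (i | b)
    · by_cases h : v i ∈ names L
      · obtain ⟨l, h1, h2⟩ := dec_surj' (List.idxOf_lt_length_of_mem h)
        refine ⟨Sum.inl l, fun l' hl' => by cases hl'; exact h2, fun e Λ hs => ?_⟩
        simp only [conv, Sum.elim_inl, h1, val]
        have hpre : names Λ ++ e.1 <+: names L := names_prefix hs
        obtain ⟨t, ht⟩ := hpre
        rcases Nat.lt_or_ge (List.idxOf (v i) (names L)) (names Λ ++ e.1).length with hlt | hge
        · have : (names Λ ++ e.1)[List.idxOf (v i) (names L)]? = some (v i) := by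
            rw [← List.getElem?_append_left (l₂ := t) hlt, ht]
            rw [List.getElem?_eq_getElem (List.idxOf_lt_length_of_mem h)]
            simp
          rw [this]
        · rw [List.getElem?_eq_none hge]
          have : v i ∉ e.1 := by
            intro hmem
            have hmem' : v i ∈ names Λ ++ e.1 := List.mem_append_right _ hmem
            have := List.idxOf_lt_length_of_mem hmem'
            have h3 : List.idxOf (v i) (names L) = List.idxOf (v i) (names Λ ++ e.1) := by
              rw [← ht, List.idxOf_append_of_mem hmem']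
            omega
          simp [this]
      · refine ⟨Sum.inr false, fun l hl => by simp at hl, fun e Λ hs => ?_⟩
        have : v i ∉ e.1 := by
          intro hmem
          exact h ((names_prefix hs).subset (List.mem_append_right _ hmem))
        simp [conv, val, this]
    · exact ⟨Sum.inr b, fun l hl => by simp at hl, fun e Λ _ => rfl⟩
  choose p hp1 hp2 using key
  refine ⟨z.map p, by simp, ?_, ?_⟩
  · intro l hl
    obtain ⟨a, _, ha⟩ := List.mem_map.1 hl
    exact hp1 a l ha
  · intro e Λ hs
    rw [List.map_map, List.map_map]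
    apply List.map_congr_left
    intro a _
    exact hp2 a e Λ hs

theorem mistake_numeric {M N s R : ℕ} (hR : R ≤ M * N)
    (hM : M ≤ (3 + 2 * Nat.sqrt (4 * R)) * s + ((s + 1) ^ 2 + Nat.sqrt R) + 1) :
    M ≤ (N + s + 2) ^ 12 := by
  have h1 : Nat.sqrt (4 * R) ≤ 2 * Nat.sqrt R + 2 := by
    have h2 : R < (Nat.sqrt R + 1) ^ 2 := Nat.lt_succ_sqrt' R
    have h3 : 4 * R ≤ (2 * Nat.sqrt R + 2) ^ 2 := by nlinarith
    calc Nat.sqrt (4 * R) ≤ Nat.sqrt ((2 * Nat.sqrt R + 2) ^ 2) := Nat.sqrt_le_sqrt h3
      _ = _ := Nat.sqrt_eq' _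
  set r := Nat.sqrt R with hr
  have h2 : r ^ 2 ≤ R := Nat.sqrt_le' R
  have h3 : M ≤ 8 * (r + 1) * (s + 2) ^ 2 := by
    have : (3 + 2 * Nat.sqrt (4 * R)) * s ≤ (3 + 2 * (2 * r + 2)) * s :=
      Nat.mul_le_mul_right _ (by omega)
    nlinarith [Nat.zero_le (r * s), Nat.zero_le (r * s * s)]
  have h4 : M * M ≤ M * (128 * (N + 1) * (s + 2) ^ 4) := by
    rcases Nat.eq_zero_or_pos M with h0 | h0
    · simp [h0]
    · calc M * M ≤ (8 * (r + 1) * (s + 2) ^ 2) * (8 * (r + 1) * (s + 2) ^ 2) :=
            Nat.mul_le_mul h3 h3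
        _ = 64 * (s + 2) ^ 4 * (r + 1) ^ 2 := by ring
        _ ≤ 64 * (s + 2) ^ 4 * (2 * (M * N) + 2 * M) := by
            apply Nat.mul_le_mul_left
            nlinarith [sq_nonneg ((r : ℤ) - 1)]
        _ = _ := by ring
  have h5 : M ≤ 128 * (N + 1) * (s + 2) ^ 4 := by
    rcases Nat.eq_zero_or_pos M with h0 | h0
    · simp [h0]
    · exact Nat.le_of_mul_le_mul_left h4 h0
  calc M ≤ 128 * (N + 1) * (s + 2) ^ 4 := h5
    _ ≤ (N + s + 2) ^ 7 * (N + s + 2) ^ 1 * (N + s + 2) ^ 4 := by
        apply Nat.mul_le_mul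
        · apply Nat.mul_le_mul
          · calc 128 = 2 ^ 7 := by norm_num
              _ ≤ _ := Nat.pow_le_pow_left (by omega) 7
          · simp; omega
        · exact Nat.pow_le_pow_left (by omega) 4
    _ = _ := by ring

theorem ia_bound (G : Rows) {n : ℕ} {c : (Fin n → Bool) → Bool} (hc : (cls G).mem n c)
    (v : Fin n → Var) (xs : List (List Var)) (N : ℕ) (hx : ∀ x ∈ xs, x.length ≤ N)
    {L : List Ex}
    (hL : ∀ e ∈ L, ∃ x ∈ xs, e = (x, c (fun i => decide (v i ∈ x))))
    (hF : F G L * 2 ^ L.length ≤ 2) : L.length ≤ (N + (cls G).size n c + 2) ^ 12 := by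
  obtain ⟨z, ⟨g, hg, hz⟩, hs⟩ := cls_exists hc
  obtain ⟨y, hy1, hy2, hy3⟩ := target_hyp v L z
  rw [← hs]
  have hcon : ∀ q ∈ pats (y.map conv) L, g q.1 = q.2 := by
    intro q hq
    obtain ⟨e, Λ, h1, rfl⟩ := mem_pats.1 hq
    obtain ⟨x, _, hx2⟩ := hL e (h1.subset (by simp))
    simp only
    rw [hy3 e Λ h1, ← hz, hx2]
  have hP : (2⁻¹) ^ (thr z.length L) ≤ P G (y.map conv) L := by
    have := P_ge (G := G) (z := y.map conv) (g := g) (by simpa [hy1] using hg) hcon
    simpa [hy1] using this
  have hW := wt_ge hy2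
  rw [hy1] at hW
  have hFle : (2⁻¹ : ℝ≥0∞) ^ ((3 + 2 * Nat.sqrt (4 * (names L).length)) * z.length +
      thr z.length L) ≤ F G L := by
    rw [pow_add]
    calc _ ≤ wt y * P G (y.map conv) L := by gcongr
      _ ≤ F G L := ENNReal.le_tsum y
  set a := (3 + 2 * Nat.sqrt (4 * (names L).length)) * z.length + thr z.length L with ha
  have hM : L.length ≤ a + 1 := by
    by_contra hlt
    push Not at hlt
    have h1 : (1 : ℝ≥0∞) ≤ F G L * 2 ^ a := by
      calc (1 : ℝ≥0∞) = (2⁻¹) ^ a * 2 ^ a := by
            rw [← mul_pow, ENNReal.inv_mul_cancel (by norm_num) (by norm_num), one_pow]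
        _ ≤ _ := by gcongr
    have h2 : (4 : ℝ≥0∞) ≤ F G L * 2 ^ L.length := by
      obtain ⟨d, hd⟩ := Nat.exists_eq_add_of_le (show a + 2 ≤ L.length by omega)
      rw [hd, pow_add, pow_add]
      calc (4 : ℝ≥0∞) = 1 * 2 ^ 2 * 1 := by norm_num
        _ ≤ F G L * 2 ^ a * 2 ^ 2 * 2 ^ d := by
            gcongr
            exact one_le_pow₀ (by norm_num)
        _ = _ := by ring
    have := h2.trans hF
    norm_num at this
  have hR := names_length_le (L := L) (N := N) (fun e he => by
    obtain ⟨x, hx1, hx2⟩ := hL e he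
    rw [hx2]; exact hx x hx1)
  exact mistake_numeric hR (by simpa [ha, thr, Nat.add_assoc] using hM)

theorem ia_learnable (G : Rows) : IALearnableO (oracle G) (cls G) := by
  refine ⟨learner G, learner_feasible G, 16, ?_⟩
  intro n c hc v _ xs N L hx
  obtain ⟨L', h1, h2, h3, h4⟩ := learner_run G (fun x => c (fun i => decide (v i ∈ x))) xs []
  have hL : ∀ e ∈ L', ∃ x ∈ xs, e = (x, c (fun i => decide (v i ∈ x))) := by
    intro e he
    rcases h3 e he with h | h
    · simp at h
    · exact h
  have hF : F G L' * 2 ^ L'.length ≤ 2 := by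
    refine h4.trans ?_
    simpa using F_nil G
  have hN := ia_bound G hc v xs N (fun x h => (hx x h).2.1) hL hF
  have hN' := ia_bound G hc v xs L (fun x h => by
    have := length_le_size_enc x
    have := (hx x h).2.2
    omega) hL hF
  simp only [List.length_nil, zero_add] at h2
  have e0 : (learner G).init = enc ([] : List Ex) := rfl
  have e1 : infRun c v xs = xs.map (fun x => (x, c (fun i => decide (v i ∈ x)))) := rfl
  rw [e0, e1, h1, ← h2]
  refine ⟨hN.trans (Nat.pow_le_pow_right (by omega) (by norm_num)), ?_⟩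
  have h5 : ∀ e ∈ L', (enc e).size ≤ L + 4 := by
    rintro ⟨w, b⟩ he
    obtain ⟨x, hx1, hx2⟩ := hL _ he
    have := (hx x hx1).2.2
    simp only [Prod.mk.injEq] at hx2
    obtain ⟨rfl, _⟩ := hx2
    have := enc_bool_size_le b
    simp only [enc_pair, D.size]; omega
  refine (size_enc_list_le h5).trans ?_
  set S := L + (cls G).size n c + 2 with hS
  have h6 : L + 4 + 1 ≤ S ^ 3 := by
    have : (L + 2) ^ 3 ≤ S ^ 3 := Nat.pow_le_pow_left (by omega) 3
    nlinarith [Nat.zero_le (L * L), Nat.zero_le (L * L * L)]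
  have h7 : 1 ≤ S ^ 15 := Nat.one_le_pow _ _ (by omega)
  calc L'.length * (L + 4 + 1) + 1 ≤ S ^ 12 * S ^ 3 + 1 := by
        exact Nat.add_le_add_right (Nat.mul_le_mul hN' h6) 1
    _ = S ^ 15 + 1 := by rw [← pow_add]
    _ ≤ S ^ 15 * 2 := by omega
    _ ≤ S ^ 15 * S := Nat.mul_le_mul_left _ (by omega)
    _ = S ^ 16 := by rw [← pow_succ]

end Pool.Agent.Work.MP_8ec85b_lc_or
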