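import Pool.Agent.Work.MP_8ec85b_lc_or.Defs
import Pool.Agent.Work.MP_8ec85b_lc.Lib2

/-!
Closure properties of the polynomial-time functions with an oracle, arithmetic in unary, and
learners with typed states.
-/

namespace Pool.Agent.Work.MP_8ec85b_lc

section
variable {α β : Type} [Enc α] [Enc β]

theorem Poly.toList {f : α → ℕ} (hf : Poly f) : Poly (fun a => List.replicate (f a) ()) := by
  obtain ⟨F, hF, h⟩ := hf
  exact ⟨F, hF, fun a => by rw [h]; rfl⟩

theorem Poly.ofList {f : α → ℕ} (hf : Poly (fun a => List.replicate (f a) ())) : Poly f := by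
  obtain ⟨F, hF, h⟩ := hf
  exact ⟨F, hF, fun a => by rw [h]; rfl⟩

theorem Poly.length {l : α → List β} (hl : Poly l) : Poly (fun a => (l a).length) := by
  apply Poly.ofList
  have := Poly.map (f := fun (_ : α) (_ : β) => ()) hl ⟨_, PT.nil, fun _ => rfl⟩
  refine cast (congrArg _ ?_) this
  funext a
  simp [List.map_const']

theorem Poly.add {f g : α → ℕ} (hf : Poly f) (hg : Poly g) : Poly (fun a => f a + g a) := by
  apply Poly.ofList
  have := Poly.append hf.toList hg.toList
  refine cast (congrArg _ ?_) this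
  funext a
  exact (List.replicate_add (f a) (g a) ()).symm

theorem enc_replicate_unit (m : ℕ) : (enc (List.replicate m ())).size = 2 * m + 1 :=
  size_enc_nat m

theorem Poly.mul {f g : α → ℕ} (hf : Poly f) (hg : Poly g) : Poly (fun a => f a * g a) := by
  apply Poly.ofList
  obtain ⟨k, hk⟩ := Poly.bound hf
  obtain ⟨m, hm⟩ := Poly.bound hg
  have key : ∀ (a : α) (t : List Unit), t.foldr (fun _ c => List.replicate (g a) () ++ c) [] =
      List.replicate (t.length * g a) () := by
    intro a t
    induction t with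
    | nil => simp
    | cons b t ih =>
      rw [List.foldr_cons, ih, ← List.replicate_add, List.length_cons, Nat.succ_mul, Nat.add_comm]
  have := Poly.foldr (l := fun a => List.replicate (f a) ()) (g := fun _ : α => ([] : List Unit))
    (f := fun (_ : Unit) c a => List.replicate (g a) () ++ c)
    (Poly.append (Poly.comp hg.toList (Poly.snd (Poly.snd Poly.id')))
      (Poly.fst (Poly.snd Poly.id')))
    (Poly.const []) hf.toList
    ⟨k + m, fun a t ht => by
      rw [key, enc_replicate_unit]
      have h1 : t.length ≤ f a := by simpa using ht.length_le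
      have h2 := hk a
      have h3 := hm a
      rw [size_enc_nat] at h2 h3
      have h4 : t.length * g a ≤ f a * g a := Nat.mul_le_mul_right _ h1
      have h5 : (2 * f a + 1) * (2 * g a + 1) ≤ ((enc a).size + 2) ^ (k + m) := by
        rw [pow_add]; exact Nat.mul_le_mul h2 h3
      nlinarith⟩
  refine cast (congrArg _ ?_) this
  funext a
  rw [key]
  simp

theorem Poly.pow {f : α → ℕ} (hf : Poly f) (k : ℕ) : Poly (fun a => f a ^ k) := by
  induction k with
  | zero =>
    simp only [pow_zero]
    exact Poly.const 1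
  | succ k ih =>
    simp only [pow_succ]
    exact Poly.mul ih hf

end

end Pool.Agent.Work.MP_8ec85b_lc

namespace Pool.Agent.Work.MP_8ec85b_lc_or

open Pool.Agent.Work.MP_8ec85b_lc

theorem PTO.ofPT {O : D → Bool} {f : D → D} (h : PT f) : PTO O f := by
  induction h with
  | id => exact PTO.id
  | nil => exact PTO.nil
  | head => exact PTO.head
  | tail => exact PTO.tail
  | cons _ _ h1 h2 => exact PTO.cons h1 h2
  | comp _ _ h1 h2 => exact PTO.comp h1 h2
  | eq => exact PTO.eq
  | ite _ _ _ h1 h2 h3 => exact PTO.ite h1 h2 h3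
  | brec k _ _ _ h1 h2 h3 => exact PTO.brec k h1 h2 h3

section
variable {O : D → Bool} {α β γ : Type} [Enc α] [Enc β] [Enc γ]

theorem PolyO.ofPoly {f : α → β} (h : Poly f) : PolyO O f := by
  obtain ⟨F, hF, h⟩ := h
  exact ⟨F, PTO.ofPT hF, h⟩

theorem PolyO.comp {f : β → γ} {g : α → β} (hf : PolyO O f) (hg : PolyO O g) :
    PolyO O (fun a => f (g a)) := by
  obtain ⟨F, hF, h⟩ := hf
  obtain ⟨G, hG, h'⟩ := hg
  exact ⟨_, PTO.comp hF hG, fun a => by simp [h, h']⟩

theorem PolyO.pair {f : α → β} {g : α → γ} (hf : PolyO O f) (hg : PolyO O g) :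
    PolyO O (fun a => (f a, g a)) := by
  obtain ⟨F, hF, h⟩ := hf
  obtain ⟨G, hG, h'⟩ := hg
  exact ⟨_, PTO.cons hF hG, fun a => by simp [h, h', enc_pair]⟩

theorem PolyO.fst {f : α → β × γ} (hf : PolyO O f) : PolyO O (fun a => (f a).1) := by
  obtain ⟨F, hF, h⟩ := hf
  exact ⟨_, PTO.comp PTO.head hF, fun a => by simp only [h]; rfl⟩

theorem PolyO.snd {f : α → β × γ} (hf : PolyO O f) : PolyO O (fun a => (f a).2) := by
  obtain ⟨F, hF, h⟩ := hf
  exact ⟨_, PTO.comp PTO.tail hF, fun a => by simp only [h]; rfl⟩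

theorem PolyO.ite {c : α → Bool} {f g : α → β} (hc : PolyO O c) (hf : PolyO O f)
    (hg : PolyO O g) : PolyO O (fun a => if c a = true then f a else g a) := by
  obtain ⟨C, hC, h''⟩ := hc
  obtain ⟨F, hF, h⟩ := hf
  obtain ⟨G, hG, h'⟩ := hg
  refine ⟨_, PTO.ite hC hF hG, fun a => ?_⟩
  simp only [h, h', h'', bool_enc_eq_nil]
  cases c a <;> simp

theorem PolyO.ask {f : α → β} (hf : PolyO O f) : PolyO O (fun a => O (enc (f a))) := by
  obtain ⟨F, hF, h⟩ := hf
  exact ⟨_, PTO.comp PTO.ask hF, fun a => by simp [h]⟩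

theorem PolyO.not {c : α → Bool} (hc : PolyO O c) : PolyO O (fun a => !(c a)) :=
  PolyO.comp (f := fun b : Bool => !b) (PolyO.ofPoly (Poly.not Poly.id')) hc

theorem PolyO.beqBool {f g : α → Bool} (hf : PolyO O f) (hg : PolyO O g) :
    PolyO O (fun a => f a == g a) :=
  PolyO.comp (f := fun q : Bool × Bool => q.1 == q.2)
    (PolyO.ofPoly (Poly.beqBool (Poly.fst Poly.id') (Poly.snd Poly.id'))) (PolyO.pair hf hg)

end

theorem exists_learnerO {O : D → Bool} {σ X : Type} [Enc σ] [Enc X] (i : σ) (p : σ → X → Bool)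
    (u : σ → X → Bool → σ) (hp : PolyO O (fun q : σ × X => p q.1 q.2))
    (hu : PolyO O (fun q : σ × (X × Bool) => u q.1 q.2.1 q.2.2)) :
    ∃ A : Learner X, FeasibleO O A ∧ ∀ es,
      A.final A.init es = enc (tfinal u i es) ∧ A.mistakes A.init es = tmistakes p u i es := by
  classical
  obtain ⟨F, hF, hF'⟩ := hp
  obtain ⟨G, hG, hG'⟩ := hu
  let A : Learner X := ⟨enc i, fun d x => decide (F (D.cons d (enc x)) ≠ D.nil),
    fun d x y => G (D.cons d (D.cons (enc x) (enc y)))⟩
  have hpred : ∀ s x, A.pred (enc s) x = p s x := by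
    intro s x
    have := hF' (s, x)
    simp only [enc_pair] at this
    simp only [A, this, Ne, bool_enc_eq_nil]
    cases p s x <;> simp
  have hupd : ∀ s x y, A.upd (enc s) x y = enc (u s x y) := by
    intro s x y
    have := hG' (s, (x, y))
    simp only [enc_pair] at this
    exact this
  refine ⟨A, ⟨⟨_, PTO.ite hF (PTO.cons PTO.nil PTO.nil) PTO.nil, fun q => ?_⟩,
    ⟨G, hG, fun q => rfl⟩⟩, ?_⟩
  · by_cases h : F (D.cons q.1 (enc q.2)) = D.nil
    · have h' : F (enc q) = D.nil := h
      simp only [A, h, h', enc_false, ne_eq, not_true_eq_false, decide_false, if_true]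
    · have h' : ¬ F (enc q) = D.nil := h
      simp only [A, h, h', enc_true, ne_eq, not_false_eq_true, decide_true, if_false]
  · have key : ∀ es s, A.final (enc s) es = enc (tfinal u s es) ∧
        A.mistakes (enc s) es = tmistakes p u s es := by
      intro es
      induction es with
      | nil => intro s; exact ⟨rfl, rfl⟩
      | cons e es ih =>
        intro s
        simp only [Learner.final, Learner.mistakes, tfinal, tmistakes, hupd, hpred]
        exact ⟨(ih _).1, by rw [(ih _).2]⟩
    intro es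
    exact key es i

end Pool.Agent.Work.MP_8ec85b_lc_or
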