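import Pool.Agent.Work.MP_8ec85b_lc_or.Count
import Pool.Agent.Work.MP_8ec85b_lc_or.PlibO
import Pool.Agent.Work.MP_8ec85b_lc_or.IA
import Pool.Agent.Work.MP_8ec85b_lc.Classes

/-!
Experts over the cube: an infinite-attribute learner which is run on a set of variables, and the
oracle which gives their weighted majority vote.
-/

namespace Pool.Agent.Work.MP_8ec85b_lc_or

open Pool.Agent.Work.MP_8ec85b_lc
open scoped ENNReal

/-- A list of labelled examples over the cube, newest first. -/
abbrev CL : Type := List (List Bool × Bool)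

/-- The name of a number. -/
noncomputable def bn (i : ℕ) : List Bool := (dec_surj i).choose

theorem dec_bn (i : ℕ) : dec (bn i) = i := (dec_surj i).choose_spec.1

theorem bn_inj : Function.Injective bn := fun i j h => by rw [← dec_bn i, ← dec_bn j, h]

theorem bn_length_le (i : ℕ) : (bn i).length ≤ 2 * i := by
  have h := (dec_surj i).choose_spec
  rcases Nat.eq_zero_or_pos i with hi | hi
  · have : bn i = [] := h.2.2 hi
    simp [this]
  · have h2 : 2 ^ (bn i).length ≤ 2 * i := h.2.1 hi
    have h3 : (bn i).length < 2 ^ (bn i).length := Nat.lt_two_pow_self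
    omega

theorem bn_length_log {i n : ℕ} (hi : i < n) : (bn i).length ≤ Nat.log 2 n + 1 := by
  have h := (dec_surj i).choose_spec
  rcases Nat.eq_zero_or_pos i with h0 | h0
  · have : bn i = [] := h.2.2 h0
    simp [this]
  · have h2 : 2 ^ (bn i).length ≤ 2 * i := h.2.1 h0
    by_contra hcon
    push Not at hcon
    have h3 : n < 2 ^ (Nat.log 2 n + 1) := Nat.lt_pow_succ_log_self (by norm_num) n
    have h4 : 2 ^ (Nat.log 2 n + 1 + 1) ≤ 2 ^ (bn i).length :=
      Nat.pow_le_pow_right (by norm_num) (by omega)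
    rw [pow_succ] at h4
    omega

/-- The restriction of an example to the variables in `V`, as an example of the
infinite-attribute model. -/
noncomputable def ex (V : List ℕ) (w : List Bool) : List Var :=
  (V.filter (fun i => w.getD i false)).map bn

/-- The state of the learner given by the terms and the state `θ` on the variables `V`. -/
noncomputable def stt (T : D → Bool) (θ : Tm × Tm × D) (V : List ℕ) : CL → D
  | [] => θ.2.2
  | e :: L => eval T θ.2.1 (D.cons (stt T θ V L) (D.cons (enc (ex V e.1)) (enc e.2)))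

open Classical in
/-- The prediction of the expert. -/
noncomputable def pr (T : D → Bool) (θ : Tm × Tm × D) (V : List ℕ) (L : CL) (w : List Bool) :
    Bool :=
  decide (eval T θ.1 (D.cons (stt T θ V L) (enc (ex V w))) ≠ D.nil)

/-- The number of mistakes of the expert. -/
noncomputable def ms (T : D → Bool) (θ : Tm × Tm × D) (V : List ℕ) : CL → ℕ
  | [] => 0
  | e :: L => ms T θ V L + if pr T θ V L e.1 = e.2 then 0 else 1

/-- The experts are named by lists of strings. -/
def vars (y : List (List Bool ⊕ Bool)) : List ℕ := y.map (Sum.elim dec (fun _ => 0))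

/-- The total weight of all experts. -/
noncomputable def W (T : D → Bool) (θ : Tm × Tm × D) (L : CL) : ℝ≥0∞ :=
  ∑' y, wt y * (2⁻¹) ^ ms T θ (vars y) L

theorem W_nil (T : D → Bool) (θ : Tm × Tm × D) : W T θ [] ≤ 2 := by
  simp only [W, ms, pow_zero, mul_one]
  exact tsum_wt

theorem W_split (T : D → Bool) (θ : Tm × Tm × D) (L : CL) (w : List Bool) :
    W T θ ((w, true) :: L) + W T θ ((w, false) :: L) = W T θ L + W T θ L / 2 := by
  have h2 : W T θ L / 2 = ∑' y, wt y * (2⁻¹) ^ ms T θ (vars y) L / 2 := by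
    simp only [W, div_eq_mul_inv]
    rw [ENNReal.tsum_mul_right]
  rw [h2]
  simp only [W]
  rw [← ENNReal.tsum_add, ← ENNReal.tsum_add]
  congr 1
  funext y
  simp only [ms]
  cases pr T θ (vars y) L w
  · simp only [Bool.false_eq_true, if_false, if_true, pow_succ, add_zero, div_eq_mul_inv]
    rw [add_comm, mul_assoc]
  · simp only [Bool.true_eq_false, if_false, if_true, pow_succ, add_zero, div_eq_mul_inv]
    rw [mul_assoc]

/-- A wrong vote costs a quarter of the total weight. -/
theorem W_mistake (T : D → Bool) (θ : Tm × Tm × D) (L : CL) (w : List Bool) (v b : Bool)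
    (hv : v = true ↔ W T θ ((w, false) :: L) ≤ W T θ ((w, true) :: L)) (h : v ≠ b) :
    W T θ ((w, b) :: L) * 4 ≤ W T θ L * 3 := by
  have h1 : W T θ ((w, b) :: L) + W T θ ((w, b) :: L) ≤ W T θ L + W T θ L / 2 := by
    rw [← W_split T θ L w]
    cases b with
    | true =>
      have h2 : ¬ W T θ ((w, false) :: L) ≤ W T θ ((w, true) :: L) := fun h' => h (hv.2 h')
      gcongr
      exact (not_le.1 h2).le
    | false =>
      have h2 : W T θ ((w, false) :: L) ≤ W T θ ((w, true) :: L) := by
        apply hv.1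
        cases v
        · exact absurd rfl h
        · rfl
      gcongr
  have h3 : (W T θ L + W T θ L / 2) + (W T θ L + W T θ L / 2) = W T θ L * 3 := by
    have : W T θ L / 2 + W T θ L / 2 = W T θ L := ENNReal.add_halves _
    calc _ = W T θ L + W T θ L + (W T θ L / 2 + W T θ L / 2) := by ring
      _ = _ := by rw [this]; ring
  calc W T θ ((w, b) :: L) * 4 = (W T θ ((w, b) :: L) + W T θ ((w, b) :: L)) +
        (W T θ ((w, b) :: L) + W T θ ((w, b) :: L)) := by ring
    _ ≤ _ := by rw [← h3]; exact add_le_add h1 h1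

/-- Few mistakes of one expert give few mistakes of the vote. -/
theorem mistakes_of_expert {T : D → Bool} {θ : Tm × Tm × D} {L : CL}
    (hW : W T θ L * 4 ^ L.length ≤ 2 * 3 ^ L.length) {y : List (List Bool ⊕ Bool)} {m r : ℕ}
    (hm : ∀ l, Sum.inl l ∈ y → l.length ≤ m) (hr : ms T θ (vars y) L ≤ r) :
    L.length ≤ 3 * ((3 + 2 * m) * y.length + r + 1) := by
  have h1 : (2⁻¹ : ℝ≥0∞) ^ ((3 + 2 * m) * y.length + r) ≤ W T θ L := by
    calc (2⁻¹ : ℝ≥0∞) ^ ((3 + 2 * m) * y.length + r) =
          (2⁻¹) ^ ((3 + 2 * m) * y.length) * (2⁻¹) ^ r := pow_add _ _ _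
      _ ≤ wt y * (2⁻¹) ^ ms T θ (vars y) L :=
          mul_le_mul' (wt_ge hm) (pow_le_pow_of_le_one zero_le (by simp) hr)
      _ ≤ W T θ L := ENNReal.le_tsum (f := fun y => wt y * (2⁻¹) ^ ms T θ (vars y) L) y
  set a := (3 + 2 * m) * y.length + r with ha
  set M := L.length with hM
  have h2 : (4 : ℝ≥0∞) ^ M ≤ 2 ^ (a + 1) * 3 ^ M := by
    calc (4 : ℝ≥0∞) ^ M = 2 ^ a * ((2⁻¹) ^ a * 4 ^ M) := by
          rw [← mul_assoc, ← mul_pow, ENNReal.mul_inv_cancel (by norm_num) (by norm_num), one_pow,
            one_mul]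
      _ ≤ 2 ^ a * (W T θ L * 4 ^ M) := by gcongr
      _ ≤ 2 ^ a * (2 * 3 ^ M) := by gcongr
      _ = _ := by rw [pow_succ]; ring
  have h3 : 4 ^ M ≤ 2 ^ (a + 1) * 3 ^ M := by exact_mod_cast h2
  by_contra hcon
  push Not at hcon
  obtain ⟨d, hd⟩ := Nat.exists_eq_add_of_lt hcon
  have h4 : 2 ^ (a + 1) * 3 ^ M < 4 ^ M := by
    rw [hd]
    have e1 : 3 ^ (3 * (a + 1) + d + 1) = 27 ^ (a + 1) * 3 ^ (d + 1) := by
      rw [add_assoc, pow_add, pow_mul]; norm_num
    have e2 : 4 ^ (3 * (a + 1) + d + 1) = 64 ^ (a + 1) * 4 ^ (d + 1) := by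
      rw [add_assoc, pow_add, pow_mul]; norm_num
    rw [e1, e2, ← mul_assoc, ← mul_pow]
    calc (2 * 27) ^ (a + 1) * 3 ^ (d + 1) ≤ 64 ^ (a + 1) * 3 ^ (d + 1) :=
          Nat.mul_le_mul_right _ (Nat.pow_le_pow_left (by norm_num) _)
      _ < 64 ^ (a + 1) * 4 ^ (d + 1) := by
          apply Nat.mul_lt_mul_of_pos_left
          · exact Nat.pow_lt_pow_left (by norm_num) (by omega)
          · positivity
  omega

/-- The oracle `O` on questions of size less than `m`. -/
def trunc (m : ℕ) (O : D → Bool) : D → Bool := fun v => if v.size < m then O v else false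

/-- A question: a tag, a code, the size of the truncation or the number of the period, the list
of mistakes, the example. -/
abbrev Qn : Type := Bool × (ℕ × (ℕ × (CL × List Bool)))

/-- The answer to a question, given an oracle for smaller questions. -/
def ans (T : D → Bool) (q : Qn) : Prop :=
  if q.1 = true then
    ∃ θ : Tm × Tm × D, Encodable.encode θ = q.2.1 ∧
      W (trunc q.2.2.1 T) θ ((q.2.2.2.2, false) :: q.2.2.2.1) ≤
      W (trunc q.2.2.1 T) θ ((q.2.2.2.2, true) :: q.2.2.2.1)
  else q.2.2.2.1.length < (q.2.2.1 + 2) ^ q.2.1 * (Nat.log 2 q.2.2.2.2.length + 2) ^ q.2.1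

open Classical in
/-- One level of the oracle. -/
noncomputable def Phi (T : D → Bool) (v : D) : Bool := decide (∃ q : Qn, v = enc q ∧ ans T q)

/-- The levels of the oracle. -/
noncomputable def lvl : ℕ → D → Bool
  | 0 => fun _ => false
  | m + 1 => fun v => Phi (lvl m) v

/-- The oracle. -/
noncomputable def orc (v : D) : Bool := lvl v.size v

end Pool.Agent.Work.MP_8ec85b_lc_or
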