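import Pool.Agent.Work.MP_8ec85b_lc_or.IA
import Pool.Agent.Work.MP_8ec85b_lc_or.Design

/-!
The choice of a new row and of its place, such that no activated hypothesis of a given finite set
of questions is consistent with it.
-/

namespace Pool.Agent.Work.MP_8ec85b_lc_or

open Pool.Agent.Work.MP_8ec85b_lc
open scoped ENNReal

theorem pats_subset {z : List Crd} {Λ L : List Ex} (h : Λ <:+ L) :
    ∀ q ∈ pats z Λ, q ∈ pats z L := by
  intro q hq
  obtain ⟨e, Λ', h1, h2⟩ := mem_pats.1 hq
  exact mem_pats.2 ⟨e, Λ', h1.trans h, h2⟩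

theorem Con_suffix {G : Rows} {z : List Crd} {Λ L : List Ex} (h : Λ <:+ L) (hc : Con G z L) :
    Con G z Λ := by
  obtain ⟨g, hg, h'⟩ := hc
  exact ⟨g, hg, fun q hq => h' q (pats_subset h q hq)⟩

theorem act_suffix {z : List Crd} {L : List Ex} (h : act z L) :
    ∃ Λ, Λ <:+ L ∧ thr z.length Λ ≤ (dp z Λ).card := by
  induction L with
  | nil => exact absurd h (by simp [act])
  | cons e L ih =>
    rcases h with h | h
    · obtain ⟨Λ, h1, h2⟩ := ih h
      exact ⟨Λ, h1.trans (List.suffix_cons _ _), h2⟩
    · exact ⟨_, List.suffix_rfl, h⟩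

open Classical in
theorem P_cons (G : Rows) (z : List Crd) (e : Ex) (L : List Ex) :
    P G z (e :: L) = if act z L then (if Con G z (e :: L) then P G z L else 0)
    else if (z.map (val L e.1), !e.2) ∈ pats z L then 0
    else if (z.map (val L e.1), e.2) ∈ pats z L then P G z L else P G z L / 2 := rfl

theorem P_congr {G G' : Rows} {z : List Crd} : ∀ L : List Ex,
    (G z.length = G' z.length ∨ ∀ Λ, Λ <:+ L → thr z.length Λ ≤ (dp z Λ).card →
      ¬ Con G z Λ ∧ ¬ Con G' z Λ) → ∀ e : Ex, P G z (e :: L) = P G' z (e :: L) := by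
  classical
  intro L
  induction L with
  | nil =>
    intro _ e
    simp [P, act]
  | cons e' L ih =>
    intro h e
    have h1 : P G z (e' :: L) = P G' z (e' :: L) := by
      apply ih
      rcases h with h | h
      · exact Or.inl h
      · exact Or.inr fun Λ hΛ => h Λ (hΛ.trans (List.suffix_cons _ _))
    have h2 : act z (e' :: L) → (Con G z (e :: e' :: L) ↔ Con G' z (e :: e' :: L)) := by
      intro ha
      rcases h with h | h
      · simp only [Con, h]
      · obtain ⟨Λ, h3, h4⟩ := act_suffix ha
        have h5 := h Λ h3 h4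
        have h6 : Λ <:+ e :: e' :: L := h3.trans (List.suffix_cons _ _)
        exact ⟨fun hc => absurd (Con_suffix h6 hc) h5.1, fun hc => absurd (Con_suffix h6 hc) h5.2⟩
    rw [P_cons G z e (e' :: L), P_cons G' z e (e' :: L), h1]
    by_cases ha : act z (e' :: L)
    · simp only [ha, if_true, h2 ha]
    · simp only [ha, if_false]

theorem oracle_congr {G G' : Rows} {q : D}
    (h : ∀ (L : List Ex) (w : List Var), q = enc (L, w) → ∀ z : List Crd,
      (G z.length = G' z.length ∨ ∀ Λ, Λ <:+ L → thr z.length Λ ≤ (dp z Λ).card →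
      ¬ Con G z Λ ∧ ¬ Con G' z Λ)) : oracle G q = oracle G' q := by
  classical
  have key : ∀ (L : List Ex) (w : List Var), q = enc (L, w) → ∀ b,
      F G ((w, b) :: L) = F G' ((w, b) :: L) := by
    intro L w hq b
    simp only [F]
    congr 1
    funext y
    rw [P_congr L (h L w hq (y.map conv))]
  simp only [oracle]
  congr 1
  apply propext
  constructor
  · rintro ⟨L, w, hq, h'⟩
    exact ⟨L, w, hq, by rw [← key L w hq, ← key L w hq]; exact h'⟩
  · rintro ⟨L, w, hq, h'⟩
    exact ⟨L, w, hq, by rw [key L w hq, key L w hq]; exact h'⟩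

theorem thr_gt_length {s : ℕ} {L : List Ex} {z : List Crd} (h : L.length < (s + 1) ^ 2) :
    ¬ thr s L ≤ (dp z L).card := by
  have h1 : (dp z L).card ≤ ((pats z L).map Prod.fst).length := List.toFinset_card_le _
  have h2 : (pats z L).length = L.length := by
    clear h h1
    induction L with
    | nil => rfl
    | cons e L ih => simp [pats, ih]
  simp only [List.length_map, h2] at h1
  simp only [thr]
  omega

/-- The coordinates which matter for lists with at most `R` names. -/
def crds (R : ℕ) : Finset Crd := (Finset.range R).image Sum.inl ∪ {Sum.inr true, Sum.inr false}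

theorem card_crds (R : ℕ) : (crds R).card ≤ R + 2 := by
  refine (Finset.card_union_le _ _).trans ?_
  have h1 : ((Finset.range R).image (Sum.inl : ℕ → Crd)).card ≤ R := by
    simpa using Finset.card_image_le (s := Finset.range R) (f := (Sum.inl : ℕ → Crd))
  have h2 : ({Sum.inr true, Sum.inr false} : Finset Crd).card ≤ 2 := Finset.card_le_two
  omega

/-- Replacement of an unused position by a constant. -/
def nrm (R : ℕ) : Crd → Crd
  | .inl r => if r < R then .inl r else .inr false
  | .inr b => .inr b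

theorem nrm_mem (R : ℕ) (a : Crd) : nrm R a ∈ crds R := by
  rcases a with r | b
  · simp only [nrm]
    split_ifs with h
    · exact Finset.mem_union_left _ (Finset.mem_image.2 ⟨r, Finset.mem_range.2 h, rfl⟩)
    · exact Finset.mem_union_right _ (by simp)
  · exact Finset.mem_union_right _ (by cases b <;> simp [nrm])

theorem val_nrm {R : ℕ} {Λ : List Ex} {w : List Var} (h : (names Λ ++ w).length ≤ R) (a : Crd) :
    val Λ w (nrm R a) = val Λ w a := by
  rcases a with r | b
  · simp only [nrm]
    split_ifs with hr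
    · rfl
    · have : (names Λ ++ w)[r]? = none := List.getElem?_eq_none (by omega)
      simp only [val, this]
  · rfl

theorem vs_nrm {R : ℕ} {Λ : List Ex} (h : (names Λ).length ≤ R) (a : Crd) :
    vs Λ (nrm R a) = vs Λ a := by
  rcases Λ with _ | ⟨e, Λ⟩
  · rfl
  · exact val_nrm h a

theorem pats_nrm {R : ℕ} {z : List Crd} {L : List Ex} (h : (names L).length ≤ R) :
    pats (z.map (nrm R)) L = pats z L := by
  induction L with
  | nil => rfl
  | cons e L ih =>
    have h1 : (names L).length ≤ R := by
      simp only [names, List.length_append] at h; omega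
    simp only [pats, ih h1, List.map_map]
    congr 2
    apply List.map_congr_left
    intro a _
    exact val_nrm h a

theorem exists_ofFn {α : Type} {s : ℕ} {z : List α} (h : z.length = s) :
    ∃ f : Fin s → α, z = List.ofFn f := by
  subst h
  exact ⟨z.get, (List.ofFn_get z).symm⟩

/-- The row `j` of the design at the place `S`. -/
def rowAt {p t s K : ℕ} (S : Fin s → (Fin t → ZMod p)) (j : Fin K) : List Bool :=
  List.ofFn (fun i => bit (ev (S i) ((j : ℕ) : ZMod p)))

theorem heart {p t s K T R₀ U : ℕ} [Fact p.Prime] (ht : 2 ≤ t) (hKp : K ≤ p)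
    (hT : T + t ≤ (s + 1) ^ 2) (hR₀ : (K + T) ^ 2 ≤ R₀)
    (𝓛 : Finset (List Ex)) (hsuf : ∀ L ∈ 𝓛, ∀ Λ, Λ <:+ L → Λ ∈ 𝓛)
    (hU : ∀ L ∈ 𝓛, (names L).length ≤ U)
    (h1 : (𝓛.card * K) ^ t * (R₀ + 2) ^ s * (((p + 1) / 2) ^ t) ^ s +
      K ^ 2 * ((p + 1) / 2 * p ^ (t - 1)) ^ s < (p ^ t) ^ s)
    (h2 : 𝓛.card * (U + 2) ^ s < 2 ^ T) (b : Fin K → Bool) :
    ∃ (S : Fin s → (Fin t → ZMod p)) (g : List Bool → Bool),
      (∀ j : Fin K, g (rowAt S j) = b j) ∧
      ∀ z : List Crd, z.length = s → ∀ L ∈ 𝓛, thr s L ≤ (dp z L).card →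
        ¬ (∀ q ∈ pats z L, g q.1 = q.2) := by
  classical
  have hp : p.Prime := Fact.out
  have hcast : Function.Injective (fun j : Fin K => ((j : ℕ) : ZMod p)) := by
    intro i j hij
    have h3 : ((i : ℕ) : ZMod p).val = i := ZMod.val_cast_of_lt (by omega)
    have h4 : ((j : ℕ) : ZMod p).val = j := ZMod.val_cast_of_lt (by omega)
    apply Fin.ext
    have hij' : ((i : ℕ) : ZMod p) = ((j : ℕ) : ZMod p) := hij
    rw [← h3, ← h4, hij']
  -- the place
  obtain ⟨S, hS1, hS2⟩ : ∃ S : Fin s → (Fin t → ZMod p),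
      (∀ (σ : Fin t → List Ex) (ζ : Fin s → Crd) (j : Fin t → Fin K), (∀ l, σ l ∈ 𝓛) →
        (∀ i, ζ i ∈ crds R₀) → Function.Injective j →
        ∃ i, ¬ ∀ l, bit (ev (S i) ((j l : ℕ) : ZMod p)) = vs (σ l) (ζ i)) ∧
      (∀ j j' : Fin K, j ≠ j' →
        ∃ i, bit (ev (S i) ((j : ℕ) : ZMod p)) ≠ bit (ev (S i) ((j' : ℕ) : ZMod p))) := by
    let I₁ : Finset ((Fin t → List Ex) × (Fin s → Crd) × (Fin t → Fin K)) :=
      (Fintype.piFinset (fun _ : Fin t => 𝓛)) ×ˢ
      (Fintype.piFinset (fun _ : Fin s => crds R₀)) ×ˢ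
      (Finset.univ.filter (fun j : Fin t → Fin K => Function.Injective j))
    let I₂ : Finset (Fin K × Fin K) := Finset.univ.filter (fun q => q.1 ≠ q.2)
    let C : ((Fin t → List Ex) × (Fin s → Crd) × (Fin t → Fin K)) ⊕ (Fin K × Fin K) →
        Fin s → Finset (Fin t → ZMod p) := fun q i => Sum.elim
      (fun q => Finset.univ.filter (fun c : Fin t → ZMod p =>
        ∀ l, bit (ev c ((q.2.2 l : ℕ) : ZMod p)) = vs (q.1 l) (q.2.1 i)))
      (fun q => Finset.univ.filter (fun c : Fin t → ZMod p =>
        bit (ev c ((q.1 : ℕ) : ZMod p)) = bit (ev c ((q.2 : ℕ) : ZMod p)))) q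
    have hb : ∑ q ∈ I₁.disjSum I₂, ∏ i, (C q i).card <
        Fintype.card (Fin t → ZMod p) ^ s := by
      rw [Finset.sum_disjSum]
      have e1 : ∑ q ∈ I₁, ∏ i, (C (Sum.inl q) i).card ≤
          (𝓛.card * K) ^ t * (R₀ + 2) ^ s * (((p + 1) / 2) ^ t) ^ s := by
        calc ∑ q ∈ I₁, ∏ i, (C (Sum.inl q) i).card ≤ ∑ _q ∈ I₁, (((p + 1) / 2) ^ t) ^ s := by
              apply Finset.sum_le_sum
              rintro ⟨σ, ζ, j⟩ hq
              have hj : Function.Injective j := by
                simp only [I₁, Finset.mem_product, Finset.mem_filter] at hq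
                exact hq.2.2.2
              calc ∏ i, (C (Sum.inl (σ, ζ, j)) i).card ≤ ∏ _i : Fin s, ((p + 1) / 2) ^ t := by
                    apply Finset.prod_le_prod'
                    intro i _
                    exact card_col (v := fun l => ((j l : ℕ) : ZMod p)) (hcast.comp hj) _
                _ = _ := by simp
          _ = I₁.card * (((p + 1) / 2) ^ t) ^ s := by simp
          _ ≤ _ := by
              apply Nat.mul_le_mul_right
              have c1 : I₁.card = 𝓛.card ^ t * ((crds R₀).card ^ s *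
                  (Finset.univ.filter (fun j : Fin t → Fin K => Function.Injective j)).card) := by
                simp [I₁, Finset.card_product, Fintype.card_piFinset]
              have c2 : (Finset.univ.filter
                  (fun j : Fin t → Fin K => Function.Injective j)).card ≤ K ^ t := by
                refine (Finset.card_le_univ _).trans ?_
                simp
              have c3 : (crds R₀).card ^ s ≤ (R₀ + 2) ^ s := Nat.pow_le_pow_left (card_crds _) _
              rw [c1]
              calc _ ≤ 𝓛.card ^ t * ((R₀ + 2) ^ s * K ^ t) :=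
                    Nat.mul_le_mul_left _ (Nat.mul_le_mul c3 c2)
                _ = _ := by ring
      have e2 : ∑ q ∈ I₂, ∏ i, (C (Sum.inr q) i).card ≤
          K ^ 2 * ((p + 1) / 2 * p ^ (t - 1)) ^ s := by
        calc ∑ q ∈ I₂, ∏ i, (C (Sum.inr q) i).card ≤
              ∑ _q ∈ I₂, ((p + 1) / 2 * p ^ (t - 1)) ^ s := by
              apply Finset.sum_le_sum
              rintro ⟨j, j'⟩ hq
              have hj : j ≠ j' := by simpa [I₂] using hq
              calc ∏ i, (C (Sum.inr (j, j')) i).card ≤
                    ∏ _i : Fin s, ((p + 1) / 2 * p ^ (t - 1)) := by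
                    apply Finset.prod_le_prod'
                    intro i _
                    have hag := card_agree (p := p) (t := t) ht
                      (j := ((j : ℕ) : ZMod p)) (j' := ((j' : ℕ) : ZMod p)) (hcast.ne hj)
                    have hpt : (p + 1) / 2 * p ^ t = p * ((p + 1) / 2 * p ^ (t - 1)) := by
                      obtain ⟨t', rfl⟩ : ∃ t', t = t' + 1 := ⟨t - 1, by omega⟩
                      simp only [Nat.add_sub_cancel, pow_succ]
                      ring
                    rw [hpt] at hag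
                    exact Nat.le_of_mul_le_mul_left hag hp.pos
                _ = _ := by simp
          _ = I₂.card * ((p + 1) / 2 * p ^ (t - 1)) ^ s := by simp
          _ ≤ _ := by
              apply Nat.mul_le_mul_right
              refine (Finset.card_le_univ _).trans ?_
              simp [pow_two]
      have e3 : Fintype.card (Fin t → ZMod p) = p ^ t := by
        simp
      rw [e3]
      omega
    obtain ⟨S, hS⟩ := avoid_boxes (I₁.disjSum I₂) C hb
    refine ⟨S, ?_, ?_⟩
    · intro σ ζ j hσ hζ hj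
      obtain ⟨i, hi⟩ := hS (Sum.inl (σ, ζ, j)) (by
        rw [Finset.inl_mem_disjSum]
        simp only [I₁, Finset.mem_product, Fintype.mem_piFinset, Finset.mem_filter,
          Finset.mem_univ, true_and]
        exact ⟨hσ, hζ, hj⟩)
      refine ⟨i, fun hall => hi ?_⟩
      simp only [C, Sum.elim_inl, Finset.mem_filter, Finset.mem_univ, true_and]
      exact hall
    · intro j j' hj
      obtain ⟨i, hi⟩ := hS (Sum.inr (j, j')) (by
        rw [Finset.inr_mem_disjSum]
        simpa [I₂] using hj)
      refine ⟨i, fun heq => hi ?_⟩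
      simp only [C, Sum.elim_inr, Finset.mem_filter, Finset.mem_univ, true_and]
      exact heq
  have hrow : Function.Injective (rowAt (K := K) S) := by
    intro j j' hjj
    by_contra hne
    obtain ⟨i, hi⟩ := hS2 j j' hne
    exact hi (congrFun (List.ofFn_injective hjj) i)
  -- the rows at the place
  let XS : Finset (List Bool) := Finset.univ.image (rowAt (K := K) S)
  have hXS : XS.card ≤ K := by
    refine Finset.card_image_le.trans ?_
    simp
  -- the values outside of the rows
  obtain ⟨g₀, hg₀⟩ : ∃ g₀ : List Bool → Bool, ∀ (L : List Ex) (ζ : Fin s → Crd), L ∈ 𝓛 →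
      (∀ i, ζ i ∈ crds U) → T ≤ (dp (List.ofFn ζ) L \ XS).card →
      ∃ a ∈ dp (List.ofFn ζ) L \ XS, g₀ a ≠ decide ((a, true) ∈ pats (List.ofFn ζ) L) := by
    let I : Finset (List Ex × (Fin s → Crd)) :=
      (𝓛 ×ˢ Fintype.piFinset (fun _ : Fin s => crds U)).filter
        (fun q => T ≤ (dp (List.ofFn q.2) q.1 \ XS).card)
    have hI : I.card < 2 ^ T := by
      refine lt_of_le_of_lt ((Finset.card_filter_le _ _).trans ?_) h2
      rw [Finset.card_product, Fintype.card_piFinset]
      apply Nat.mul_le_mul_left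
      simp only [Finset.prod_const, Finset.card_univ, Fintype.card_fin]
      exact Nat.pow_le_pow_left (card_crds _) _
    obtain ⟨g, hg⟩ := avoid_functions' (I := I) (A := fun q => dp (List.ofFn q.2) q.1 \ XS)
      (f := fun q a => decide ((a, true) ∈ pats (List.ofFn q.2) q.1)) (T := T)
      (fun q hq => (Finset.mem_filter.1 hq).2) hI
    refine ⟨g, fun L ζ hL hζ hT' => hg (L, ζ) ?_⟩
    simp only [I, Finset.mem_filter, Finset.mem_product, Fintype.mem_piFinset]
    exact ⟨⟨hL, hζ⟩, hT'⟩
  let g : List Bool → Bool := fun a => if h : ∃ j, rowAt (K := K) S j = a then b h.choose else g₀ a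
  have hg1 : ∀ j, g (rowAt S j) = b j := by
    intro j
    have hex : ∃ j', rowAt (K := K) S j' = rowAt S j := ⟨j, rfl⟩
    simp only [g, dif_pos hex]
    congr 1
    exact hrow hex.choose_spec
  have hg2 : ∀ a, a ∉ XS → g a = g₀ a := by
    intro a ha
    have hex : ¬ ∃ j', rowAt (K := K) S j' = a := by
      rintro ⟨j, rfl⟩
      exact ha (Finset.mem_image_of_mem _ (Finset.mem_univ j))
    simp only [g, dif_neg hex]
  refine ⟨S, g, hg1, ?_⟩
  intro z hz L hL hthr hcon
  obtain ⟨ζ₀, rfl⟩ := exists_ofFn hz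
  rcases Nat.lt_or_ge (dp (List.ofFn ζ₀) L \ XS).card T with hlt | hge
  · -- few patterns outside: the place was caught
    have hcard : (dp (List.ofFn ζ₀) L).card =
        (dp (List.ofFn ζ₀) L ∩ XS).card + (dp (List.ofFn ζ₀) L \ XS).card :=
      (Finset.card_inter_add_card_sdiff _ _).symm
    have hle : (dp (List.ofFn ζ₀) L ∩ XS).card ≤ K :=
      (Finset.card_le_card Finset.inter_subset_right).trans hXS
    have hnames : (names L).length < (K + T) ^ 2 := by
      rw [← Nat.sqrt_lt']
      simp only [thr] at hthr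
      omega
    have hbig : t ≤ (dp (List.ofFn ζ₀) L ∩ XS).card := by
      simp only [thr] at hthr
      omega
    obtain ⟨W, hW1, hW2⟩ := Finset.exists_subset_card_eq hbig
    let a : Fin t → List Bool := fun l => ((Finset.equivFinOfCardEq hW2).symm l : List Bool)
    have ha_inj : Function.Injective a := fun x y hxy =>
      (Finset.equivFinOfCardEq hW2).symm.injective (Subtype.ext hxy)
    have ha_mem : ∀ l, a l ∈ dp (List.ofFn ζ₀) L ∩ XS := fun l =>
      hW1 ((Finset.equivFinOfCardEq hW2).symm l).2
    have hj : ∀ l, ∃ j : Fin K, rowAt S j = a l := by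
      intro l
      obtain ⟨j, _, hj⟩ := Finset.mem_image.1 (Finset.mem_inter.1 (ha_mem l)).2
      exact ⟨j, hj⟩
    have hσ : ∀ l, ∃ Λ : List Ex, Λ <:+ L ∧ a l = (List.ofFn ζ₀).map (vs Λ) := by
      intro l
      obtain ⟨b', hb'⟩ := mem_dp.1 (Finset.mem_inter.1 (ha_mem l)).1
      obtain ⟨e, Λ, hΛ1, hΛ2⟩ := mem_pats.1 hb'
      exact ⟨e :: Λ, hΛ1, (Prod.mk.inj hΛ2).1⟩
    choose j hj using hj
    choose σ hσ1 hσ2 using hσ
    have hj_inj : Function.Injective j := by
      intro x y hxy
      apply ha_inj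
      rw [← hj, ← hj, hxy]
    obtain ⟨i, hi⟩ := hS1 σ (fun i => nrm R₀ (ζ₀ i)) j
      (fun l => hsuf L hL _ (hσ1 l)) (fun i => nrm_mem _ _) hj_inj
    apply hi
    intro l
    have hR : (names (σ l)).length ≤ R₀ := by
      have := (names_prefix (hσ1 l)).length_le
      omega
    rw [vs_nrm hR]
    have : rowAt S (j l) = List.ofFn (fun i => vs (σ l) (ζ₀ i)) := by
      rw [hj, hσ2, List.map_ofFn]
      rfl
    exact congrFun (List.ofFn_injective this) i
  · -- many patterns outside: the values contradict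
    have hUL := hU L hL
    have hpn : pats (List.ofFn fun i => nrm U (ζ₀ i)) L = pats (List.ofFn ζ₀) L := by
      have := pats_nrm (z := List.ofFn ζ₀) hUL
      rw [List.map_ofFn] at this
      exact this
    have hdn : dp (List.ofFn fun i => nrm U (ζ₀ i)) L = dp (List.ofFn ζ₀) L := by
      simp only [dp, hpn]
    obtain ⟨a, ha1, ha2⟩ := hg₀ L (fun i => nrm U (ζ₀ i)) hL (fun i => nrm_mem _ _)
      (by rw [hdn]; exact hge)
    rw [hdn] at ha1
    rw [hpn] at ha2
    obtain ⟨ha3, ha4⟩ := Finset.mem_sdiff.1 ha1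
    obtain ⟨b', hb'⟩ := mem_dp.1 ha3
    have h3 := hcon _ hb'
    simp only at h3
    rw [hg2 a ha4] at h3
    apply ha2
    rw [h3]
    cases b' with
    | true => simp [hb']
    | false =>
      by_cases h4 : (a, true) ∈ pats (List.ofFn ζ₀) L
      · have h5 := hcon _ h4
        simp only at h5
        rw [hg2 a ha4, h3] at h5
        simp at h5
      · simp [h4]

end Pool.Agent.Work.MP_8ec85b_lc_or
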