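import Mathlib

/-!
Weights of finite sequences: if the weights of the letters have sum at most one half, then the
weights of all finite words have sum at most two.
-/

namespace Pool.Agent.Work.MP_8ec85b_lc_or

open scoped ENNReal

theorem kraft_finset {α : Type} (w : α → ℝ≥0∞) (hw : ∑' a, w a ≤ 2⁻¹) :
    ∀ (m : ℕ) (F : Finset (List α)), (∀ l ∈ F, l.length ≤ m) → ∑ l ∈ F, (l.map w).prod ≤ 2 := by
  classical
  intro m
  induction m with
  | zero =>
    intro F hF
    have h1 : F ⊆ {[]} := by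
      intro l hl
      have := hF l hl
      simp only [Nat.le_zero, List.length_eq_zero_iff] at this
      simp [this]
    calc ∑ l ∈ F, (l.map w).prod ≤ ∑ l ∈ {[]}, (l.map w).prod :=
          Finset.sum_le_sum_of_subset h1
      _ = 1 := by simp
      _ ≤ 2 := by norm_num
  | succ m ih =>
    intro F hF
    let A : Finset α := F.biUnion (fun l => l.head?.toFinset)
    let T : Finset (List α) := F.image List.tail
    let e : α × List α ↪ List α := ⟨fun p => p.1 :: p.2, by
      rintro ⟨a, l⟩ ⟨b, l'⟩ h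
      simpa using h⟩
    have h1 : F ⊆ {[]} ∪ (A ×ˢ T).map e := by
      intro l hl
      rcases l with _ | ⟨a, l⟩
      · simp
      · refine Finset.mem_union_right _ (Finset.mem_map.2 ⟨(a, l), ?_, rfl⟩)
        refine Finset.mem_product.2 ⟨?_, ?_⟩
        · exact Finset.mem_biUnion.2 ⟨a :: l, hl, by simp⟩
        · exact Finset.mem_image.2 ⟨a :: l, hl, rfl⟩
    have h2 : ∀ l ∈ T, l.length ≤ m := by
      intro l hl
      obtain ⟨l', hl', rfl⟩ := Finset.mem_image.1 hl
      have := hF l' hl'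
      simp only [List.length_tail]; omega
    have h3 := ih T h2
    have h4 : ∑ a ∈ A, w a ≤ 2⁻¹ := (ENNReal.sum_le_tsum A).trans hw
    calc ∑ l ∈ F, (l.map w).prod ≤ ∑ l ∈ {[]} ∪ (A ×ˢ T).map e, (l.map w).prod :=
          Finset.sum_le_sum_of_subset h1
      _ ≤ ∑ l ∈ {[]}, (l.map w).prod + ∑ l ∈ (A ×ˢ T).map e, (l.map w).prod := by
          rw [← Finset.sum_union_inter]
          exact le_self_add
      _ = 1 + ∑ p ∈ A ×ˢ T, w p.1 * (p.2.map w).prod := by
          rw [Finset.sum_map]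
          simp [e]
      _ = 1 + (∑ a ∈ A, w a) * ∑ l ∈ T, (l.map w).prod := by
          rw [Finset.sum_mul_sum, Finset.sum_product]
      _ ≤ 1 + 2⁻¹ * 2 := by gcongr
      _ = 2 := by
          rw [ENNReal.inv_mul_cancel (by norm_num) (by norm_num)]
          norm_num

theorem kraft {α : Type} (w : α → ℝ≥0∞) (hw : ∑' a, w a ≤ 2⁻¹) :
    ∑' l : List α, (l.map w).prod ≤ 2 := by
  rw [ENNReal.tsum_eq_iSup_sum]
  refine iSup_le fun F => kraft_finset w hw (F.sup List.length) F fun l hl =>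
    Finset.le_sup (f := List.length) hl

/-- The weight of a coordinate: a binary string or a constant. -/
noncomputable def wH : List Bool ⊕ Bool → ℝ≥0∞
  | .inl l => (2⁻¹) ^ (3 + 2 * l.length)
  | .inr _ => (2⁻¹) ^ 3

theorem tsum_wH : ∑' a, wH a ≤ 2⁻¹ := by
  have h1 : ∑' l : List Bool, (l.map (fun _ => (2⁻¹ : ℝ≥0∞) ^ 2)).prod ≤ 2 := by
    apply kraft
    rw [tsum_fintype]
    simp only [Fintype.univ_bool, Finset.mem_singleton, Bool.true_eq_false, not_false_eq_true,
      Finset.sum_insert, Finset.sum_singleton]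
    rw [pow_two, ← mul_add, ENNReal.inv_two_add_inv_two, mul_one]
  have h2 : ∑' l : List Bool, wH (.inl l) ≤ (2⁻¹) ^ 2 := by
    have : ∀ l : List Bool, wH (.inl l) = (2⁻¹) ^ 3 * (l.map (fun _ => (2⁻¹ : ℝ≥0∞) ^ 2)).prod := by
      intro l
      simp only [wH, List.map_const', List.prod_replicate]
      rw [pow_add, pow_mul]
    simp_rw [this]
    rw [ENNReal.tsum_mul_left]
    calc (2⁻¹ : ℝ≥0∞) ^ 3 * _ ≤ (2⁻¹) ^ 3 * 2 := by gcongr
      _ = (2⁻¹) ^ 2 := by
        rw [pow_succ, mul_assoc, ENNReal.inv_mul_cancel (by norm_num) (by norm_num), mul_one]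
  have h3 : ∑' b : Bool, wH (.inr b) = (2⁻¹) ^ 2 := by
    rw [tsum_fintype]
    simp only [Fintype.univ_bool, Finset.mem_singleton, Bool.true_eq_false, not_false_eq_true,
      Finset.sum_insert, Finset.sum_singleton, wH]
    rw [pow_succ, ← mul_add, ENNReal.inv_two_add_inv_two, mul_one]
  rw [Summable.tsum_sum (f := wH) ENNReal.summable ENNReal.summable, h3]
  calc _ ≤ (2⁻¹ : ℝ≥0∞) ^ 2 + (2⁻¹) ^ 2 := by gcongr
    _ = 2⁻¹ := by
      rw [pow_two, ← mul_add, ENNReal.inv_two_add_inv_two, mul_one]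

/-- The weight of a hypothesis. -/
noncomputable def wt (y : List (List Bool ⊕ Bool)) : ℝ≥0∞ := (y.map wH).prod

theorem tsum_wt : ∑' y, wt y ≤ 2 := kraft wH tsum_wH

theorem wt_ge {y : List (List Bool ⊕ Bool)} {m : ℕ}
    (h : ∀ l, Sum.inl l ∈ y → l.length ≤ m) : (2⁻¹) ^ ((3 + 2 * m) * y.length) ≤ wt y := by
  induction y with
  | nil => simp [wt]
  | cons a y ih =>
    have h1 : (2⁻¹) ^ (3 + 2 * m) ≤ wH a := by
      rcases a with l | b
      · have := h l (by simp)
        exact pow_le_pow_of_le_one zero_le (by simp) (by omega)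
      · exact pow_le_pow_of_le_one zero_le (by simp) (by omega)
    have h2 := ih (fun l hl => h l (by simp [hl]))
    simp only [wt, List.map_cons, List.prod_cons, List.length_cons] at h2 ⊢
    rw [Nat.mul_succ, Nat.add_comm, pow_add]
    gcongr

end Pool.Agent.Work.MP_8ec85b_lc_or
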