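import Pool.Agent.Work.MP_8ec85b_lc_or.Defs
import Pool.Agent.Work.MP_8ec85b_lc_or.Weights

/-!
Hypotheses for the infinite-attribute learner, their values on a list of labelled examples, and
the oracle: a weighted majority vote.
-/

namespace Pool.Agent.Work.MP_8ec85b_lc_or

open Pool.Agent.Work.MP_8ec85b_lc
open scoped ENNReal

/-- A labelled example of the infinite-attribute model. -/
abbrev Ex : Type := List Var × Bool

/-- A coordinate: the position of a name, or a constant. -/
abbrev Crd : Type := ℕ ⊕ Bool

/-- All names of the examples of a list (newest example first), oldest first. -/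
def names : List Ex → List Var
  | [] => []
  | e :: L => names L ++ e.1

/-- The value of a coordinate on the example `w`, presented after `L`. -/
def val (L : List Ex) (w : List Var) : Crd → Bool
  | .inr b => b
  | .inl r => match (names L ++ w)[r]? with
    | some u => decide (u ∈ w)
    | none => false

/-- The value of a coordinate on the newest example of a list. -/
def vs : List Ex → Crd → Bool
  | [] => fun _ => false
  | e :: L => val L e.1

/-- The labelled patterns of a hypothesis on a list of labelled examples. -/
def pats (z : List Crd) : List Ex → List (List Bool × Bool)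
  | [] => []
  | e :: L => (z.map (val L e.1), e.2) :: pats z L

/-- The set of patterns of a hypothesis. -/
def dp (z : List Crd) (L : List Ex) : Finset (List Bool) := ((pats z L).map Prod.fst).toFinset

/-- The threshold for the activation of a hypothesis. -/
def thr (s : ℕ) (L : List Ex) : ℕ := (s + 1) ^ 2 + Nat.sqrt (names L).length

/-- A hypothesis is activated once it had sufficiently many distinct patterns. -/
def act (z : List Crd) : List Ex → Prop
  | [] => False
  | e :: L => act z L ∨ thr z.length (e :: L) ≤ (dp z (e :: L)).card

/-- For every length at most one function. -/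
abbrev Rows : Type := ℕ → Option (List Bool → Bool)

/-- The row of the length of `z` exists and agrees with all labels. -/
def Con (G : Rows) (z : List Crd) (L : List Ex) : Prop :=
  ∃ g, G z.length = some g ∧ ∀ q ∈ pats z L, g q.1 = q.2

open Classical in
/-- The share of the weight of the hypothesis `z` which is left after a list of labelled
examples. -/
noncomputable def P (G : Rows) (z : List Crd) : List Ex → ℝ≥0∞
  | [] => 1
  | e :: L => if act z L then (if Con G z (e :: L) then P G z L else 0)
    else if (z.map (val L e.1), !e.2) ∈ pats z L then 0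
    else if (z.map (val L e.1), e.2) ∈ pats z L then P G z L else P G z L / 2

/-- Binary strings as names of numbers. -/
def dec : List Bool → ℕ
  | [] => 0
  | b :: l => 2 * dec l + cond b 1 0

theorem dec_surj (r : ℕ) : ∃ l, dec l = r ∧ (1 ≤ r → 2 ^ l.length ≤ 2 * r) ∧ (r = 0 → l = []) := by
  induction r using Nat.strong_induction_on with
  | _ r ih =>
    rcases Nat.eq_zero_or_pos r with rfl | hr
    · exact ⟨[], rfl, by simp, fun _ => rfl⟩
    · obtain ⟨l, h1, h2, h3⟩ := ih (r / 2) (by omega)
      refine ⟨decide (r % 2 = 1) :: l, ?_, ?_, by omega⟩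
      · simp only [dec, h1]
        rcases Nat.mod_two_eq_zero_or_one r with h | h <;> simp [h] <;> omega
      · intro _
        rcases Nat.eq_zero_or_pos (r / 2) with h | h
        · rw [h3 h]; simp; omega
        · have := h2 h
          simp only [List.length_cons, pow_succ]; omega

theorem sq_le_two_mul_two_pow (n : ℕ) : n ^ 2 ≤ 2 * 2 ^ n := by
  induction n with
  | zero => simp
  | succ n ih =>
    rcases Nat.lt_or_ge n 3 with h | h
    · interval_cases n <;> norm_num
    · rw [pow_succ 2 n]
      nlinarith

theorem dec_surj' {r R : ℕ} (h : r < R) : ∃ l, dec l = r ∧ l.length ≤ Nat.sqrt (4 * R) := by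
  obtain ⟨l, h1, h2, h3⟩ := dec_surj r
  refine ⟨l, h1, ?_⟩
  rw [Nat.le_sqrt']
  rcases Nat.eq_zero_or_pos r with hr | hr
  · rw [h3 hr]; simp
  · have := h2 hr
    have := sq_le_two_mul_two_pow l.length
    omega

/-- The coordinate named by a string or a constant. -/
def conv : List Bool ⊕ Bool → Crd
  | .inl l => .inl (dec l)
  | .inr b => .inr b

/-- The total weight which is left after a list of labelled examples. -/
noncomputable def F (G : Rows) (L : List Ex) : ℝ≥0∞ := ∑' y, wt y * P G (y.map conv) L

theorem F_nil (G : Rows) : F G [] ≤ 2 := by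
  simp only [F, P, mul_one]
  exact tsum_wt

theorem P_split (G : Rows) (z : List Crd) (w : List Var) (L : List Ex) :
    P G z ((w, true) :: L) + P G z ((w, false) :: L) ≤ P G z L := by
  classical
  simp only [P]
  by_cases ha : act z L
  · simp only [ha, if_true]
    by_cases h1 : Con G z ((w, true) :: L)
    · have h2 : ¬ Con G z ((w, false) :: L) := by
        rintro ⟨g, hg, h⟩
        obtain ⟨g', hg', h'⟩ := h1
        rw [hg] at hg'
        obtain rfl := Option.some.inj hg'
        have e1 := h _ (List.mem_cons_self)
        have e2 := h' _ (List.mem_cons_self)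
        simp only at e1 e2
        rw [e1] at e2
        exact Bool.noConfusion e2
      simp [h1, h2]
    · simp only [h1, if_false, zero_add]
      split_ifs <;> simp
  · simp only [ha, if_false, Bool.not_true, Bool.not_false]
    by_cases h1 : (z.map (val L w), false) ∈ pats z L <;>
    by_cases h2 : (z.map (val L w), true) ∈ pats z L
    · simp [h1, h2]
    · simp [h1, h2]
    · simp [h1, h2]
    · simp [h1, h2, ENNReal.add_halves]

theorem F_split (G : Rows) (w : List Var) (L : List Ex) :
    F G ((w, true) :: L) + F G ((w, false) :: L) ≤ F G L := by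
  simp only [F]
  rw [← ENNReal.tsum_add]
  refine ENNReal.tsum_le_tsum fun y => ?_
  rw [← mul_add]
  gcongr
  exact P_split G _ w L

theorem thr_mono {s : ℕ} {e : Ex} {L : List Ex} : thr s L ≤ thr s (e :: L) := by
  have : (names L).length ≤ (names (e :: L)).length := by simp [names]
  have := Nat.sqrt_le_sqrt this
  simp only [thr]; omega

theorem thr_pos {s : ℕ} {L : List Ex} : 1 ≤ thr s L := by
  have : 1 ≤ (s + 1) ^ 2 := Nat.one_le_pow _ _ (by omega)
  simp only [thr]; omega

theorem dp_cons (z : List Crd) (e : Ex) (L : List Ex) :
    dp z (e :: L) = insert (z.map (val L e.1)) (dp z L) := by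
  simp [dp, pats]

theorem mem_dp {z : List Crd} {L : List Ex} {p : List Bool} :
    p ∈ dp z L ↔ ∃ b, (p, b) ∈ pats z L := by
  simp [dp]

theorem dp_lt_of_not_act {z : List Crd} {L : List Ex} (h : ¬ act z L) :
    (dp z L).card < thr z.length L := by
  rcases L with _ | ⟨e, L⟩
  · have := thr_pos (s := z.length) (L := [])
    simp [dp, pats]; omega
  · simp only [act, not_or, not_le] at h
    exact h.2

theorem P_ge_aux {G : Rows} {z : List Crd} {g : List Bool → Bool} (hG : G z.length = some g) :
    ∀ L : List Ex, (∀ q ∈ pats z L, g q.1 = q.2) →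
      (¬ act z L → (2⁻¹) ^ (dp z L).card ≤ P G z L) ∧ (2⁻¹) ^ (thr z.length L) ≤ P G z L := by
  classical
  intro L
  induction L with
  | nil =>
    intro _
    simp only [P]
    exact ⟨fun _ => by simp [dp, pats], pow_le_one₀ zero_le (by simp)⟩
  | cons e L ih =>
    intro hc
    obtain ⟨ih1, ih2⟩ := ih (fun q hq => hc q (by simp [pats, hq]))
    have hm : thr z.length L ≤ thr z.length (e :: L) := thr_mono
    have hp : g (z.map (val L e.1)) = e.2 := hc (z.map (val L e.1), e.2) (by simp [pats])
    have hneg : (z.map (val L e.1), !e.2) ∉ pats z L := by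
      intro h
      have := hc (z.map (val L e.1), !e.2) (by simp [pats, h])
      simp only at this
      rw [hp] at this
      cases e.2 <;> simp at this
    by_cases ha : act z L
    · have hcon : Con G z (e :: L) := ⟨g, hG, hc⟩
      refine ⟨fun h => absurd (Or.inl ha) h, ?_⟩
      simp only [P, ha, hcon, if_true]
      exact (pow_le_pow_of_le_one zero_le (by simp) hm).trans ih2
    · have hd := dp_lt_of_not_act ha
      have key : (2⁻¹) ^ (dp z (e :: L)).card ≤ P G z (e :: L) ∧
          (2⁻¹) ^ ((dp z L).card + 1) ≤ P G z (e :: L) := by
        simp only [P, ha, hneg, if_false]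
        have h1 := ih1 ha
        by_cases hin : (z.map (val L e.1), e.2) ∈ pats z L
        · have : dp z (e :: L) = dp z L := by
            rw [dp_cons, Finset.insert_eq_self]
            exact mem_dp.2 ⟨_, hin⟩
          simp only [hin, if_true]
          rw [this]
          exact ⟨h1, (pow_le_pow_of_le_one zero_le (by simp) (by omega)).trans h1⟩
        · have h3 : z.map (val L e.1) ∉ dp z L := by
            intro h
            obtain ⟨b, hb⟩ := mem_dp.1 h
            have : b = e.2 ∨ b = !e.2 := by cases b <;> cases e.2 <;> simp
            rcases this with rfl | rfl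
            · exact hin hb
            · exact hneg hb
          have h4 : (dp z (e :: L)).card = (dp z L).card + 1 := by
            rw [dp_cons, Finset.card_insert_of_notMem h3]
          simp only [hin, if_false]
          rw [h4]
          have h5 : (2⁻¹ : ℝ≥0∞) ^ ((dp z L).card + 1) ≤ P G z L / 2 := by
            rw [pow_succ, ENNReal.div_eq_inv_mul, mul_comm]
            gcongr
          exact ⟨h5, h5⟩
      refine ⟨fun _ => key.1, ?_⟩
      exact (pow_le_pow_of_le_one zero_le (by simp) (by omega)).trans key.2

theorem P_ge {G : Rows} {z : List Crd} {g : List Bool → Bool} (hG : G z.length = some g)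
    {L : List Ex} (h : ∀ q ∈ pats z L, g q.1 = q.2) : (2⁻¹) ^ (thr z.length L) ≤ P G z L :=
  (P_ge_aux hG L h).2

open Classical in
/-- The oracle of a family of rows. -/
noncomputable def oracle (G : Rows) : D → Bool := fun q =>
  decide (∃ (L : List Ex) (w : List Var), q = enc (L, w) ∧
    F G ((w, false) :: L) ≤ F G ((w, true) :: L))

theorem enc_list_inj {β : Type} [Enc β] (h : ∀ a b : β, enc a = enc b → a = b) :
    ∀ l l' : List β, enc l = enc l' → l = l' := by
  intro l
  induction l with
  | nil =>
    intro l' h'
    rcases l' with _ | ⟨b, l'⟩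
    · rfl
    · simp [enc_lnil, enc_lcons] at h'
  | cons a l ih =>
    intro l' h'
    rcases l' with _ | ⟨b, l'⟩
    · simp [enc_lnil, enc_lcons] at h'
    · simp only [enc_lcons, D.cons.injEq] at h'
      rw [h _ _ h'.1, ih _ h'.2]

theorem enc_pair_inj {β γ : Type} [Enc β] [Enc γ] (h : ∀ a b : β, enc a = enc b → a = b)
    (h' : ∀ a b : γ, enc a = enc b → a = b) : ∀ p q : β × γ, enc p = enc q → p = q := by
  rintro ⟨a, b⟩ ⟨a', b'⟩ hh
  simp only [enc_pair, D.cons.injEq] at hh
  rw [h _ _ hh.1, h' _ _ hh.2]

theorem enc_vars_inj : ∀ a b : List Var, enc a = enc b → a = b :=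
  enc_list_inj fun _ _ h => enc_var_inj h

theorem enc_query_inj : ∀ p q : List Ex × List Var, enc p = enc q → p = q :=
  enc_pair_inj (enc_list_inj (enc_pair_inj enc_vars_inj fun _ _ h => enc_bool_inj h)) enc_vars_inj

theorem oracle_enc (G : Rows) (L : List Ex) (w : List Var) :
    oracle G (enc (L, w)) = true ↔ F G ((w, false) :: L) ≤ F G ((w, true) :: L) := by
  classical
  simp only [oracle, decide_eq_true_eq]
  constructor
  · rintro ⟨L', w', h, h'⟩
    have := enc_query_inj _ _ h
    simp only [Prod.mk.injEq] at this
    obtain ⟨rfl, rfl⟩ := this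
    exact h'
  · intro h
    exact ⟨L, w, rfl, h⟩

/-- A wrong vote of the oracle halves the remaining weight. -/
theorem F_mistake (G : Rows) (L : List Ex) (w : List Var) (b : Bool)
    (h : oracle G (enc (L, w)) ≠ b) : F G ((w, b) :: L) * 2 ≤ F G L := by
  have h1 := F_split G w L
  cases b with
  | true =>
    have h2 : ¬ F G ((w, false) :: L) ≤ F G ((w, true) :: L) := by
      rw [← oracle_enc]; exact h
    rw [mul_two]
    refine le_trans ?_ h1
    gcongr
    exact (not_le.1 h2).le
  | false =>
    have h2 : F G ((w, false) :: L) ≤ F G ((w, true) :: L) := by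
      rw [← oracle_enc]
      cases hh : oracle G (enc (L, w))
      · exact absurd hh h
      · rfl
    rw [mul_two]
    refine le_trans ?_ h1
    gcongr

end Pool.Agent.Work.MP_8ec85b_lc_or
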