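import Mathlib

/-!
The choice of the parameters.
-/

namespace Pool.Agent.Work.MP_8ec85b_lc_or

theorem bernoulli_nat {p m : ℕ} (h : 2 * m ≤ p + 1) : (p + 1) ^ m ≤ 2 * p ^ m := by
  have key : ∀ i, i ≤ m → (p + 1) ^ i * (p + 1 - i) ≤ p ^ i * (p + 1) := by
    intro i
    induction i with
    | zero => intro _; simp
    | succ i ih =>
      intro hi
      have h1 := ih (by omega)
      obtain ⟨r, hr⟩ : ∃ r, p = i + r := ⟨p - i, by omega⟩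
      have e1 : p + 1 - i = r + 1 := by omega
      have e2 : p + 1 - (i + 1) = r := by omega
      rw [e1] at h1
      rw [e2]
      calc (p + 1) ^ (i + 1) * r = (p + 1) ^ i * ((p + 1) * r) := by ring
        _ ≤ (p + 1) ^ i * (p * (r + 1)) := by
            apply Nat.mul_le_mul_left
            nlinarith
        _ = p * ((p + 1) ^ i * (r + 1)) := by ring
        _ ≤ p * (p ^ i * (p + 1)) := Nat.mul_le_mul_left _ h1
        _ = _ := by ring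
  have h1 := key m le_rfl
  have h2 : (p + 1) ^ m * (p + 1) ≤ (2 * p ^ m) * (p + 1) := by
    calc (p + 1) ^ m * (p + 1) ≤ (p + 1) ^ m * (2 * (p + 1 - m)) :=
          Nat.mul_le_mul_left _ (by omega)
      _ = 2 * ((p + 1) ^ m * (p + 1 - m)) := by ring
      _ ≤ 2 * (p ^ m * (p + 1)) := Nat.mul_le_mul_left _ h1
      _ = _ := by ring
  exact Nat.le_of_mul_le_mul_right h2 (by omega)

theorem eventually_small (m : ℕ) : ∃ t₀ : ℕ, ∀ t ≥ t₀, (t ^ m + t ^ 7) ^ 2 + 2 ≤ 2 ^ (t - 1) := by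
  have h := tendsto_pow_const_div_const_pow_of_one_lt (2 * m + 14) (r := (2 : ℝ)) (by norm_num)
  have h1 : ∀ᶠ t : ℕ in Filter.atTop, (t : ℝ) ^ (2 * m + 14) / 2 ^ t < 1 / 16 :=
    h.eventually (gt_mem_nhds (by norm_num))
  obtain ⟨t₀, ht₀⟩ := Filter.eventually_atTop.1 h1
  refine ⟨max t₀ 2, fun t ht => ?_⟩
  have ht2 : 2 ≤ t := (le_max_right _ _).trans ht
  have h2 := ht₀ t ((le_max_left _ _).trans ht)
  rw [div_lt_iff₀ (by positivity)] at h2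
  have h3 : 16 * t ^ (2 * m + 14) ≤ 2 ^ t := by
    have : (16 * (t : ℝ) ^ (2 * m + 14)) ≤ 2 ^ t := by linarith
    exact_mod_cast this
  have h4 : t ^ m ≤ t ^ (m + 7) := Nat.pow_le_pow_right (by omega) (by omega)
  have h5 : t ^ 7 ≤ t ^ (m + 7) := Nat.pow_le_pow_right (by omega) (by omega)
  have h6 : (t ^ m + t ^ 7) ^ 2 ≤ (2 * t ^ (m + 7)) ^ 2 := Nat.pow_le_pow_left (by omega) 2
  have h7 : (2 * t ^ (m + 7)) ^ 2 = 4 * t ^ (2 * m + 14) := by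
    rw [mul_pow, ← pow_mul]
    congr 2
    ring
  have h8 : 1 ≤ t ^ (2 * m + 14) := Nat.one_le_pow _ _ (by omega)
  have h9 : 2 ^ t = 2 * 2 ^ (t - 1) := by
    obtain ⟨t', rfl⟩ : ∃ t', t = t' + 1 := ⟨t - 1, by omega⟩
    simp [pow_succ, mul_comm]
  omega

theorem params (k E N : ℕ) : ∃ t p s K T : ℕ, p.Prime ∧ 2 ≤ t ∧ N ≤ s ∧ K ≤ p ∧
    T + t ≤ (s + 1) ^ 2 ∧ (s + 2) ^ k * (Nat.log 2 (p ^ t) + 2) ^ k < K ∧
    ((K * ((p ^ t + s + 2) ^ E * (p ^ t + s + 2) ^ E)) * K) ^ t * ((K + T) ^ 2 + 2) ^ s *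
      (((p + 1) / 2) ^ t) ^ s + K ^ 2 * ((p + 1) / 2 * p ^ (t - 1)) ^ s < (p ^ t) ^ s ∧
    (K * ((p ^ t + s + 2) ^ E * (p ^ t + s + 2) ^ E)) * ((p ^ t + s + 2) ^ E + 2) ^ s < 2 ^ T := by
  obtain ⟨t₀, ht₀⟩ := eventually_small (8 * (k + 1))
  set m := 8 * (k + 1) with hm
  set t := max t₀ (max N (8 * E + 20)) with ht
  have hsm := ht₀ t (le_max_left _ _)
  have htN : N ≤ t := (le_max_left _ _).trans (le_max_right _ _)
  have htE : 8 * E + 20 ≤ t := (le_max_right _ _).trans (le_max_right _ _)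
  clear_value t
  clear ht
  have ht20 : 20 ≤ t := by omega
  set K := t ^ m with hK
  have hKpos : 0 < K := Nat.pow_pos (by omega)
  obtain ⟨p, hp, hp1, hp2⟩ := Nat.exists_prime_lt_and_le_two_mul K (by omega)
  have hK8 : t ^ 8 ≤ K := Nat.pow_le_pow_right (by omega) (by omega)
  have hKsm : K ≤ 2 ^ (t - 1) := by
    have : K ≤ K * K := Nat.le_mul_of_pos_left _ hKpos
    nlinarith [Nat.zero_le (t ^ 7)]
  have h2t : 2 ^ t = 2 * 2 ^ (t - 1) := by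
    obtain ⟨t', rfl⟩ : ∃ t', t = t' + 1 := ⟨t - 1, by omega⟩
    simp [pow_succ, mul_comm]
  have hp2t : p ≤ 2 ^ t := by omega
  have hK2t : K ≤ 2 ^ t := by omega
  -- odd
  have hodd : 2 * ((p + 1) / 2) = p + 1 := by
    have h8 : 20 ^ 8 ≤ t ^ 8 := Nat.pow_le_pow_left ht20 8
    have : p ≠ 2 := by
      have : (2 : ℕ) < 20 ^ 8 := by norm_num
      omega
    obtain ⟨r, hr⟩ := hp.odd_of_ne_two this
    omega
  have hts : 2 * (t * t ^ 4) ≤ p + 1 := by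
    have : t ^ 8 = t ^ 3 * (t * t ^ 4) := by ring
    have h3 : 2 ≤ t ^ 3 := by
      calc 2 ≤ 20 ^ 3 := by norm_num
        _ ≤ t ^ 3 := Nat.pow_le_pow_left ht20 3
    nlinarith [Nat.mul_le_mul_right (t * t ^ 4) h3]
  have hn : p ^ t ≤ 2 ^ (t ^ 2) := by
    calc p ^ t ≤ (2 ^ t) ^ t := Nat.pow_le_pow_left hp2t t
      _ = 2 ^ (t ^ 2) := by rw [← pow_mul, pow_two]
  have hlog : Nat.log 2 (p ^ t) ≤ t ^ 2 := by
    calc Nat.log 2 (p ^ t) ≤ Nat.log 2 (2 ^ (t ^ 2)) := Nat.log_mono_right hn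
      _ = t ^ 2 := Nat.log_pow (by norm_num) _
  have hs2 : t ^ 4 + 2 ≤ 2 ^ t := by
    have h1 : t ^ 4 ≤ t ^ 8 := Nat.pow_le_pow_right (by omega) (by omega)
    have h2 : t ^ 8 ≤ K * K := hK8.trans (Nat.le_mul_of_pos_left _ hKpos)
    nlinarith [Nat.zero_le (t ^ 7)]
  have hns : p ^ t + t ^ 4 + 2 ≤ 2 ^ (t ^ 2 + 1) := by
    have h1 : 2 ^ t ≤ 2 ^ (t ^ 2) := Nat.pow_le_pow_right (by norm_num) (by nlinarith)
    rw [pow_succ 2 (t ^ 2)]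
    omega
  set a := (t ^ 2 + 1) * E with ha
  have h4a : 4 * a ≤ t ^ 3 := by
    have h1 : t ^ 2 + 1 ≤ 2 * t ^ 2 := by nlinarith
    have h2 : a ≤ 2 * t ^ 2 * E := Nat.mul_le_mul_right _ h1
    have h3 : t ^ 2 * (8 * E) ≤ t ^ 2 * t := Nat.mul_le_mul_left _ (by omega)
    nlinarith
  set U := (p ^ t + t ^ 4 + 2) ^ E with hU
  have hUle : U ≤ 2 ^ a := by
    calc U ≤ (2 ^ (t ^ 2 + 1)) ^ E := Nat.pow_le_pow_left hns E
      _ = 2 ^ a := by rw [← pow_mul]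
  have hUU : U * U ≤ 2 ^ (2 * a) := by
    calc U * U ≤ 2 ^ a * 2 ^ a := Nat.mul_le_mul hUle hUle
      _ = 2 ^ (2 * a) := by rw [← pow_add]; congr 1; ring
  have ht3 : 400 * t ≤ t ^ 3 := by
    have : t ^ 3 = t * t * t := by ring
    nlinarith [Nat.mul_le_mul ht20 ht20, Nat.mul_le_mul_right t (Nat.mul_le_mul ht20 ht20)]
  have ht4 : t ^ 4 = t ^ 3 * t := by ring
  have ht7 : t ^ 7 = t ^ 3 * t ^ 4 := by ring
  refine ⟨t, p, t ^ 4, K, t ^ 7, hp, by omega, ?_, hp1.le, ?_, ?_, ?_, ?_⟩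
  · calc N ≤ t ^ 1 := by simpa using htN
      _ ≤ t ^ 4 := Nat.pow_le_pow_right (by omega) (by norm_num)
  · have h1 : (t ^ 4 + 1) ^ 2 = t ^ 7 * t + 2 * t ^ 4 + 1 := by ring
    have h2 : t ≤ t ^ 4 := by
      calc t = t ^ 1 := (pow_one t).symm
        _ ≤ t ^ 4 := Nat.pow_le_pow_right (by omega) (by norm_num)
    have h3 : t ^ 7 ≤ t ^ 7 * t := Nat.le_mul_of_pos_right _ (by omega)
    omega
  · have h1 : (t ^ 4 + 2) * (t ^ 2 + 2) ≤ t ^ 8 := by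
      have e1 : t ^ 4 + 2 ≤ 2 * t ^ 4 := by
        have : 2 ≤ t ^ 4 := by
          calc 2 ≤ 20 ^ 4 := by norm_num
            _ ≤ t ^ 4 := Nat.pow_le_pow_left ht20 4
        omega
      have e2 : t ^ 2 + 2 ≤ 2 * t ^ 2 := by nlinarith
      have e3 : 4 ≤ t ^ 2 := by nlinarith
      calc (t ^ 4 + 2) * (t ^ 2 + 2) ≤ (2 * t ^ 4) * (2 * t ^ 2) := Nat.mul_le_mul e1 e2
        _ = 4 * t ^ 6 := by ring
        _ ≤ t ^ 2 * t ^ 6 := Nat.mul_le_mul_right _ e3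
        _ = t ^ 8 := by ring
    calc (t ^ 4 + 2) ^ k * (Nat.log 2 (p ^ t) + 2) ^ k ≤ (t ^ 4 + 2) ^ k * (t ^ 2 + 2) ^ k :=
          Nat.mul_le_mul_left _ (Nat.pow_le_pow_left (by omega) k)
      _ = ((t ^ 4 + 2) * (t ^ 2 + 2)) ^ k := by rw [mul_pow]
      _ ≤ (t ^ 8) ^ k := Nat.pow_le_pow_left h1 k
      _ = t ^ (8 * k) := by rw [← pow_mul]
      _ < t ^ m := Nat.pow_lt_pow_right (by omega) (by omega)
      _ = K := rfl
  · -- the two unions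
    change (K * (U * U) * K) ^ t * ((K + t ^ 7) ^ 2 + 2) ^ t ^ 4 * (((p + 1) / 2) ^ t) ^ t ^ 4 +
      K ^ 2 * ((p + 1) / 2 * p ^ (t - 1)) ^ t ^ 4 < (p ^ t) ^ t ^ 4
    have hW : (p ^ t) ^ t ^ 4 = p ^ (t * t ^ 4) := by rw [← pow_mul]
    have hWpos : 0 < (p ^ t) ^ t ^ 4 := Nat.pow_pos (Nat.pow_pos hp.pos)
    have h1 : 2 ^ (t * t ^ 4) * (((p + 1) / 2) ^ t) ^ t ^ 4 ≤ 2 * (p ^ t) ^ t ^ 4 := by
      rw [← pow_mul ((p + 1) / 2), ← mul_pow, hodd, hW]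
      exact bernoulli_nat hts
    have h2 : 2 ^ (t ^ 4) * ((p + 1) / 2 * p ^ (t - 1)) ^ t ^ 4 ≤ 2 * (p ^ t) ^ t ^ 4 := by
      rw [← mul_pow, ← mul_assoc, hodd, mul_pow]
      have e1 : (p + 1) ^ t ^ 4 ≤ 2 * p ^ t ^ 4 := bernoulli_nat (by
        have : t ^ 4 ≤ t * t ^ 4 := Nat.le_mul_of_pos_left _ (by omega)
        omega)
      calc (p + 1) ^ t ^ 4 * (p ^ (t - 1)) ^ t ^ 4 ≤ 2 * p ^ t ^ 4 * (p ^ (t - 1)) ^ t ^ 4 :=
            Nat.mul_le_mul_right _ e1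
        _ = 2 * (p * p ^ (t - 1)) ^ t ^ 4 := by rw [mul_pow]; ring
        _ = 2 * (p ^ t) ^ t ^ 4 := by
            congr 2
            obtain ⟨t', rfl⟩ : ∃ t', t = t' + 1 := ⟨t - 1, by omega⟩
            simp [pow_succ, mul_comm]
    have h3 : (K * (U * U) * K) ^ t ≤ 2 ^ ((2 * t + 2 * a) * t) := by
      calc (K * (U * U) * K) ^ t ≤ (2 ^ t * 2 ^ (2 * a) * 2 ^ t) ^ t :=
            Nat.pow_le_pow_left (Nat.mul_le_mul (Nat.mul_le_mul hK2t hUU) hK2t) t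
        _ = _ := by
            rw [← pow_add, ← pow_add, ← pow_mul]
            congr 1
            ring
    have h4 : ((K + t ^ 7) ^ 2 + 2) ^ t ^ 4 ≤ 2 ^ ((t - 1) * t ^ 4) := by
      calc _ ≤ (2 ^ (t - 1)) ^ t ^ 4 := Nat.pow_le_pow_left hsm _
        _ = _ := by rw [← pow_mul]
    have h5 : 4 * ((K * (U * U) * K) ^ t * ((K + t ^ 7) ^ 2 + 2) ^ t ^ 4 *
        (((p + 1) / 2) ^ t) ^ t ^ 4) ≤ (p ^ t) ^ t ^ 4 := by
      have hexp : 3 + (2 * t + 2 * a) * t + (t - 1) * t ^ 4 ≤ t * t ^ 4 := by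
        have e1 : (t - 1) * t ^ 4 + t ^ 4 = t * t ^ 4 := by
          obtain ⟨t', rfl⟩ : ∃ t', t = t' + 1 := ⟨t - 1, by omega⟩
          simp only [Nat.add_sub_cancel]
          ring
        have e2 : 3 + (2 * t + 2 * a) * t ≤ t ^ 4 := by
          have : 4 * a * t ≤ t ^ 3 * t := Nat.mul_le_mul_right _ h4a
          have h6 : 400 * t * t ≤ t ^ 3 * t := Nat.mul_le_mul_right _ ht3
          nlinarith
        omega
      have hmul : 2 ^ (t * t ^ 4) * (4 * ((K * (U * U) * K) ^ t *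
          ((K + t ^ 7) ^ 2 + 2) ^ t ^ 4 * (((p + 1) / 2) ^ t) ^ t ^ 4)) ≤
          2 ^ (t * t ^ 4) * (p ^ t) ^ t ^ 4 := by
        calc 2 ^ (t * t ^ 4) * (4 * ((K * (U * U) * K) ^ t *
              ((K + t ^ 7) ^ 2 + 2) ^ t ^ 4 * (((p + 1) / 2) ^ t) ^ t ^ 4))
            = 4 * (K * (U * U) * K) ^ t * ((K + t ^ 7) ^ 2 + 2) ^ t ^ 4 *
              (2 ^ (t * t ^ 4) * (((p + 1) / 2) ^ t) ^ t ^ 4) := by ring
          _ ≤ 4 * 2 ^ ((2 * t + 2 * a) * t) * 2 ^ ((t - 1) * t ^ 4) *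
              (2 * (p ^ t) ^ t ^ 4) :=
              Nat.mul_le_mul (Nat.mul_le_mul (Nat.mul_le_mul_left _ h3) h4) h1
          _ = 2 ^ (3 + (2 * t + 2 * a) * t + (t - 1) * t ^ 4) * (p ^ t) ^ t ^ 4 := by
              rw [pow_add, pow_add]
              ring
          _ ≤ _ := Nat.mul_le_mul_right _ (Nat.pow_le_pow_right (by norm_num) hexp)
      exact Nat.le_of_mul_le_mul_left hmul (by positivity)
    have h6 : 4 * (K ^ 2 * ((p + 1) / 2 * p ^ (t - 1)) ^ t ^ 4) ≤ (p ^ t) ^ t ^ 4 := by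
      have hexp : 3 + 2 * t ≤ t ^ 4 := by
        have h6 : 400 * t * t ≤ t ^ 3 * t := Nat.mul_le_mul_right _ ht3
        nlinarith
      have hmul : 2 ^ (t ^ 4) * (4 * (K ^ 2 * ((p + 1) / 2 * p ^ (t - 1)) ^ t ^ 4)) ≤
          2 ^ (t ^ 4) * (p ^ t) ^ t ^ 4 := by
        calc 2 ^ (t ^ 4) * (4 * (K ^ 2 * ((p + 1) / 2 * p ^ (t - 1)) ^ t ^ 4))
            = 4 * K ^ 2 * (2 ^ (t ^ 4) * ((p + 1) / 2 * p ^ (t - 1)) ^ t ^ 4) := by ring
          _ ≤ 4 * (2 ^ t) ^ 2 * (2 * (p ^ t) ^ t ^ 4) :=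
              Nat.mul_le_mul (Nat.mul_le_mul_left _ (Nat.pow_le_pow_left hK2t 2)) h2
          _ = 2 ^ (3 + 2 * t) * (p ^ t) ^ t ^ 4 := by
              rw [pow_add, mul_comm 2 t, pow_mul]
              ring
          _ ≤ _ := Nat.mul_le_mul_right _ (Nat.pow_le_pow_right (by norm_num) hexp)
      exact Nat.le_of_mul_le_mul_left hmul (by positivity)
    omega
  · -- the functions
    have h1 : U + 2 ≤ 2 ^ (a + 2) := by
      have : 1 ≤ 2 ^ a := Nat.one_le_pow _ _ (by norm_num)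
      rw [pow_add]
      omega
    have hexp : t + 2 * a + (a + 2) * t ^ 4 < t ^ 7 := by
      have e1 : 4 * a * t ^ 4 ≤ t ^ 3 * t ^ 4 := Nat.mul_le_mul_right _ h4a
      have e2 : 8000 ≤ t ^ 3 := by
        calc 8000 = 20 ^ 3 := by norm_num
          _ ≤ t ^ 3 := Nat.pow_le_pow_left ht20 3
      have e3 : 8000 * t ^ 4 ≤ t ^ 3 * t ^ 4 := Nat.mul_le_mul_right _ e2
      have e4 : t ^ 3 ≤ t ^ 4 := Nat.pow_le_pow_right (by omega) (by norm_num)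
      have e5 : 0 < t ^ 4 := Nat.pow_pos (by omega)
      nlinarith
    calc K * (U * U) * (U + 2) ^ t ^ 4 ≤ 2 ^ t * 2 ^ (2 * a) * (2 ^ (a + 2)) ^ t ^ 4 :=
          Nat.mul_le_mul (Nat.mul_le_mul hK2t hUU) (Nat.pow_le_pow_left h1 _)
      _ = 2 ^ (t + 2 * a + (a + 2) * t ^ 4) := by
          rw [← pow_mul, ← pow_add, ← pow_add]
      _ < 2 ^ t ^ 7 := Nat.pow_lt_pow_right (by norm_num) hexp

end Pool.Agent.Work.MP_8ec85b_lc_or
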