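import Pool.Agent.Work.MP_8ec85b_lc_or.Terms

/-!
The run of a learner against an adversary which always answers with the opposite of the
prediction.
-/

namespace Pool.Agent.Work.MP_8ec85b_lc_or

open Pool.Agent.Work.MP_8ec85b_lc

open Classical in
/-- The prediction given by a term. -/
noncomputable def tpred (O : D → Bool) (tp : Tm) (d x : D) : Bool :=
  decide (eval O tp (D.cons d x) ≠ D.nil)

/-- The update given by a term. -/
noncomputable def tupd (O : D → Bool) (tu : Tm) (d x : D) (b : Bool) : D :=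
  eval O tu (D.cons d (D.cons x (enc b)))

/-- The states in the run against the adversary. -/
noncomputable def st (O : D → Bool) (tp tu : Tm) (d₀ : D) (xe : ℕ → D) : ℕ → D
  | 0 => d₀
  | j + 1 => tupd O tu (st O tp tu d₀ xe j) (xe j) (!tpred O tp (st O tp tu d₀ xe j) (xe j))

theorem step_uses (tp tu : Tm) : ∃ E : ℕ, ∀ (O : D → Bool) (d x : D) (b : Bool) (M : ℕ),
    d.size ≤ M → x.size ≤ M → ∃ Q : Finset D, Q.card ≤ (M + 2) ^ E ∧
      (∀ q ∈ Q, q.size ≤ (M + 2) ^ E) ∧ ∀ O' : D → Bool, (∀ q ∈ Q, O' q = O q) →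
        eval O' tp (D.cons d x) = eval O tp (D.cons d x) ∧
        eval O' tu (D.cons d (D.cons x (enc b))) = eval O tu (D.cons d (D.cons x (enc b))) := by
  classical
  obtain ⟨a, ha⟩ := use tp
  obtain ⟨b, hb⟩ := use tu
  refine ⟨3 * a + 3 * b + 1, fun O d x c M hd hx => ?_⟩
  have hM : 2 * M + 7 ≤ (M + 2) ^ 3 := by nlinarith [Nat.zero_le (M * M), Nat.zero_le (M * M * M)]
  obtain ⟨Q, h1, h2, h3⟩ := (ha O (D.cons d x)).1
  obtain ⟨Q', h1', h2', h3'⟩ := (hb O (D.cons d (D.cons x (enc c)))).1
  have hc := enc_bool_size_le c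
  have e1 : ((D.cons d x).size + 2) ^ a ≤ (M + 2) ^ (3 * a) := by
    rw [pow_mul]
    apply Nat.pow_le_pow_left
    simp only [D.size]; omega
  have e2 : ((D.cons d (D.cons x (enc c))).size + 2) ^ b ≤ (M + 2) ^ (3 * b) := by
    rw [pow_mul]
    apply Nat.pow_le_pow_left
    simp only [D.size]; omega
  refine ⟨Q ∪ Q', ?_, ?_, ?_⟩
  · refine (Finset.card_union_le _ _).trans ?_
    have := pow_add_pow_le (s := M) (a := 3 * a) (b := 3 * b)
    omega
  · intro q hq
    rcases Finset.mem_union.1 hq with h | h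
    · exact ((h2 q h).trans e1).trans (pow_le_of_le (by omega))
    · exact ((h2' q h).trans e2).trans (pow_le_of_le (by omega))
  · intro O' hO'
    exact ⟨h3 O' (fun q hq => hO' q (Finset.mem_union_left _ hq)),
      h3' O' (fun q hq => hO' q (Finset.mem_union_right _ hq))⟩

/-- The encoded examples. -/
def xe {n : ℕ} (x : ℕ → Fin n → Bool) (j : ℕ) : D := enc (List.ofFn (x j))

theorem run_agree {O O' : D → Bool} {tp tu : Tm} {d₀ : D} {A : Learner (List Bool)}
    (hp : ∀ (d : D) (y : List Bool), eval O' tp (enc (d, y)) = enc (A.pred d y))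
    (hu : ∀ (d : D) (y : List Bool) (b : Bool), eval O' tu (enc (d, (y, b))) =
      enc (A.upd d y b)) {n : ℕ} {c : (Fin n → Bool) → Bool} {x : ℕ → Fin n → Bool} {J : ℕ}
    (hlab : ∀ j < J, c (x j) = !tpred O tp (st O tp tu d₀ (xe x) j)
      (xe x j))
    (hag : ∀ j < J, eval O' tp (D.cons (st O tp tu d₀ (xe x) j)
        (xe x j)) =
        eval O tp (D.cons (st O tp tu d₀ (xe x) j)
        (xe x j)) ∧
      eval O' tu (D.cons (st O tp tu d₀ (xe x) j)
        (D.cons (xe x j) (enc (!tpred O tp (st O tp tu d₀ (xe x) j) (xe x j))))) =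
        eval O tu (D.cons (st O tp tu d₀ (xe x) j)
        (D.cons (xe x j) (enc (!tpred O tp (st O tp tu d₀ (xe x) j) (xe x j)))))) :
    ∀ m i, i + m = J →
      A.final (st O tp tu d₀ (xe x) i)
        (cubeRun c ((List.range' i m).map x)) =
        st O tp tu d₀ (xe x) J ∧
      A.mistakes (st O tp tu d₀ (xe x) i)
        (cubeRun c ((List.range' i m).map x)) = m := by
  classical
  intro m
  induction m with
  | zero =>
    intro i hi
    obtain rfl : i = J := by omega
    exact ⟨rfl, rfl⟩
  | succ m ih =>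
    intro i hi
    obtain ⟨ih1, ih2⟩ := ih (i + 1) (by omega)
    obtain ⟨h1, h2⟩ := hag i (by omega)
    have h3 := hlab i (by omega)
    have hpred : A.pred (st O tp tu d₀ (xe x) i) (List.ofFn (x i)) =
        tpred O tp (st O tp tu d₀ (xe x) i)
          (xe x i) := by
      have e1 := h1.symm.trans (hp (st O tp tu d₀ (xe x) i) (List.ofFn (x i)))
      rw [tpred, e1]
      cases A.pred (st O tp tu d₀ (xe x) i) (List.ofFn (x i)) <;>
        simp [enc_true, enc_false]
    have hupd : A.upd (st O tp tu d₀ (xe x) i) (List.ofFn (x i))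
        (c (x i)) = st O tp tu d₀ (xe x) (i + 1) := by
      have e1 := hu (st O tp tu d₀ (xe x) i) (List.ofFn (x i)) (c (x i))
      rw [h3]
      rw [h3] at e1
      exact (e1.symm.trans h2)
    have hrun : cubeRun c ((List.range' i (m + 1)).map x) =
        (List.ofFn (x i), c (x i)) :: cubeRun c ((List.range' (i + 1) m).map x) := by
      rw [List.range'_succ]
      rfl
    rw [hrun]
    simp only [Learner.final, Learner.mistakes]
    rw [hupd, ih1, ih2, hpred, h3]
    refine ⟨rfl, ?_⟩
    cases tpred O tp (st O tp tu d₀ (xe x) i) (xe x i) <;>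
      simp <;> omega

end Pool.Agent.Work.MP_8ec85b_lc_or
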