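import Pool.Agent.Work.MP_8ec85b_lc_or.Heart
import Pool.Agent.Work.MP_8ec85b_lc_or.Ineq
import Pool.Agent.Work.MP_8ec85b_lc_or.Run

/-!
One stage of the construction: a new row which defeats a given learner.
-/

namespace Pool.Agent.Work.MP_8ec85b_lc_or

open Pool.Agent.Work.MP_8ec85b_lc

/-- The learner given by the terms `tp`, `tu`, the initial state `d₀` and the exponent `k` does
not learn the class of `H` attribute-efficiently with the oracle of `H`. -/
def Beats (H : Rows) (tp tu : Tm) (d₀ : D) (k : ℕ) : Prop :=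
  ∀ A : Learner (List Bool), A.init = d₀ →
    (∀ (d : D) (y : List Bool), eval (oracle H) tp (enc (d, y)) = enc (A.pred d y)) →
    (∀ (d : D) (y : List Bool) (b : Bool), eval (oracle H) tu (enc (d, (y, b))) =
      enc (A.upd d y b)) →
    ¬ ∀ (n : ℕ) (c : (Fin n → Bool) → Bool), (cls H).mem n c → ∀ xs : List (Fin n → Bool),
      A.mistakes A.init (cubeRun c xs) ≤ ((cls H).size n c + 2) ^ k * (Nat.log 2 n + 2) ^ k ∧
      (A.final A.init (cubeRun c xs)).size ≤ (n + (cls H).size n c + 2) ^ k

theorem names_le_size (L : List Ex) : (names L).length + 1 ≤ (enc L).size := by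
  induction L with
  | nil => simp [names, enc_lnil, D.size]
  | cons e L ih =>
    obtain ⟨w, b⟩ := e
    have h1 := length_le_size_enc w
    have h2 := enc_size_pos b
    simp only [names, List.length_append, enc_lcons, enc_pair, D.size]
    omega

theorem size_enc_ofFn {n : ℕ} (x : Fin n → Bool) : (enc (List.ofFn x)).size ≤ 4 * n + 1 := by
  have := size_enc_list_le (l := List.ofFn x) (M := 3) (fun b _ => enc_bool_size_le b)
  simp only [List.length_ofFn] at this
  omega

open Classical in
/-- All suffixes of the list in a question. -/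
noncomputable def sufs (q : D) : Finset (List Ex) :=
  if h : ∃ p : List Ex × List Var, q = enc p then h.choose.1.tails.toFinset else ∅

theorem mem_sufs {q : D} {Λ : List Ex} :
    Λ ∈ sufs q ↔ ∃ (L : List Ex) (w : List Var), q = enc (L, w) ∧ Λ <:+ L := by
  classical
  by_cases h : ∃ p : List Ex × List Var, q = enc p
  · simp only [sufs, dif_pos h, List.mem_toFinset, List.mem_tails]
    constructor
    · intro h'
      exact ⟨h.choose.1, h.choose.2, h.choose_spec, h'⟩
    · rintro ⟨L, w, hq, h'⟩
      have := enc_query_inj _ _ (h.choose_spec.symm.trans hq)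
      rw [this]
      exact h'
  · simp only [sufs, dif_neg h]
    constructor
    · intro h'; simp at h'
    · rintro ⟨L, w, hq, _⟩
      exact absurd ⟨_, hq⟩ h

theorem card_sufs (q : D) : (sufs q).card ≤ q.size := by
  classical
  by_cases h : ∃ p : List Ex × List Var, q = enc p
  · simp only [sufs, dif_pos h]
    have h1 := h.choose_spec
    have h2 := length_le_size_enc h.choose.1
    have h3 := enc_size_pos h.choose.2
    have h4 : q.size = (enc h.choose.1).size + (enc h.choose.2).size + 1 := by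
      conv_lhs => rw [h1]
      rfl
    refine (List.toFinset_card_le _).trans ?_
    rw [List.length_tails]
    omega
  · have h' : sufs q = ∅ := dif_neg h
    rw [h']
    simp

theorem stage (tp tu : Tm) (d₀ : D) (k N : ℕ) (G : Rows) :
    ∃ N' > N, ∃ G' : Rows, (∀ m < N, G' m = G m) ∧
      ∀ H : Rows, (∀ m < N', H m = G' m) → Beats H tp tu d₀ k := by
  classical
  obtain ⟨E, hE⟩ := step_uses tp tu
  obtain ⟨t, p, s, K, T, hp, ht, hN, hKp, hT, hK, hun1, hun2⟩ := params k ((k + 4) * E) N
  have : Fact p.Prime := ⟨hp⟩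
  set n := p ^ t with hn
  set U := (n + s + 2) ^ ((k + 4) * E) with hU
  have hcardκ : Fintype.card (Fin t → ZMod p) = n := by simp [hn]
  let e : (Fin t → ZMod p) ≃ Fin n := Fintype.equivFinOfCardEq hcardκ
  let x : ℕ → Fin n → Bool := fun j i => bit (ev (e.symm i) (j : ZMod p))
  let G₀ : Rows := fun m => if m < N then G m else none
  let O := oracle G₀
  let σ : ℕ → D := st O tp tu d₀ (xe x)
  let lab : ℕ → Bool := fun j => !tpred O tp (σ j) (xe x j)
  -- the length of the run
  obtain ⟨J, hJK, hJ1, hJ2⟩ : ∃ J ≤ K, (∀ j < J, (σ j).size ≤ (n + s + 2) ^ k) ∧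
      (J = K ∨ (n + s + 2) ^ k < (σ J).size) := by
    by_cases h : ∃ j, j ≤ K ∧ (n + s + 2) ^ k < (σ j).size
    · refine ⟨Nat.find h, (Nat.find_spec h).1, fun j hj => ?_, Or.inr (Nat.find_spec h).2⟩
      have := Nat.find_min h hj
      have h2 := (Nat.find_spec h).1
      by_contra hcon
      exact this ⟨by omega, by omega⟩
    · push Not at h
      exact ⟨K, le_rfl, fun j hj => h j hj.le, Or.inl rfl⟩
  -- the questions
  have hQ : ∀ j, ∃ Q : Finset D, j < J → (Q.card ≤ U ∧ (∀ q ∈ Q, q.size ≤ U) ∧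
      ∀ O' : D → Bool, (∀ q ∈ Q, O' q = O q) →
        eval O' tp (D.cons (σ j) (xe x j)) = eval O tp (D.cons (σ j) (xe x j)) ∧
        eval O' tu (D.cons (σ j) (D.cons (xe x j) (enc (lab j)))) =
          eval O tu (D.cons (σ j) (D.cons (xe x j) (enc (lab j))))) := by
    intro j
    by_cases hj : j < J
    · have h1 : (σ j).size ≤ (n + s + 2) ^ (k + 3) :=
        (hJ1 j hj).trans (Nat.pow_le_pow_right (by omega) (by omega))
      have h2 : (xe x j).size ≤ (n + s + 2) ^ (k + 3) := by
        have e1 : (xe x j).size ≤ 4 * n + 1 := size_enc_ofFn _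
        have e2 : 4 * n + 1 ≤ (n + 2) ^ 3 := by
          nlinarith [Nat.zero_le (n * n), Nat.zero_le (n * n * n)]
        have e3 : (n + 2) ^ 3 ≤ (n + s + 2) ^ 3 := Nat.pow_le_pow_left (by omega) 3
        have e4 : (n + s + 2) ^ 3 ≤ (n + s + 2) ^ (k + 3) :=
          Nat.pow_le_pow_right (by omega) (by omega)
        omega
      obtain ⟨Q, q1, q2, q3⟩ := hE O (σ j) (xe x j) (lab j) _ h1 h2
      have h3 : ((n + s + 2) ^ (k + 3) + 2) ^ E ≤ U := by
        rw [hU, pow_mul]
        apply Nat.pow_le_pow_left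
        have e1 : (n + s + 2) ^ (k + 4) = (n + s + 2) ^ (k + 3) * (n + s + 2) := pow_succ _ _
        have e2 : (n + s + 2) ^ (k + 3) * 2 ≤ (n + s + 2) ^ (k + 3) * (n + s + 2) :=
          Nat.mul_le_mul_left _ (by omega)
        have e3 : 2 ^ 1 ≤ (n + s + 2) ^ 1 := by simp
        have e4 : (n + s + 2) ^ 1 ≤ (n + s + 2) ^ (k + 3) :=
          Nat.pow_le_pow_right (by omega) (by omega)
        omega
      exact ⟨Q, fun _ => ⟨q1.trans h3, fun q hq => (q2 q hq).trans h3, q3⟩⟩
    · exact ⟨∅, fun h => absurd h hj⟩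
  choose Q hQ using hQ
  let QQ : Finset D := (Finset.range J).biUnion Q
  have hQQsize : ∀ q ∈ QQ, q.size ≤ U := by
    intro q hq
    obtain ⟨j, hj, hq'⟩ := Finset.mem_biUnion.1 hq
    exact (hQ j (Finset.mem_range.1 hj)).2.1 q hq'
  let 𝓛 : Finset (List Ex) := QQ.biUnion sufs
  have hcard𝓛 : 𝓛.card ≤ K * (U * U) := by
    calc 𝓛.card ≤ ∑ q ∈ QQ, (sufs q).card := Finset.card_biUnion_le
      _ ≤ ∑ _q ∈ QQ, U := Finset.sum_le_sum fun q hq => (card_sufs q).trans (hQQsize q hq)
      _ = QQ.card * U := by simp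
      _ ≤ (K * U) * U := by
          apply Nat.mul_le_mul_right
          calc QQ.card ≤ ∑ j ∈ Finset.range J, (Q j).card := Finset.card_biUnion_le
            _ ≤ ∑ _j ∈ Finset.range J, U :=
                Finset.sum_le_sum fun j hj => (hQ j (Finset.mem_range.1 hj)).1
            _ = J * U := by simp
            _ ≤ K * U := Nat.mul_le_mul_right _ hJK
      _ = _ := by ring
  have hsuf : ∀ L ∈ 𝓛, ∀ Λ, Λ <:+ L → Λ ∈ 𝓛 := by
    intro L hL Λ hΛ
    obtain ⟨q, hq, hL'⟩ := Finset.mem_biUnion.1 hL
    obtain ⟨L', w, h1, h2⟩ := mem_sufs.1 hL'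
    exact Finset.mem_biUnion.2 ⟨q, hq, mem_sufs.2 ⟨L', w, h1, hΛ.trans h2⟩⟩
  have hsize : ∀ q ∈ QQ, ∀ (L : List Ex) (w : List Var), q = enc (L, w) →
      (enc L).size ≤ U := by
    intro q hq L w hqe
    have h1 := hQQsize q hq
    rw [hqe, enc_pair] at h1
    simp only [D.size] at h1
    omega
  have hnames : ∀ L ∈ 𝓛, (names L).length ≤ U := by
    intro L hL
    obtain ⟨q, hq, hL'⟩ := Finset.mem_biUnion.1 hL
    obtain ⟨L', w, h1, h2⟩ := mem_sufs.1 hL'
    have h3 := hsize q hq L' w h1
    have h4 := names_le_size L'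
    have h5 := (names_prefix h2).length_le
    omega
  -- the new row
  obtain ⟨S, g, hg1, hg2⟩ := heart (p := p) (t := t) (s := s) (K := K) (T := T)
    (R₀ := (K + T) ^ 2) (U := U) ht hKp hT le_rfl 𝓛 hsuf hnames
    (lt_of_le_of_lt (Nat.add_le_add_right (Nat.mul_le_mul_right _ (Nat.mul_le_mul_right _
      (Nat.pow_le_pow_left (Nat.mul_le_mul_right _ hcard𝓛) t))) _) hun1)
    (lt_of_le_of_lt (Nat.mul_le_mul_right _ hcard𝓛) hun2)
    (fun j => lab j)
  let G' : Rows := fun m => if m < N then G m else if m = s then some g else none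
  refine ⟨U + s + 1, by omega, G', fun m hm => by simp [G', hm], ?_⟩
  intro H hH A hinit hAp hAu hall
  have hHs : H s = some g := by
    rw [hH s (by omega)]
    simp [G', not_lt.2 hN]
  -- the oracles agree on all questions
  have hagree : ∀ q ∈ QQ, oracle H q = O q := by
    intro q hq
    apply oracle_congr
    intro L w hqe z
    have hL : L ∈ 𝓛 := Finset.mem_biUnion.2 ⟨q, hq, mem_sufs.2 ⟨L, w, hqe, List.suffix_rfl⟩⟩
    rcases Nat.lt_or_ge z.length N with h1 | h1
    · left
      rw [hH _ (by omega)]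
      simp [G', G₀, h1]
    · rcases Nat.lt_or_ge z.length (U + s + 1) with h2 | h2
      · by_cases h3 : z.length = s
        · right
          intro Λ hΛ hthr
          constructor
          · rintro ⟨g', hg', hcon⟩
            rw [h3, hHs] at hg'
            obtain rfl := Option.some.inj hg'
            rw [h3] at hthr
            exact hg2 z h3 Λ (hsuf L hL Λ hΛ) hthr hcon
          · rintro ⟨g', hg', _⟩
            simp [G₀, not_lt.2 h1] at hg'
        · left
          rw [hH _ h2]
          simp [G', G₀, not_lt.2 h1, h3]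
      · right
        intro Λ hΛ hthr
        exfalso
        refine thr_gt_length (s := z.length) ?_ hthr
        have e1 := length_le_size_enc L
        have e2 := hsize q hq L w hqe
        have e3 := hΛ.length_le
        have e4 : z.length + 1 ≤ (z.length + 1) ^ 2 := by nlinarith
        omega
  -- the target
  let c : (Fin n → Bool) → Bool := fun y => g (List.ofFn (fun i => y (e (S i))))
  have hrep : Rep H n c (List.ofFn (fun i => Sum.inl (e (S i)))) := by
    refine ⟨g, by simpa using hHs, fun y => ?_⟩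
    rw [List.map_ofFn]
    rfl
  have hcsize : (cls H).size n c ≤ s := by simpa using cls_size_le hrep
  have hcx : ∀ j < J, c (x j) = !tpred O tp (st O tp tu d₀ (xe x) j) (xe x j) := by
    intro j hj
    have h1 := hg1 ⟨j, by omega⟩
    have h2 : c (x j) = g (rowAt S (⟨j, by omega⟩ : Fin K)) := by
      simp only [c, x, rowAt, Equiv.symm_apply_apply]
    rw [h2, h1]
  have hrun := run_agree (O := O) (O' := oracle H) (tp := tp) (tu := tu) (d₀ := d₀) (A := A)
    hAp hAu (c := c) (x := x) (J := J) hcx (fun j hj => by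
      have h1 := (hQ j hj).2.2 (oracle H) (fun q hq =>
        hagree q (Finset.mem_biUnion.2 ⟨j, Finset.mem_range.2 hj, hq⟩))
      exact h1) J 0 (by omega)
  obtain ⟨hfin, hmis⟩ := hrun
  obtain ⟨hb1, hb2⟩ := hall n c ⟨_, hrep⟩ ((List.range' 0 J).map x)
  rw [hinit] at hb1 hb2
  have hfin' : A.final d₀ (cubeRun c ((List.range' 0 J).map x)) = σ J := hfin
  have hmis' : A.mistakes d₀ (cubeRun c ((List.range' 0 J).map x)) = J := hmis
  rw [hmis'] at hb1
  rw [hfin'] at hb2
  rcases hJ2 with hJ2 | hJ2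
  · have h1 : ((cls H).size n c + 2) ^ k * (Nat.log 2 n + 2) ^ k ≤
        (s + 2) ^ k * (Nat.log 2 n + 2) ^ k :=
      Nat.mul_le_mul_right _ (Nat.pow_le_pow_left (by omega) k)
    omega
  · have h1 : (n + (cls H).size n c + 2) ^ k ≤ (n + s + 2) ^ k :=
      Nat.pow_le_pow_left (by omega) k
    omega

end Pool.Agent.Work.MP_8ec85b_lc_or
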