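import Pool.Agent.Work.MP_8ec85b_lc_or.Count
import Pool.Agent.Work.MP_8ec85b_lc_or.Stage

/-!
The construction of the family of rows: all learners are defeated one after the other.
-/

namespace Pool.Agent.Work.MP_8ec85b_lc_or

open Pool.Agent.Work.MP_8ec85b_lc

theorem exists_rows : ∃ H : Rows, ∀ tp tu d₀ k, Beats H tp tu d₀ k := by
  classical
  obtain ⟨f, hf⟩ := exists_surjective_nat (Tm × Tm × D × ℕ)
  -- the stages
  have hst : ∀ (i : ℕ) (q : ℕ × Rows), ∃ q' : ℕ × Rows, q.1 < q'.1 ∧ (∀ m < q.1, q'.2 m = q.2 m) ∧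
      ∀ H : Rows, (∀ m < q'.1, H m = q'.2 m) →
        Beats H (f i).1 (f i).2.1 (f i).2.2.1 (f i).2.2.2 := by
    intro i q
    obtain ⟨N', h1, G', h2, h3⟩ := stage (f i).1 (f i).2.1 (f i).2.2.1 (f i).2.2.2 q.1 q.2
    exact ⟨(N', G'), h1, h2, h3⟩
  choose nx hnx using hst
  let s : ℕ → ℕ × Rows := fun i => Nat.rec (0, fun _ => none) (fun i q => nx i q) i
  have hs : ∀ i, s (i + 1) = nx i (s i) := fun i => rfl
  have hle : ∀ i, i ≤ (s i).1 := by
    intro i
    induction i with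
    | zero => exact Nat.zero_le _
    | succ i ih =>
      have := (hnx i (s i)).1
      rw [hs]
      omega
  have hmono : ∀ i j, (s i).1 ≤ (s (i + j)).1 ∧ ∀ m < (s i).1, (s (i + j)).2 m = (s i).2 m := by
    intro i j
    induction j with
    | zero => exact ⟨le_rfl, fun m _ => rfl⟩
    | succ j ih =>
      obtain ⟨h1, h2, _⟩ := hnx (i + j) (s (i + j))
      have e : s (i + (j + 1)) = nx (i + j) (s (i + j)) := hs (i + j)
      rw [e]
      exact ⟨by omega, fun m hm => by rw [h2 m (by omega), ih.2 m hm]⟩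
  let H : Rows := fun m => (s (m + 1)).2 m
  have hH : ∀ i, ∀ m < (s i).1, H m = (s i).2 m := by
    intro i m hm
    rcases Nat.le_total i (m + 1) with h | h
    · obtain ⟨j, hj⟩ := Nat.exists_eq_add_of_le h
      have := (hmono i j).2 m hm
      rw [← hj] at this
      exact this
    · obtain ⟨j, hj⟩ := Nat.exists_eq_add_of_le h
      have h1 := hle (m + 1)
      have := (hmono (m + 1) j).2 m (by omega)
      rw [← hj] at this
      exact this.symm
  refine ⟨H, fun tp tu d₀ k => ?_⟩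
  obtain ⟨i, hi⟩ := hf (tp, tu, d₀, k)
  have := (hnx i (s i)).2.2 H (fun m hm => by
    have := hH (i + 1) m (by rw [hs]; exact hm)
    rw [this, hs])
  rw [hi] at this
  exact this

theorem not_ae {H : Rows} (hH : ∀ tp tu d₀ k, Beats H tp tu d₀ k) :
    ¬ AELearnableO (oracle H) (cls H) := by
  rintro ⟨A, ⟨⟨F, hF, hF'⟩, ⟨F₂, hF₂, hF₂'⟩⟩, k, h⟩
  obtain ⟨tp, rfl⟩ := hF.exists_term
  obtain ⟨tu, rfl⟩ := hF₂.exists_term
  exact hH tp tu A.init k A rfl (fun d y => hF' (d, y)) (fun d y b => hF₂' (d, (y, b))) h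

end Pool.Agent.Work.MP_8ec85b_lc_or
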