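import Pool.Agent.Work.MP_8ec85b_lc_or.Expert

/-!
The oracle answers its questions with itself as the oracle of the experts.
-/

namespace Pool.Agent.Work.MP_8ec85b_lc_or

open Pool.Agent.Work.MP_8ec85b_lc
open scoped ENNReal

theorem enc_nat_inj : ∀ a b : ℕ, enc a = enc b → a = b := by
  intro a b h
  have := congrArg D.size h
  rw [size_enc_nat, size_enc_nat] at this
  omega

theorem enc_qn_inj : ∀ p q : Qn, enc p = enc q → p = q :=
  enc_pair_inj (fun _ _ h => enc_bool_inj h) (enc_pair_inj enc_nat_inj (enc_pair_inj enc_nat_inj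
    (enc_pair_inj (enc_list_inj (enc_pair_inj (fun _ _ h => enc_var_inj h)
      (fun _ _ h => enc_bool_inj h))) (fun _ _ h => enc_var_inj h))))

theorem pad_lt_size (q : Qn) : q.2.2.1 < (enc q).size := by
  obtain ⟨b, c, m, L, w⟩ := q
  simp only [enc_pair, D.size, size_enc_nat]
  omega

theorem ans_congr {T T' : D → Bool} {q : Qn} (h : trunc q.2.2.1 T = trunc q.2.2.1 T') :
    ans T q ↔ ans T' q := by
  simp only [ans, h]

theorem Phi_congr {T T' : D → Bool} {v : D} (h : ∀ x : D, x.size + 1 < v.size → T x = T' x) :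
    Phi T v = Phi T' v := by
  have key : ∀ q : Qn, v = enc q → (ans T q ↔ ans T' q) := by
    intro q hq
    apply ans_congr
    funext x
    simp only [trunc]
    split_ifs with hx
    · apply h
      have := pad_lt_size q
      rw [← hq] at this
      omega
    · rfl
  simp only [Phi]
  congr 1
  apply propext
  constructor
  · rintro ⟨q, hq, hq'⟩; exact ⟨q, hq, (key q hq).1 hq'⟩
  · rintro ⟨q, hq, hq'⟩; exact ⟨q, hq, (key q hq).2 hq'⟩

theorem lvl_eq : ∀ (m : ℕ) (v : D), v.size ≤ m → lvl m v = orc v := by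
  intro m
  induction m using Nat.strong_induction_on with
  | _ m ih =>
    intro v hv
    have hpos := v.size_pos
    obtain ⟨m', rfl⟩ : ∃ m', m = m' + 1 := ⟨m - 1, by omega⟩
    obtain ⟨r, hr⟩ : ∃ r, v.size = r + 1 := ⟨v.size - 1, by omega⟩
    simp only [orc, hr, lvl]
    apply Phi_congr
    intro x hx
    rw [ih m' (by omega) x (by omega), ih r (by omega) x (by omega)]

theorem orc_eq (v : D) : orc v = Phi orc v := by
  have hpos := v.size_pos
  obtain ⟨r, hr⟩ : ∃ r, v.size = r + 1 := ⟨v.size - 1, by omega⟩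
  have h1 : orc v = Phi (lvl r) v := by simp only [orc, hr, lvl]
  rw [h1]
  apply Phi_congr
  intro x hx
  exact lvl_eq r x (by omega)

theorem orc_enc (q : Qn) : orc (enc q) = true ↔ ans orc q := by
  classical
  rw [orc_eq]
  simp only [Phi, decide_eq_true_eq]
  constructor
  · rintro ⟨q', hq, h⟩
    rw [enc_qn_inj _ _ hq]
    exact h
  · intro h
    exact ⟨q, rfl, h⟩

theorem orc_vote (θ : Tm × Tm × D) (m : ℕ) (L : CL) (w : List Bool) :
    orc (enc ((true, (Encodable.encode θ, (m, (L, w)))) : Qn)) = true ↔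
      W (trunc m orc) θ ((w, false) :: L) ≤ W (trunc m orc) θ ((w, true) :: L) := by
  rw [orc_enc]
  simp only [ans, if_true]
  constructor
  · rintro ⟨θ', h, h'⟩
    rw [Encodable.encode_injective h] at h'
    exact h'
  · intro h
    exact ⟨θ, rfl, h⟩

theorem orc_budget (a u : ℕ) (L : CL) (w : List Bool) :
    orc (enc ((false, (a, (u, (L, w)))) : Qn)) = true ↔
      L.length < (u + 2) ^ a * (Nat.log 2 w.length + 2) ^ a := by
  rw [orc_enc]
  simp only [ans, Bool.false_eq_true, if_false]

end Pool.Agent.Work.MP_8ec85b_lc_or
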