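import Pool.Agent.Work.MP_8ec85b_lc_or.OrcEq

/-!
The expert of the set of relevant variables behaves like the infinite-attribute learner.
-/

namespace Pool.Agent.Work.MP_8ec85b_lc_or

open Pool.Agent.Work.MP_8ec85b_lc
open scoped ENNReal

theorem trunc_agree {O : D → Bool} {t : Tm} {d : D} {M m : ℕ} (h : Uses t O d M) (hm : M < m) :
    eval (trunc m O) t d = eval O t d := by
  obtain ⟨Q, _, h2, h3⟩ := h
  apply h3
  intro q hq
  have := h2 q hq
  simp only [trunc]
  rw [if_pos (by omega)]

theorem final_append {X : Type} (A : Learner X) (s : D) (es es' : List (X × Bool)) :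
    A.final s (es ++ es') = A.final (A.final s es) es' := by
  induction es generalizing s with
  | nil => rfl
  | cons e es ih => exact ih _

theorem mistakes_append {X : Type} (A : Learner X) (s : D) (es es' : List (X × Bool)) :
    A.mistakes s (es ++ es') = A.mistakes s es + A.mistakes (A.final s es) es' := by
  induction es generalizing s with
  | nil => simp [Learner.mistakes, Learner.final]
  | cons e es ih =>
    simp only [List.cons_append, Learner.mistakes, Learner.final]
    rw [ih]
    omega

/-- A list of examples which are labelled by `c`. -/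
def Lab {n : ℕ} (c : (Fin n → Bool) → Bool) (L : CL) : Prop :=
  ∀ e ∈ L, ∃ x : Fin n → Bool, e = (List.ofFn x, c x)

/-- The examples of the infinite-attribute model which correspond to `L`. -/
noncomputable def exs (V : List ℕ) (L : CL) : List (List Var) :=
  (L.map (fun e => ex V e.1)).reverse

theorem exs_cons (V : List ℕ) (e : List Bool × Bool) (L : CL) :
    exs V (e :: L) = exs V L ++ [ex V e.1] := by
  simp [exs]

theorem ex_label {n : ℕ} {c : (Fin n → Bool) → Bool} {V : List ℕ}
    (hV : ∀ i : Fin n, Relevant c i → (i : ℕ) ∈ V) (x : Fin n → Bool) :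
    c (fun i => decide (bn i ∈ ex V (List.ofFn x))) = c x := by
  apply agree_of_relevant
  intro i hi
  have hmem := hV i hi
  have hget : (List.ofFn x).getD (i : ℕ) false = x i := by
    simp
  have : bn i ∈ ex V (List.ofFn x) ↔ x i = true := by
    simp only [ex, List.mem_map, List.mem_filter]
    constructor
    · rintro ⟨j, ⟨_, hj⟩, hji⟩
      rw [bn_inj hji, hget] at hj
      exact hj
    · intro h
      exact ⟨i, ⟨hmem, by rw [hget]; exact h⟩, rfl⟩
  cases hx : x i
  · simp [this, hx]
  · simp [this, hx]

theorem sim {A : Learner (List Var)} {tp tu : Tm} {O : D → Bool}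
    (hp : ∀ (d : D) (y : List Var), eval O tp (enc (d, y)) = enc (A.pred d y))
    (hu : ∀ (d : D) (y : List Var) (b : Bool), eval O tu (enc (d, (y, b))) =
      enc (A.upd d y b)) {b : ℕ}
    (hbp : ∀ d : D, Uses tp O d ((d.size + 2) ^ b)) (hbu : ∀ d : D, Uses tu O d ((d.size + 2) ^ b))
    {n : ℕ} {c : (Fin n → Bool) → Bool} {V : List ℕ}
    (hV : ∀ i : Fin n, Relevant c i → (i : ℕ) ∈ V) {m B₁ B₂ : ℕ}
    (hsize : ∀ L : CL, Lab c L →
      (A.final A.init (infRun c (fun i => bn i) (exs V L))).size ≤ B₁)
    (hex : ∀ x : Fin n → Bool, (enc (ex V (List.ofFn x))).size ≤ B₂)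
    (hm : (B₁ + B₂ + 7) ^ b < m) : ∀ L : CL, Lab c L →
      stt (trunc m O) (tp, tu, A.init) V L =
        A.final A.init (infRun c (fun i => bn i) (exs V L)) ∧
      ms (trunc m O) (tp, tu, A.init) V L =
        A.mistakes A.init (infRun c (fun i => bn i) (exs V L)) := by
  classical
  intro L
  induction L with
  | nil => intro _; exact ⟨rfl, rfl⟩
  | cons e L ih =>
    intro hL
    have hL' : Lab c L := fun e' he' => hL e' (List.mem_cons_of_mem _ he')
    obtain ⟨ih1, ih2⟩ := ih hL'
    obtain ⟨x, rfl⟩ := hL e List.mem_cons_self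
    have hs := hsize L hL'
    have he := hex x
    have hrun : infRun c (fun i => bn i) (exs V ((List.ofFn x, c x) :: L)) =
        infRun c (fun i => bn i) (exs V L) ++ [(ex V (List.ofFn x), c x)] := by
      rw [exs_cons]
      simp only [infRun, List.map_append, List.map_cons, List.map_nil]
      rw [ex_label hV]
    set d := A.final A.init (infRun c (fun i => bn i) (exs V L)) with hd
    have hpred : pr (trunc m O) (tp, tu, A.init) V L (List.ofFn x) =
        A.pred d (ex V (List.ofFn x)) := by
      have h1 : eval (trunc m O) tp (D.cons d (enc (ex V (List.ofFn x)))) =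
          eval O tp (D.cons d (enc (ex V (List.ofFn x)))) := by
        apply trunc_agree (hbp _)
        refine lt_of_le_of_lt (Nat.pow_le_pow_left ?_ b) hm
        simp only [D.size]; omega
      have h2 := hp d (ex V (List.ofFn x))
      simp only [pr, ih1]
      rw [h1]
      have h3 : eval O tp (D.cons d (enc (ex V (List.ofFn x)))) =
          enc (A.pred d (ex V (List.ofFn x))) := h2
      rw [h3]
      cases A.pred d (ex V (List.ofFn x)) <;> simp [enc_true, enc_false]
    have hupd : stt (trunc m O) (tp, tu, A.init) V ((List.ofFn x, c x) :: L) =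
        A.upd d (ex V (List.ofFn x)) (c x) := by
      have h1 : eval (trunc m O) tu (D.cons d (D.cons (enc (ex V (List.ofFn x))) (enc (c x)))) =
          eval O tu (D.cons d (D.cons (enc (ex V (List.ofFn x))) (enc (c x)))) := by
        apply trunc_agree (hbu _)
        refine lt_of_le_of_lt (Nat.pow_le_pow_left ?_ b) hm
        have := enc_bool_size_le (c x)
        simp only [D.size]; omega
      have h2 : eval O tu (D.cons d (D.cons (enc (ex V (List.ofFn x))) (enc (c x)))) =
          enc (A.upd d (ex V (List.ofFn x)) (c x)) := hu d (ex V (List.ofFn x)) (c x)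
      simp only [stt, ih1]
      rw [h1, h2]
      rfl
    rw [hrun, final_append, mistakes_append, ← hd]
    refine ⟨hupd, ?_⟩
    simp only [ms, ih2, Learner.mistakes, Nat.add_zero]
    rw [hpred]

end Pool.Agent.Work.MP_8ec85b_lc_or
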