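import Pool.Agent.Work.MP_8ec85b_lc_or.Defs

/-!
Syntax for the polynomial-time functions with an oracle, and the use of the oracle in a
computation.
-/

namespace Pool.Agent.Work.MP_8ec85b_lc_or

open Pool.Agent.Work.MP_8ec85b_lc

/-- Terms of the function algebra. -/
inductive Tm : Type
  | id : Tm
  | nil : Tm
  | head : Tm
  | tail : Tm
  | cons : Tm → Tm → Tm
  | comp : Tm → Tm → Tm
  | eq : Tm
  | ite : Tm → Tm → Tm → Tm
  | brec : ℕ → Tm → Tm → Tm → Tm
  | ask : Tm

open Classical in
/-- The function denoted by a term. -/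
noncomputable def eval (O : D → Bool) : Tm → D → D
  | .id => fun x => x
  | .nil => fun _ => D.nil
  | .head => D.head
  | .tail => D.tail
  | .cons a b => fun x => D.cons (eval O a x) (eval O b x)
  | .comp a b => fun x => eval O a (eval O b x)
  | .eq => fun x => if x.head = x.tail then D.cons D.nil D.nil else D.nil
  | .ite c a b => fun x => if eval O c x = D.nil then eval O b x else eval O a x
  | .brec k a b l => fun x => D.brec ((x.size + 2) ^ k) (eval O a) (eval O b x) x (eval O l x)
  | .ask => fun x => enc (O x)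

theorem PTO.exists_term {O : D → Bool} {f : D → D} (h : PTO O f) : ∃ t : Tm, eval O t = f := by
  induction h with
  | id => exact ⟨.id, rfl⟩
  | nil => exact ⟨.nil, rfl⟩
  | head => exact ⟨.head, rfl⟩
  | tail => exact ⟨.tail, rfl⟩
  | cons _ _ h1 h2 =>
    obtain ⟨a, rfl⟩ := h1; obtain ⟨b, rfl⟩ := h2; exact ⟨.cons a b, rfl⟩
  | comp _ _ h1 h2 =>
    obtain ⟨a, rfl⟩ := h1; obtain ⟨b, rfl⟩ := h2; exact ⟨.comp a b, rfl⟩
  | eq => exact ⟨.eq, rfl⟩
  | ite _ _ _ h1 h2 h3 =>
    obtain ⟨a, rfl⟩ := h1; obtain ⟨b, rfl⟩ := h2; obtain ⟨c, rfl⟩ := h3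
    exact ⟨.ite a b c, rfl⟩
  | brec k _ _ _ h1 h2 h3 =>
    obtain ⟨a, rfl⟩ := h1; obtain ⟨b, rfl⟩ := h2; obtain ⟨c, rfl⟩ := h3
    exact ⟨.brec k a b c, rfl⟩
  | ask => exact ⟨.ask, rfl⟩

/-- `eval O t d` queries the oracle only inside a set of at most `M` trees of size at most `M`. -/
def Uses (t : Tm) (O : D → Bool) (d : D) (M : ℕ) : Prop :=
  ∃ Q : Finset D, Q.card ≤ M ∧ (∀ q ∈ Q, q.size ≤ M) ∧
    ∀ O' : D → Bool, (∀ q ∈ Q, O' q = O q) → eval O' t d = eval O t d

theorem Uses.mono {t : Tm} {O : D → Bool} {d : D} {M M' : ℕ} (h : Uses t O d M) (hM : M ≤ M') :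
    Uses t O d M' := by
  obtain ⟨Q, h1, h2, h3⟩ := h
  exact ⟨Q, h1.trans hM, fun q hq => (h2 q hq).trans hM, h3⟩

theorem brec_uses {t : Tm} {O : D → Bool} {B M M1 Y : ℕ} {z x : D}
    (hf : ∀ u : D, u.size ≤ M1 → Uses t O u M) (hM1 : Y + (B + 1) + x.size + 2 ≤ M1) :
    ∀ y : D, y.size ≤ Y → ∃ Q : Finset D, Q.card ≤ y.size * M ∧ (∀ q ∈ Q, q.size ≤ M) ∧
      ∀ O' : D → Bool, (∀ q ∈ Q, O' q = O q) →
        D.brec B (eval O' t) z x y = D.brec B (eval O t) z x y := by
  classical
  intro y
  induction y with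
  | nil =>
    intro _
    exact ⟨∅, by simp, by simp, fun O' _ => rfl⟩
  | cons a r _ ih =>
    intro hy
    simp only [D.size] at hy
    obtain ⟨Q, h1, h2, h3⟩ := ih (by omega)
    have hb : (D.brec B (eval O t) z x r).size ≤ B + 1 := by
      have : (D.brec B (eval O t) z x r).size ≤ max B 1 := by
        cases r <;> exact D.size_clip_le _ _
      omega
    obtain ⟨Q', h1', h2', h3'⟩ := hf (D.cons a (D.cons (D.brec B (eval O t) z x r) x)) (by
      simp only [D.size]; omega)
    refine ⟨Q ∪ Q', ?_, ?_, ?_⟩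
    · refine (Finset.card_union_le _ _).trans ?_
      simp only [D.size]
      have := D.size_pos a
      nlinarith [Nat.zero_le (a.size * M)]
    · intro q hq
      rcases Finset.mem_union.1 hq with h | h
      · exact h2 q h
      · exact h2' q h
    · intro O' hO'
      simp only [D.brec]
      rw [h3 O' (fun q hq => hO' q (Finset.mem_union_left _ hq)),
        h3' O' (fun q hq => hO' q (Finset.mem_union_right _ hq))]

theorem pow_add_pow_le {s a b : ℕ} : (s + 2) ^ a + (s + 2) ^ b ≤ (s + 2) ^ (a + b + 1) := by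
  have h1 : (s + 2) ^ a ≤ (s + 2) ^ (a + b) := pow_le_of_le (by omega)
  have h2 : (s + 2) ^ b ≤ (s + 2) ^ (a + b) := pow_le_of_le (by omega)
  have h3 : (s + 2) ^ (a + b) * 2 ≤ (s + 2) ^ (a + b) * (s + 2) :=
    Nat.mul_le_mul_left _ (by omega)
  rw [pow_succ]
  omega

/-- Every computation makes polynomially many queries of polynomial size, and has a value of
polynomial size. -/
theorem use (t : Tm) : ∃ b : ℕ, ∀ (O : D → Bool) (d : D),
    Uses t O d ((d.size + 2) ^ b) ∧ (eval O t d).size ≤ (d.size + 2) ^ b := by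
  classical
  induction t with
  | id => exact ⟨1, fun O d => ⟨⟨∅, by simp, by simp, fun _ _ => rfl⟩, by simp [eval]⟩⟩
  | nil => exact ⟨1, fun O d => ⟨⟨∅, by simp, by simp, fun _ _ => rfl⟩, by simp [eval, D.size]⟩⟩
  | head => exact ⟨1, fun O d => ⟨⟨∅, by simp, by simp, fun _ _ => rfl⟩, by
      have := D.size_head_le d; simp [eval]; omega⟩⟩
  | tail => exact ⟨1, fun O d => ⟨⟨∅, by simp, by simp, fun _ _ => rfl⟩, by
      have := D.size_tail_le d; simp [eval]; omega⟩⟩
  | eq =>
    refine ⟨1, fun O d => ⟨⟨∅, by simp, by simp, fun _ _ => rfl⟩, ?_⟩⟩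
    have := D.size_pos d
    simp only [eval]
    split_ifs <;> simp [D.size] <;> omega
  | ask =>
    refine ⟨1, fun O d => ⟨⟨{d}, by simp, by simp, fun O' h => ?_⟩, ?_⟩⟩
    · simp only [eval]
      rw [h d (by simp)]
    · have := D.size_pos d
      have := enc_bool_size_le (O d)
      simp only [eval, pow_one]; omega
  | cons t u ht hu =>
    obtain ⟨a, ha⟩ := ht
    obtain ⟨b, hb⟩ := hu
    refine ⟨a + b + 1 + 1 , fun O d => ⟨?_, ?_⟩⟩
    · obtain ⟨Q, h1, h2, h3⟩ := (ha O d).1
      obtain ⟨Q', h1', h2', h3'⟩ := (hb O d).1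
      have h6 : (d.size + 2) ^ (a + b + 1) ≤ (d.size + 2) ^ (a + b + 1 + 1) :=
        pow_le_of_le (by omega)
      refine ⟨Q ∪ Q', ?_, ?_, ?_⟩
      · refine (Finset.card_union_le _ _).trans ((Nat.add_le_add h1 h1').trans ?_)
        exact pow_add_pow_le.trans h6
      · intro q hq
        rcases Finset.mem_union.1 hq with h | h
        · exact (h2 q h).trans (pow_le_of_le (by omega))
        · exact (h2' q h).trans (pow_le_of_le (by omega))
      · intro O' hO'
        simp only [eval]
        rw [h3 O' (fun q hq => hO' q (Finset.mem_union_left _ hq)),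
          h3' O' (fun q hq => hO' q (Finset.mem_union_right _ hq))]
    · have h1 := (ha O d).2
      have h2 := (hb O d).2
      have h4 : (d.size + 2) ^ a + (d.size + 2) ^ b ≤ (d.size + 2) ^ (a + b + 1) := pow_add_pow_le
      have h5 : 1 ≤ (d.size + 2) ^ (a + b + 1) := Nat.one_le_pow _ _ (by omega)
      have h6 : (d.size + 2) ^ (a + b + 1 + 1) = (d.size + 2) ^ (a + b + 1) * (d.size + 2) :=
        pow_succ _ _
      have h7 : (d.size + 2) ^ (a + b + 1) * 2 ≤ (d.size + 2) ^ (a + b + 1) * (d.size + 2) :=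
        Nat.mul_le_mul_left _ (by omega)
      simp only [eval, D.size]
      omega
  | comp t u ht hu =>
    obtain ⟨a, ha⟩ := ht
    obtain ⟨b, hb⟩ := hu
    have key : ∀ (O : D → Bool) (d : D), ((eval O u d).size + 2) ^ a ≤
        (d.size + 2) ^ ((b + 1) * a) := by
      intro O d
      have h3 : 1 ≤ (d.size + 2) ^ b := Nat.one_le_pow _ _ (by omega)
      have h4 := D.size_pos d
      have h5 : (d.size + 2) ^ (b + 1) = (d.size + 2) ^ b * (d.size + 2) := pow_succ _ _
      have h6 : (d.size + 2) ^ b * 3 ≤ (d.size + 2) ^ b * (d.size + 2) :=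
        Nat.mul_le_mul_left _ (by omega)
      have h7 := (hb O d).2
      have h8 : (eval O u d).size + 2 ≤ (d.size + 2) ^ (b + 1) := by omega
      calc ((eval O u d).size + 2) ^ a ≤ ((d.size + 2) ^ (b + 1)) ^ a := Nat.pow_le_pow_left h8 a
        _ = (d.size + 2) ^ ((b + 1) * a) := by rw [← pow_mul]
    refine ⟨(b + 1) * a + b + 1, fun O d => ⟨?_, ?_⟩⟩
    · obtain ⟨Q, h1, h2, h3⟩ := (hb O d).1
      obtain ⟨Q', h1', h2', h3'⟩ := (ha O (eval O u d)).1
      refine ⟨Q ∪ Q', ?_, ?_, ?_⟩
      · refine (Finset.card_union_le _ _).trans ?_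
        have := key O d
        have h4 : (d.size + 2) ^ ((b + 1) * a) + (d.size + 2) ^ b ≤
          (d.size + 2) ^ ((b + 1) * a + b + 1) := pow_add_pow_le
        omega
      · intro q hq
        rcases Finset.mem_union.1 hq with h | h
        · exact (h2 q h).trans (pow_le_of_le (by omega))
        · exact (h2' q h).trans ((key O d).trans (pow_le_of_le (by omega)))
      · intro O' hO'
        simp only [eval]
        rw [h3 O' (fun q hq => hO' q (Finset.mem_union_left _ hq)),
          h3' O' (fun q hq => hO' q (Finset.mem_union_right _ hq))]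
    · exact ((ha O (eval O u d)).2.trans (key O d)).trans (pow_le_of_le (by omega))
  | ite c t u hc ht hu =>
    obtain ⟨e, he⟩ := hc
    obtain ⟨a, ha⟩ := ht
    obtain ⟨b, hb⟩ := hu
    refine ⟨(a + b + 1) + e + 1, fun O d => ⟨?_, ?_⟩⟩
    · obtain ⟨Q, h1, h2, h3⟩ := (ha O d).1
      obtain ⟨Q', h1', h2', h3'⟩ := (hb O d).1
      obtain ⟨Q'', h1'', h2'', h3''⟩ := (he O d).1
      refine ⟨Q ∪ Q' ∪ Q'', ?_, ?_, ?_⟩
      · refine (Finset.card_union_le _ _).trans ?_
        have h4 := Finset.card_union_le Q Q'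
        have h5 : (d.size + 2) ^ a + (d.size + 2) ^ b ≤ (d.size + 2) ^ (a + b + 1) := pow_add_pow_le
        have h6 : (d.size + 2) ^ (a + b + 1) + (d.size + 2) ^ e ≤
          (d.size + 2) ^ (a + b + 1 + e + 1) := pow_add_pow_le
        omega
      · intro q hq
        rcases Finset.mem_union.1 hq with h | h
        · rcases Finset.mem_union.1 h with h | h
          · exact (h2 q h).trans (pow_le_of_le (by omega))
          · exact (h2' q h).trans (pow_le_of_le (by omega))
        · exact (h2'' q h).trans (pow_le_of_le (by omega))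
      · intro O' hO'
        simp only [eval]
        rw [h3 O' (fun q hq => hO' q (by simp [hq])), h3' O' (fun q hq => hO' q (by simp [hq])),
          h3'' O' (fun q hq => hO' q (by simp [hq]))]
    · have h1 := (ha O d).2.trans (pow_le_of_le (s := d.size) (k := a) (K := a + b + 1 + e + 1)
        (by omega))
      have h2 := (hb O d).2.trans (pow_le_of_le (s := d.size) (k := b) (K := a + b + 1 + e + 1)
        (by omega))
      simp only [eval]
      split_ifs <;> assumption
  | brec k t u l ht hu hl =>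
    obtain ⟨a, ha⟩ := ht
    obtain ⟨b, hb⟩ := hu
    obtain ⟨e, he⟩ := hl
    -- inputs of the step function have size at most `N ^ (e + k + 4) - 2`
    set m : ℕ := (e + k + 3) * a with hm
    refine ⟨(b + e + 1) + (e + m) + 1 + k, fun O d => ⟨?_, ?_⟩⟩
    · obtain ⟨Q, h1, h2, h3⟩ := (hb O d).1
      obtain ⟨Q', h1', h2', h3'⟩ := (he O d).1
      have hN : 3 ≤ d.size + 2 := by have := D.size_pos d; omega
      have hle := (he O d).2
      have hstep : (d.size + 2) ^ e + ((d.size + 2) ^ k + 1) + d.size + 2 + 2 ≤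
          (d.size + 2) ^ (e + k + 3) := by
        have e1 : (d.size + 2) ^ e ≤ (d.size + 2) ^ (e + k) := pow_le_of_le (by omega)
        have e2 : (d.size + 2) ^ k ≤ (d.size + 2) ^ (e + k) := pow_le_of_le (by omega)
        have e3 : 1 ≤ (d.size + 2) ^ (e + k) := Nat.one_le_pow _ _ (by omega)
        have e4 : (d.size + 2) ^ (e + k + 3) = (d.size + 2) ^ (e + k) * (d.size + 2) ^ 3 := by
          rw [pow_add]
        have e5 : 2 + (d.size + 5) ≤ (d.size + 2) ^ 3 := by nlinarith [sq_nonneg d.size]
        have e6 : (d.size + 2) ^ (e + k) * (2 + (d.size + 5)) ≤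
          (d.size + 2) ^ (e + k) * (d.size + 2) ^ 3 := Nat.mul_le_mul_left _ e5
        have e7 : (d.size + 5) ≤ (d.size + 2) ^ (e + k) * (d.size + 5) :=
          Nat.le_mul_of_pos_left _ e3
        rw [e4]
        rw [Nat.mul_add] at e6
        omega
      obtain ⟨Q'', h1'', h2'', h3''⟩ := brec_uses (t := t) (O := O) (B := (d.size + 2) ^ k)
        (M := (d.size + 2) ^ m)
        (M1 := (d.size + 2) ^ e + ((d.size + 2) ^ k + 1) + d.size + 2)
        (Y := (d.size + 2) ^ e) (z := eval O u d) (x := d)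
        (fun v hv => (ha O v).1.mono (by
          calc (v.size + 2) ^ a ≤ ((d.size + 2) ^ (e + k + 3)) ^ a :=
                Nat.pow_le_pow_left (by omega) a
            _ = (d.size + 2) ^ m := by rw [← pow_mul]))
        le_rfl (eval O l d) hle
      refine ⟨Q ∪ Q' ∪ Q'', ?_, ?_, ?_⟩
      · refine (Finset.card_union_le _ _).trans ?_
        have h4 := Finset.card_union_le Q Q'
        have h5 : (d.size + 2) ^ b + (d.size + 2) ^ e ≤ (d.size + 2) ^ (b + e + 1) := pow_add_pow_le
        have h6 : (d.size + 2) ^ (b + e + 1) + (d.size + 2) ^ (e + m) ≤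
          (d.size + 2) ^ (b + e + 1 + (e + m) + 1) := pow_add_pow_le
        have h7 : (d.size + 2) ^ (b + e + 1 + (e + m) + 1) ≤
          (d.size + 2) ^ (b + e + 1 + (e + m) + 1 + k) := pow_le_of_le (by omega)
        have h8 : (eval O l d).size * (d.size + 2) ^ m ≤ (d.size + 2) ^ (e + m) := by
          rw [pow_add]; exact Nat.mul_le_mul_right _ hle
        omega
      · intro q hq
        rcases Finset.mem_union.1 hq with h | h
        · rcases Finset.mem_union.1 h with h | h
          · exact (h2 q h).trans (pow_le_of_le (by omega))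
          · exact (h2' q h).trans (pow_le_of_le (by omega))
        · exact (h2'' q h).trans (pow_le_of_le (by omega))
      · intro O' hO'
        simp only [eval]
        rw [h3 O' (fun q hq => hO' q (by simp [hq])), h3' O' (fun q hq => hO' q (by simp [hq])),
          h3'' O' (fun q hq => hO' q (by simp [hq]))]
    · have h1 : 1 ≤ (d.size + 2) ^ k := Nat.one_le_pow _ _ (by omega)
      have : ∀ y, (D.brec ((d.size + 2) ^ k) (eval O t) (eval O u d) d y).size ≤
          max ((d.size + 2) ^ k) 1 := by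
        intro y
        cases y <;> exact D.size_clip_le _ _
      have h2 := this (eval O l d)
      have h3 : (d.size + 2) ^ k ≤ (d.size + 2) ^ ((b + e + 1) + (e + m) + 1 + k) :=
        pow_le_of_le (by omega)
      simp only [eval]
      omega

end Pool.Agent.Work.MP_8ec85b_lc_or
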